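import Pool.Agent.MP_e99f36_lc.H71.SetTh

/-! Abstract set-theoretic core: regular step and singular compactness. -/

open Cardinal Set

namespace Pool.Agent.MP_e99f36_lc.H71

/-- The axioms on the closed sets `Cl`, the purity relation `P` and the good-step relation `R`. -/
structure Ax {Ω : Type} (Cl : Set Ω → Prop) (P R : Set Ω → Set Ω → Prop) (lam : Cardinal.{0}) :
    Prop where
  lam_inf : ℵ₀ ≤ lam
  cl_iUnion : ∀ {ι : Type} (A : ι → Set Ω), (∀ i, Cl (A i)) → Cl (⋃ i, A i)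
  cl_union : ∀ {s t}, Cl s → Cl t → Cl (s ∪ t)
  cl_inter : ∀ {s t}, Cl s → Cl t → Cl (s ∩ t)
  gen : ∀ y, ∃ g, Cl g ∧ y ∈ g ∧ #g ≤ lam ∧ ∀ s, Cl s → y ∈ s → g ⊆ s
  P_cl : ∀ {s t}, P s t → Cl s ∧ Cl t ∧ s ⊆ t
  R_P : ∀ {s t}, R s t → P s t
  R_refl : ∀ {s}, Cl s → R s s
  P_mono : ∀ {s t u}, P s u → s ⊆ t → t ⊆ u → Cl t → P s t
  P_dir : ∀ {ι : Type} [Nonempty ι] (A : ι → Set Ω) {t}, (∀ i, P (A i) t) →
    Directed (· ⊆ ·) A → P (⋃ i, A i) t
  hull : ∀ {s t} (Z : Set Ω), P s t → Z ⊆ t →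
    ∃ N, s ∪ Z ⊆ N ∧ P N t ∧ #(N \ s : Set Ω) ≤ max #Z ℵ₀
  her : ∀ {s t u}, R s u → s ⊆ t → P t u → R s t
  exc : ∀ {U M}, Cl U → R (U ∩ M) M → R U (U ∪ M)
  loc : ∀ {s t}, R s t → #(t \ s : Set Ω) ≤ lam →
    ∃ M, Cl M ∧ t \ s ⊆ M ∧ M ⊆ t ∧ #M ≤ lam ∧ R (s ∩ M) M
  eklof : ∀ {J : Type} [LinearOrder J] [WellFoundedLT J] (B : Set Ω) (A : J → Set Ω), Cl B →
    (∀ j, R (B ∪ ⋃ i ∈ Iio j, A i) ((B ∪ ⋃ i ∈ Iio j, A i) ∪ A j)) → R B (B ∪ ⋃ j, A j)
  dia : ∀ (κ : Cardinal.{0}), κ.IsRegular → lam < κ → ∀ (s : Set Ω) (N : κ.ord.ToType → Set Ω),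
    R s (s ∪ ⋃ j, N j) → (∀ j, P (s ∪ ⋃ i ∈ Iio j, N i) (s ∪ ⋃ j, N j)) →
    (∀ i, #(N i \ s : Set Ω) < κ) →
    ∃ C : Set κ.ord.ToType, IsClub C ∧ ∀ j ∈ C, ∀ k, j ≤ k →
      R (s ∪ ⋃ i ∈ Iio j, N i) (s ∪ ⋃ i ∈ Iio k, N i)

/-- `M` is closed under `c` outside `s`. -/
def Cld {Ω : Type} (s : Set Ω) (c : Ω → Set Ω) (M : Set Ω) : Prop :=
  ∀ y ∈ M, y ∉ s → c y ⊆ M

/-- `c` witnesses a decomposition of the pair `s ⊆ t`. -/
def Gw {Ω : Type} (Cl : Set Ω → Prop) (R : Set Ω → Set Ω → Prop) (lam : Cardinal.{0})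
    (s t : Set Ω) (c : Ω → Set Ω) : Prop :=
  (∀ y, #(c y) ≤ lam) ∧ Cld s c t ∧
    ∀ M M', Cl M → Cl M' → M ⊆ M' → M' ⊆ t → Cld s c M → Cld s c M' → R (M ∪ (M' ∩ s)) M'

variable {Ω : Type} {Cl : Set Ω → Prop} {P R : Set Ω → Set Ω → Prop} {lam : Cardinal.{0}}

theorem sub_Iio {J : Type} [Preorder J] (N : J → Set Ω) {i k : J} (h : i < k) :
    N i ⊆ ⋃ i ∈ Iio k, N i :=
  subset_biUnion_of_mem (u := N) (show i ∈ Iio k from h)

theorem Ax.base (h : Ax Cl P R lam) {s t : Set Ω} (hR : R s t) (hc : #(t \ s : Set Ω) ≤ lam) :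
    ∃ c, Gw Cl R lam s t c := by
  obtain ⟨M0, hM0, h1, h2, h3, h4⟩ := h.loc hR hc
  have hs := (h.P_cl (h.R_P hR)).1
  refine ⟨fun _ => M0, fun _ => h3, fun _ _ _ => h2, fun M M' hM hM' hMM hMt cM cM' => ?_⟩
  by_cases ha : ∃ y ∈ M', y ∉ s
  · obtain ⟨y, hy, hys⟩ := ha
    have hsub : M0 ⊆ M' := cM' y hy hys
    by_cases hb : ∃ z ∈ M, z ∉ s
    · obtain ⟨z, hz, hzs⟩ := hb
      have hsub' : M0 ⊆ M := cM z hz hzs
      have : M ∪ M' ∩ s = M' := by
        apply Subset.antisymm (union_subset hMM inter_subset_left)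
        intro x hx
        by_cases hxs : x ∈ s
        · exact Or.inr ⟨hx, hxs⟩
        · exact Or.inl (hsub' (h1 ⟨hMt hx, hxs⟩))
      rw [this]; exact h.R_refl hM'
    · push Not at hb
      have e1 : M ∪ M' ∩ s = M' ∩ s :=
        union_eq_self_of_subset_left (fun x hx => ⟨hMM hx, hb x hx⟩)
      have e2 : (M' ∩ s) ∩ M0 = s ∩ M0 := by
        ext x; exact ⟨fun hx => ⟨hx.1.2, hx.2⟩, fun hx => ⟨⟨hsub hx.2, hx.1⟩, hx.2⟩⟩
      have e3 : (M' ∩ s) ∪ M0 = M' := by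
        apply Subset.antisymm (union_subset inter_subset_left hsub)
        intro x hx
        by_cases hxs : x ∈ s
        · exact Or.inl ⟨hx, hxs⟩
        · exact Or.inr (h1 ⟨hMt hx, hxs⟩)
      have := h.exc (U := M' ∩ s) (M := M0) (h.cl_inter hM' hs) (by rw [e2]; exact h4)
      rw [e3] at this
      rw [e1]; exact this
  · push Not at ha
    have : M ∪ M' ∩ s = M' := by
      apply Subset.antisymm (union_subset hMM inter_subset_left)
      exact fun x hx => Or.inr ⟨hx, ha x hx⟩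
    rw [this]; exact h.R_refl hM'

theorem Ax.cl_bi (h : Ax Cl P R lam) {J : Type} (D : Set J) (A : J → Set Ω)
    (hA : ∀ j ∈ D, Cl (A j)) : Cl (⋃ i ∈ D, A i) := by
  rw [biUnion_eq_iUnion]
  exact h.cl_iUnion _ fun i => hA _ i.2

theorem Ax.comp (h : Ax Cl P R lam) {J : Type} [LinearOrder J] [WellFoundedLT J] (B : Set Ω)
    (A : J → Set Ω) (c : J → Ω → Set Ω) (hB : Cl B) (hA : ∀ j, Cl (A j))
    (hG : ∀ j, Gw Cl R lam ((B ∪ ⋃ i ∈ Iio j, A i) ∩ A j) (A j) (c j)) :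
    ∃ c', Gw Cl R lam B (B ∪ ⋃ j, A j) c' ∧
      ∀ y, (∃ j, y ∈ A j) → ∃ j, c' y = c j y := by
  classical
  let ρ : ∀ y, (∃ j, y ∈ A j) → J := fun y hy =>
    WellFounded.min wellFounded_lt {j | y ∈ A j} hy
  have hρ1 : ∀ y hy, y ∈ A (ρ y hy) := fun y hy =>
    WellFounded.min_mem wellFounded_lt {j | y ∈ A j} hy
  have hρ2 : ∀ y hy j, y ∈ A j → ¬ j < ρ y hy := fun y hy j hj =>
    WellFounded.not_lt_min wellFounded_lt {j | y ∈ A j} hj
  have hρ3 : ∀ y hy j, y ∈ A j → y ∉ (⋃ i ∈ Iio j, A i) → ρ y hy = j := by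
    intro y hy j hj hn
    rcases lt_trichotomy (ρ y hy) j with h1 | h1 | h1
    · exact absurd (sub_Iio A h1 (hρ1 y hy)) hn
    · exact h1
    · exact absurd h1 (hρ2 y hy j hj)
  let c' : Ω → Set Ω := fun y => if hy : ∃ j, y ∈ A j then c (ρ y hy) y else ∅
  have hc' : ∀ y j, y ∈ A j → y ∉ (⋃ i ∈ Iio j, A i) → c' y = c j y := by
    intro y j hj hn
    have hy : ∃ j, y ∈ A j := ⟨j, hj⟩
    simp only [c', dif_pos hy, hρ3 y hy j hj hn]
  refine ⟨c', ⟨fun y => ?_, fun y hy hyB => ?_, fun M M' hM hM' hMM hMt cM cM' => ?_⟩,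
    fun y hy => ⟨ρ y hy, by simp only [c', dif_pos hy]⟩⟩
  · by_cases hy : ∃ j, y ∈ A j
    · simp only [c', dif_pos hy]; exact (hG _).1 y
    · simp [c', dif_neg hy]
  · have hy' : ∃ j, y ∈ A j := by
      rcases hy with hy | hy
      · exact absurd hy hyB
      · exact mem_iUnion.1 hy
    simp only [c', dif_pos hy']
    refine ((hG _).2.1 y (hρ1 y hy') ?_).trans
      ((subset_iUnion A _).trans subset_union_right)
    rintro ⟨h1 | h1, -⟩
    · exact hyB h1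
    · obtain ⟨i, hi, hyi⟩ := mem_iUnion₂.1 h1
      exact hρ2 y hy' i hyi hi
  · have key := h.eklof (M ∪ M' ∩ B) (fun j => M' ∩ A j) (h.cl_union hM (h.cl_inter hM' hB)) (by
      intro j
      apply h.exc (h.cl_union (h.cl_union hM (h.cl_inter hM' hB))
        (h.cl_bi _ _ fun i _ => h.cl_inter hM' (hA i)))
      have hcl : ∀ N : Set Ω, Cld B c' N →
          Cld ((B ∪ ⋃ i ∈ Iio j, A i) ∩ A j) (c j) (N ∩ A j) := by
        intro N cN y hy hn
        have hn' : y ∉ B ∪ ⋃ i ∈ Iio j, A i := fun h1 => hn ⟨h1, hy.2⟩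
        refine subset_inter ?_ ((hG j).2.1 y hy.2 hn)
        rw [← hc' y j hy.2 fun h1 => hn' (Or.inr h1)]
        exact cN y hy.1 fun h1 => hn' (Or.inl h1)
      have := (hG j).2.2 (M ∩ A j) (M' ∩ A j) (h.cl_inter hM (hA j)) (h.cl_inter hM' (hA j))
        (inter_subset_inter_left _ hMM) inter_subset_right (hcl M cM) (hcl M' cM')
      convert this using 1
      ext x
      simp only [mem_inter_iff, mem_union, mem_iUnion, exists_prop]
      constructor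
      · rintro ⟨(h1 | h1) | ⟨i, hi, h1⟩, h2⟩
        · exact Or.inl ⟨h1, h2.2⟩
        · exact Or.inr ⟨h2, Or.inl h1.2, h2.2⟩
        · exact Or.inr ⟨h2, Or.inr ⟨i, hi, h1.2⟩, h2.2⟩
      · rintro (h1 | ⟨h1, h2 | ⟨i, hi, h2⟩, -⟩)
        · exact ⟨Or.inl (Or.inl h1.1), hMM h1.1, h1.2⟩
        · exact ⟨Or.inl (Or.inr ⟨h1.1, h2⟩), h1⟩
        · exact ⟨Or.inr ⟨i, hi, h1.1, h2⟩, h1⟩)
    convert key using 1
    apply Subset.antisymm
    · intro x hx
      rcases hMt hx with h1 | h1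
      · exact Or.inl (Or.inr ⟨hx, h1⟩)
      · obtain ⟨j, hj⟩ := mem_iUnion.1 h1
        exact Or.inr (mem_iUnion.2 ⟨j, hx, hj⟩)
    · exact union_subset (union_subset hMM inter_subset_left)
        (iUnion_subset fun j => inter_subset_left)

theorem Ax.hullc (h : Ax Cl P R lam) (s : Set Ω) (c : Ω → Set Ω) (hc : ∀ y, #(c y) ≤ lam) :
    ∃ c' : Ω → Set Ω, ∀ y, y ∈ c' y ∧ #(c' y) ≤ lam ∧ Cl (c' y) ∧ Cld s c (c' y) ∧
      ∀ T, Cl T → Cld s c T → y ∈ T → c' y ⊆ T := by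
  classical
  choose g hg1 hg2 hg3 hg4 using h.gen
  let F : List Ω → Set Ω := fun l =>
    match l with
    | [] => ∅
    | z :: _ => (if z ∈ s then ∅ else c z) ∪ g z
  refine ⟨fun y => clo F {y}, fun y => ⟨subset_clo F {y} rfl, ?_, ?_, ?_, ?_⟩⟩
  · refine mk_clo_le F _ h.lam_inf (fun l => ?_) (by simpa using one_le_aleph0.trans h.lam_inf)
    rcases l with _ | ⟨z, l⟩
    · simp [F]
    · refine (mk_union_le _ _).trans (add_le_of_le h.lam_inf ?_ (hg3 z))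
      split_ifs
      · simp
      · exact hc z
  · have : clo F {y} = ⋃ z ∈ clo F {y}, g z := by
      apply Subset.antisymm
      · exact fun z hz => mem_biUnion hz (hg2 z)
      · refine iUnion₂_subset fun z hz => ?_
        exact subset_union_right.trans (clo_closed F {y} [z] (by simpa using hz))
    change Cl (clo F {y})
    rw [this]
    exact h.cl_bi _ _ fun z _ => hg1 z
  · intro z hz hzs
    refine Subset.trans ?_ (clo_closed F {y} [z] (by simpa using hz))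
    simp only [F, if_neg hzs]
    exact subset_union_left
  · intro T hT cT hy
    refine clo_subset F _ T (by simpa using hy) fun l hl => ?_
    rcases l with _ | ⟨z, l⟩
    · simp [F]
    · have hz := hl z List.mem_cons_self
      refine union_subset ?_ (hg4 z T hT hz)
      split_ifs with hzs
      · simp
      · exact cT z hz hzs

theorem Ax.res (h : Ax Cl P R lam) {s t a : Set Ω} {c : Ω → Set Ω} (hG : Gw Cl R lam s t c)
    (ht : Cl t) (ha : Cl a) (hsa : s ⊆ a) (ca : Cld s c a) : ∃ c', Gw Cl R lam a t c' := by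
  obtain ⟨c', hc'⟩ := h.hullc s c hG.1
  refine ⟨c', fun y => (hc' y).2.1, fun y hy _ => (hc' y).2.2.2.2 t ht hG.2.1 hy,
    fun M M' hM hM' hMM hMt cM cM' => ?_⟩
  have hcl : ∀ N : Set Ω, Cl (⋃ y ∈ N \ a, c' y) := fun N =>
    h.cl_bi _ _ fun y _ => (hc' y).2.2.1
  have hcd : ∀ N : Set Ω, Cld s c (⋃ y ∈ N \ a, c' y) := by
    intro N z hz hzs
    obtain ⟨y, hy, hzy⟩ := mem_iUnion₂.1 hz
    exact ((hc' y).2.2.2.1 z hzy hzs).trans (subset_biUnion_of_mem (u := c') hy)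
  have hsub : ∀ N : Set Ω, Cld a c' N → (⋃ y ∈ N \ a, c' y) ⊆ N := fun N cN =>
    iUnion₂_subset fun y hy => cN y hy.1 hy.2
  have hmono : (⋃ y ∈ M \ a, c' y) ⊆ ⋃ y ∈ M' \ a, c' y :=
    biUnion_subset_biUnion_left (sdiff_subset_sdiff_left hMM)
  have key := hG.2.2 ((⋃ y ∈ M \ a, c' y) ∪ ((⋃ y ∈ M' \ a, c' y) ∩ a)) (⋃ y ∈ M' \ a, c' y)
    (h.cl_union (hcl M) (h.cl_inter (hcl M') ha)) (hcl M')
    (union_subset hmono inter_subset_left) ((hsub M' cM').trans hMt) (by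
      rintro z (hz | hz) hzs
      · exact (hcd M z hz hzs).trans subset_union_left
      · exact (subset_inter (hcd M' z hz.1 hzs) (ca z hz.2 hzs)).trans subset_union_right)
    (hcd M')
  have := h.exc (U := M ∪ M' ∩ a) (M := ⋃ y ∈ M' \ a, c' y)
    (h.cl_union hM (h.cl_inter hM' ha)) (by
      convert key using 1
      apply Subset.antisymm
      · rintro x ⟨hx | hx, hx'⟩
        · by_cases hxa : x ∈ a
          · exact Or.inl (Or.inr ⟨hx', hxa⟩)
          · exact Or.inl (Or.inl (mem_biUnion (show x ∈ M \ a from ⟨hx, hxa⟩) (hc' x).1))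
        · exact Or.inl (Or.inr ⟨hx', hx.2⟩)
      · rintro x ((hx | hx) | hx)
        · exact ⟨Or.inl (hsub M cM hx), hmono hx⟩
        · exact ⟨Or.inr ⟨hsub M' cM' hx.1, hx.2⟩, hx.1⟩
        · exact ⟨Or.inr ⟨hsub M' cM' hx.1, hsa hx.2⟩, hx.1⟩)
  convert this using 1
  apply Subset.antisymm
  · intro x hx
    by_cases hxa : x ∈ a
    · exact Or.inl (Or.inr ⟨hx, hxa⟩)
    · exact Or.inr (mem_biUnion (show x ∈ M' \ a from ⟨hx, hxa⟩) (hc' x).1)
  · exact union_subset (union_subset hMM inter_subset_left) (hsub M' cM')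

theorem exists_chain {O : Type} [LinearOrder O] [WellFoundedLT O] (s : Set Ω)
    (step : O → Set Ω → Set Ω) :
    ∃ N : O → Set Ω, ∀ j, N j = step j (s ∪ ⋃ i ∈ Iio j, N i) := by
  refine ⟨(wellFounded_lt (α := O)).fix
    (fun j rec => step j (s ∪ ⋃ i : Iio j, rec i.1 i.2)), fun j => ?_⟩
  rw [WellFounded.fix_eq, biUnion_eq_iUnion]

theorem Ax.chain_pure (h : Ax Cl P R lam) {O : Type} [LinearOrder O] {s t : Set Ω}
    (N : O → Set Ω) (D : Set O) (hs : P s t) (hN : ∀ i ∈ D, P (N i) t)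
    (hsub : ∀ j ∈ D, s ∪ ⋃ i ∈ Iio j, N i ⊆ N j) : P (s ∪ ⋃ i ∈ D, N i) t := by
  rcases D.eq_empty_or_nonempty with rfl | ⟨j0, hj0⟩
  · simpa using hs
  have : Nonempty D := ⟨⟨j0, hj0⟩⟩
  have hmono : ∀ i j : D, i.1 ≤ j.1 → N i ⊆ N j := by
    intro i j hij
    rcases hij.lt_or_eq with h1 | h1
    · exact ((sub_Iio N h1).trans subset_union_right).trans (hsub _ j.2)
    · rw [h1]
  have key := h.P_dir (fun i : D => N i) (fun i => hN _ i.2) (by
    intro i j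
    rcases le_total i.1 j.1 with h1 | h1
    · exact ⟨j, hmono _ _ h1, subset_rfl⟩
    · exact ⟨i, subset_rfl, hmono _ _ h1⟩)
  rw [biUnion_eq_iUnion, union_eq_self_of_subset_left]
  · exact key
  · exact (subset_union_left.trans (hsub _ hj0)).trans
      (subset_iUnion (fun i : D => N i) ⟨j0, hj0⟩)

theorem mk_chain_lt {κ : Cardinal.{0}} (hκ : κ.IsRegular) (s : Set Ω)
    (N : κ.ord.ToType → Set Ω) (j : κ.ord.ToType) (hN : ∀ i < j, #(N i \ s : Set Ω) < κ) :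
    #((s ∪ ⋃ i ∈ Iio j, N i) \ s : Set Ω) < κ := by
  have : (s ∪ ⋃ i ∈ Iio j, N i) \ s ⊆ ⋃ i : Iio j, (N i \ s) := by
    rintro x ⟨hx | hx, hxs⟩
    · exact absurd hx hxs
    · obtain ⟨i, hi, hxi⟩ := mem_iUnion₂.1 hx
      exact mem_iUnion.2 ⟨⟨i, hi⟩, hxi, hxs⟩
  refine (mk_le_mk_of_subset this).trans_lt (mk_iUnion_le_sum_mk.trans_lt ?_)
  exact sum_lt_of_isRegular hκ (mk_Iio_O j) fun i => hN _ i.2

theorem Ax.chain (h : Ax Cl P R lam) {κ : Cardinal.{0}} (hκ : κ.IsRegular) {s t : Set Ω}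
    (hs : P s t) (step : κ.ord.ToType → Set Ω → Set Ω)
    (hstep : ∀ j V, P V t → s ⊆ V → #(V \ s : Set Ω) < κ →
      V ⊆ step j V ∧ P (step j V) t ∧ #(step j V \ s : Set Ω) < κ) :
    ∃ N : κ.ord.ToType → Set Ω, (∀ j, N j = step j (s ∪ ⋃ i ∈ Iio j, N i)) ∧
      (∀ j, P (s ∪ ⋃ i ∈ Iio j, N i) t ∧ #((s ∪ ⋃ i ∈ Iio j, N i) \ s : Set Ω) < κ) ∧
      (∀ j, s ∪ ⋃ i ∈ Iio j, N i ⊆ N j ∧ P (N j) t ∧ #(N j \ s : Set Ω) < κ) ∧
      P (s ∪ ⋃ j, N j) t := by
  obtain ⟨N, hN⟩ := exists_chain s step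
  have key : ∀ j, (P (s ∪ ⋃ i ∈ Iio j, N i) t ∧ #((s ∪ ⋃ i ∈ Iio j, N i) \ s : Set Ω) < κ) ∧
      (s ∪ ⋃ i ∈ Iio j, N i ⊆ N j ∧ P (N j) t ∧ #(N j \ s : Set Ω) < κ) := by
    intro j
    induction j using WellFoundedLT.induction with
    | ind j ih =>
      have h1 : P (s ∪ ⋃ i ∈ Iio j, N i) t :=
        h.chain_pure N (Iio j) hs (fun i hi => (ih i hi).2.2.1) (fun i hi => (ih i hi).2.1)
      have h2 := mk_chain_lt hκ s N j fun i hi => (ih i hi).2.2.2
      refine ⟨⟨h1, h2⟩, ?_⟩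
      have := hstep j _ h1 subset_union_left h2
      rw [← hN j] at this
      exact this
  refine ⟨N, hN, fun j => (key j).1, fun j => (key j).2, ?_⟩
  have := h.chain_pure N univ hs (fun i _ => (key i).2.2.1) (fun i _ => (key i).2.1)
  simpa using this

/-- Strong subsets for the singular compactness argument. -/
def Strong (P R : Set Ω → Set Ω → Prop) (s t : Set Ω) (μ : Cardinal.{0}) (N : Set Ω) : Prop :=
  P N t ∧ s ⊆ N ∧ #(N \ s : Set Ω) ≤ μ ∧
    ∀ N', N ⊆ N' → P N' t → #(N' \ s : Set Ω) ≤ μ → R N N'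

theorem mk_diff_le (s V N : Set Ω) :
    #(N \ s : Set Ω) ≤ #(V \ s : Set Ω) + #(N \ V : Set Ω) := by
  refine (mk_le_mk_of_subset ?_).trans (mk_union_le _ _)
  rintro x ⟨hx, hxs⟩
  by_cases hV : x ∈ V
  · exact Or.inl ⟨hV, hxs⟩
  · exact Or.inr ⟨hx, hV⟩

theorem Ax.exists_strong (h : Ax Cl P R lam) {s t : Set Ω} (hR : R s t) {μ : Cardinal.{0}}
    (hμ : lam ≤ μ) (Z : Set Ω) (hZ : Z ⊆ t) (hZμ : #Z ≤ μ) :
    ∃ N, Z ⊆ N ∧ Strong P R s t μ N := by
  by_contra hcon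
  have hμ0 := h.lam_inf.trans hμ
  have hbad : ∀ V : Set Ω, ∃ W : Set Ω, P V t → s ⊆ V → #(V \ s : Set Ω) < Order.succ μ →
      (V ⊆ W ∧ P W t ∧ #(W \ s : Set Ω) < Order.succ μ) ∧ Z ⊆ W ∧ (Z ⊆ V → ¬ R V W) := by
    intro V
    by_cases hV : P V t ∧ s ⊆ V ∧ #(V \ s : Set Ω) < Order.succ μ
    · obtain ⟨h1, h2, h3⟩ := hV
      by_cases hZV : Z ⊆ V
      · have : ¬ Strong P R s t μ V := fun hS => hcon ⟨V, hZV, hS⟩
        simp only [Strong, not_and, not_forall] at this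
        obtain ⟨W, hW1, hW2, hW3, hW4⟩ := this h1 h2 (Order.lt_succ_iff.1 h3)
        exact ⟨W, fun _ _ _ => ⟨⟨hW1, hW2, Order.lt_succ_iff.2 hW3⟩, hZV.trans hW1,
          fun _ => hW4⟩⟩
      · obtain ⟨W, hW1, hW2, hW3⟩ := h.hull Z h1 hZ
        refine ⟨W, fun _ _ _ => ⟨⟨subset_union_left.trans hW1, hW2, ?_⟩,
          subset_union_right.trans hW1, fun h' => absurd h' hZV⟩⟩
        refine Order.lt_succ_iff.2 ((mk_diff_le s V W).trans ?_)
        exact add_le_of_le hμ0 (Order.lt_succ_iff.1 h3) (hW3.trans (max_le hZμ hμ0))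
    · exact ⟨∅, fun h1 h2 h3 => absurd ⟨h1, h2, h3⟩ hV⟩
  choose bad hbad using hbad
  have hκ : (Order.succ μ).IsRegular := isRegular_succ hμ0
  obtain ⟨N, hN, hU, hN', htop⟩ := h.chain hκ (h.R_P hR) (fun _ => bad)
    (fun _ V h1 h2 h3 => (hbad V h1 h2 h3).1)
  have hcl := (h.P_cl htop).1
  have hUsub : ∀ j, s ∪ ⋃ i ∈ Iio j, N i ⊆ s ∪ ⋃ j, N j := fun j =>
    union_subset_union_right _ (iUnion₂_subset fun i _ => subset_iUnion N i)
  obtain ⟨C, hC, hCR⟩ := h.dia _ hκ (hμ.trans_lt (Order.lt_succ μ)) s N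
    (h.her hR subset_union_left htop)
    (fun j => h.P_mono (hU j).1 (hUsub j) (h.P_cl htop).2.2 hcl) (fun i => (hN' i).2.2)
  have hne : Nonempty (Order.succ μ).ord.ToType := by
    rw [← mk_ne_zero_iff, mk_O]; exact hκ.pos.ne'
  obtain ⟨j0⟩ := hne
  have hgt : ∀ j : (Order.succ μ).ord.ToType, ∃ k, j < k := fun j => by
    obtain ⟨k, hk⟩ := bnd hκ {j} (by simpa using one_lt_aleph0.trans_le hκ.aleph0_le)
    exact ⟨k, hk j rfl⟩
  obtain ⟨j1, hj1⟩ := hgt j0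
  obtain ⟨j, hjC, hj⟩ := hC.isCofinal j1
  obtain ⟨k, hk⟩ := hgt j
  have hZ0 : ∀ i, Z ⊆ N i := fun i => by
    rw [hN i]; exact (hbad _ (hU i).1 subset_union_left (hU i).2).2.1
  have hNU : ∀ i k, i < k → N i ⊆ s ∪ ⋃ i ∈ Iio k, N i := fun i k hik =>
    (sub_Iio N hik).trans subset_union_right
  have hnot := (hbad _ (hU j).1 subset_union_left (hU j).2).2.2
    ((hZ0 j0).trans (hNU _ _ (hj1.trans_le hj)))
  rw [← hN j] at hnot
  refine hnot (h.her (hCR j hjC k hk.le) (hN' j).1 ?_)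
  exact h.P_mono (hN' j).2.1 (hNU _ _ hk) (h.P_cl (hU k).1).2.2 (h.P_cl (hU k).1).1

theorem Ax.regular (h : Ax Cl P R lam) {s t : Set Ω} (hR : R s t)
    (hκ : (#(t \ s : Set Ω)).IsRegular) (hl : lam < #(t \ s : Set Ω))
    (ih : ∀ s' t', R s' t' → #(t' \ s' : Set Ω) < #(t \ s : Set Ω) → ∃ c, Gw Cl R lam s' t' c) :
    ∃ c, Gw Cl R lam s t c := by
  generalize hκe : #(t \ s : Set Ω) = κ at hκ hl ih
  have h0 : ℵ₀ < κ := h.lam_inf.trans_lt hl
  obtain ⟨e⟩ := Cardinal.eq.1 ((mk_O κ).trans hκe.symm)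
  have hst : ∀ (j : κ.ord.ToType) (V : Set Ω), ∃ W : Set Ω, P V t → s ⊆ V →
      #(V \ s : Set Ω) < κ → (V ⊆ W ∧ P W t ∧ #(W \ s : Set Ω) < κ) ∧ (e j).1 ∈ W := by
    intro j V
    by_cases hV : P V t
    · obtain ⟨W, hW1, hW2, hW3⟩ := h.hull {(e j).1} hV (by simpa using (e j).2.1)
      refine ⟨W, fun _ _ h3 => ⟨⟨subset_union_left.trans hW1, hW2, ?_⟩, hW1 (Or.inr rfl)⟩⟩
      refine (mk_diff_le s V W).trans_lt (add_lt_of_lt hκ.aleph0_le h3 (hW3.trans_lt ?_))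
      simpa using h0
    · exact ⟨∅, fun h1 => absurd h1 hV⟩
  choose st hst using hst
  obtain ⟨N, hN, hU, hN', htop⟩ := h.chain hκ (h.R_P hR) st
    (fun j V h1 h2 h3 => (hst j V h1 h2 h3).1)
  have htope : s ∪ ⋃ j, N j = t := by
    apply Subset.antisymm (h.P_cl htop).2.2
    intro x hx
    by_cases hxs : x ∈ s
    · exact Or.inl hxs
    · refine Or.inr (mem_iUnion.2 ⟨e.symm ⟨x, hx, hxs⟩, ?_⟩)
      have := (hst (e.symm ⟨x, hx, hxs⟩) _ (hU (e.symm ⟨x, hx, hxs⟩)).1 subset_union_left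
        (hU _).2).2
      rw [← hN] at this
      simpa using this
  obtain ⟨C, hC, hCR⟩ := h.dia _ hκ hl s N (by rw [htope]; exact hR)
    (fun j => by rw [htope]; exact (hU j).1) (fun i => (hN' i).2.2)
  have hnx : ∀ j : κ.ord.ToType, ∃ k ∈ C, j < k ∧ ∀ k' ∈ C, j < k' → k ≤ k' := by
    intro j
    obtain ⟨k0, hk0⟩ := bnd hκ {j} (by simpa using one_lt_aleph0.trans_le hκ.aleph0_le)
    obtain ⟨k1, hk1, hk01⟩ := hC.isCofinal k0
    have hne : {k | k ∈ C ∧ j < k}.Nonempty := ⟨k1, hk1, (hk0 j rfl).trans_le hk01⟩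
    have hm := WellFounded.min_mem wellFounded_lt _ hne
    exact ⟨_, hm.1, hm.2, fun k' h1 h2 =>
      not_lt.1 (WellFounded.not_lt_min wellFounded_lt _ (show k' ∈ {k | k ∈ C ∧ j < k} from ⟨h1, h2⟩))⟩
  choose nx hnxC hnx1 hnx2 using hnx
  let U : κ.ord.ToType → Set Ω := fun j => s ∪ ⋃ i ∈ Iio j, N i
  have hUmono : ∀ j k, j ≤ k → U j ⊆ U k := fun j k hjk =>
    union_subset_union_right _ (biUnion_subset_biUnion_left (Iio_subset_Iio hjk))
  have hstepR : ∀ j, R (s ∪ ⋃ i ∈ Iio j, U (nx i)) (U (nx j)) := by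
    intro j
    rcases (Iio j).eq_empty_or_nonempty with he | ⟨i0, hi0⟩
    · rw [he]
      simp only [mem_empty_iff_false, iUnion_of_empty, iUnion_empty, union_empty]
      exact h.her hR subset_union_left (hU (nx j)).1
    · have hub : nx j ∈ upperBounds (nx '' Iio j) := by
        rintro _ ⟨i, hi, rfl⟩
        exact hnx2 i _ (hnxC j) (hi.trans (hnx1 j))
      have hne : (upperBounds (nx '' Iio j)).Nonempty := ⟨_, hub⟩
      have hm := WellFounded.min_mem wellFounded_lt _ hne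
      have hmin : ∀ x ∈ upperBounds (nx '' Iio j),
          WellFounded.min wellFounded_lt _ hne ≤ x := fun x hx =>
        not_lt.1 (WellFounded.not_lt_min wellFounded_lt _ hx)
      generalize WellFounded.min wellFounded_lt _ hne = γ at hm hmin
      have hγC : γ ∈ C := hC.isLUB_mem (t := nx '' Iio j)
        (by rintro _ ⟨i, -, rfl⟩; exact hnxC i) ⟨_, i0, hi0, rfl⟩ ⟨hm, hmin⟩
      have : s ∪ ⋃ i ∈ Iio j, U (nx i) = U γ := by
        apply Subset.antisymm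
        · exact union_subset subset_union_left
            (iUnion₂_subset fun i hi => hUmono _ _ (hm ⟨i, hi, rfl⟩))
        · refine union_subset_union_right _ (iUnion₂_subset fun k hk => ?_)
          have : ∃ i < j, k < nx i := by
            by_contra hcon
            push Not at hcon
            exact absurd hk (not_lt.2 (hmin k (by rintro _ ⟨i, hi, rfl⟩; exact hcon i hi)))
          obtain ⟨i, hi, hki⟩ := this
          exact ((sub_Iio N hki).trans subset_union_right).trans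
            (sub_Iio (fun i => U (nx i)) hi)
      rw [this]
      exact hCR γ hγC _ (hmin _ hub)
  have hG : ∀ j, ∃ c, Gw Cl R lam ((s ∪ ⋃ i ∈ Iio j, U (nx i)) ∩ U (nx j)) (U (nx j)) c := by
    intro j
    rw [inter_eq_left.2 (h.P_cl (h.R_P (hstepR j))).2.2]
    refine ih _ _ (hstepR j) (lt_of_le_of_lt ?_ (hU (nx j)).2)
    exact mk_le_mk_of_subset (sdiff_subset_sdiff_right subset_union_left)
  choose c hc using hG
  obtain ⟨c', hc', -⟩ := h.comp s (fun j => U (nx j)) c (h.P_cl (h.R_P hR)).1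
    (fun j => (h.P_cl (hU _).1).1) hc
  refine ⟨c', ?_⟩
  convert hc' using 1
  apply Subset.antisymm
  · rw [← htope]
    refine union_subset_union_right _ (iUnion_subset fun j => ?_)
    exact ((sub_Iio N (hnx1 j)).trans subset_union_right).trans
      (subset_iUnion (fun j => U (nx j)) j)
  · exact union_subset (h.P_cl (h.R_P hR)).2.2 (iUnion_subset fun j => (h.P_cl (hU _).1).2.2)

theorem Ax.singular (h : Ax Cl P R lam) {s t : Set Ω} (hR : R s t) {J : Type} [LinearOrder J]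
    [WellFoundedLT J] (Y : J → Set Ω) (hY : t \ s ⊆ ⋃ j, Y j) (hYt : ∀ j, Y j ⊆ t)
    (μ : J → Cardinal.{0}) (hμ1 : ∀ j, lam ≤ μ j) (hμ2 : ∀ j, #J ≤ μ j) (hμ3 : ∀ j, #(Y j) ≤ μ j)
    (ih : ∀ j s' t', R s' t' → #(t' \ s' : Set Ω) ≤ μ j → ∃ c, Gw Cl R lam s' t' c) :
    ∃ c, Gw Cl R lam s t c := by
  have hμ0 : ∀ j, ℵ₀ ≤ μ j := fun j => h.lam_inf.trans (hμ1 j)
  have hstr : ∀ j (Z : Set Ω), ∃ N, Z ⊆ t → #Z ≤ μ j → Z ⊆ N ∧ Strong P R s t (μ j) N := by
    intro j Z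
    by_cases hZ : Z ⊆ t ∧ #Z ≤ μ j
    · obtain ⟨N, hN⟩ := h.exists_strong hR (hμ1 j) Z hZ.1 hZ.2
      exact ⟨N, fun _ _ => hN⟩
    · exact ⟨∅, fun h1 h2 => absurd ⟨h1, h2⟩ hZ⟩
  choose str hstr using hstr
  have hwit : ∀ V N : Set Ω, ∃ c : Ω → Set Ω, (∀ y, #(c y) ≤ lam) ∧
      ((∃ c, Gw Cl R lam V N c) → Gw Cl R lam V N c) := by
    intro V N
    by_cases hx : ∃ c, Gw Cl R lam V N c
    · obtain ⟨c, hc⟩ := hx
      exact ⟨c, hc.1, fun _ => hc⟩
    · exact ⟨fun _ => ∅, by simp, fun h1 => absurd h1 hx⟩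
  choose wit hwit1 hwit2 using hwit
  let nxA : (J → Set Ω) × (Ω → Set Ω) → J → Set Ω := fun p j =>
    str j ((p.1 j \ s) ∪ Y j ∪ ⋃ y ∈ p.1 j \ s, p.2 y)
  let nx : (J → Set Ω) × (Ω → Set Ω) → (J → Set Ω) × (Ω → Set Ω) := fun p =>
    (nxA p, fun y => p.2 y ∪ ⋃ j, (wit (p.1 j) (nxA p j) y ∩ t))
  let q : ℕ → (J → Set Ω) × (Ω → Set Ω) := fun n => nx^[n] (fun _ => s, fun _ => ∅)
  have hq : ∀ n, q (n + 1) = nx (q n) := fun n => Function.iterate_succ_apply' nx n _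
  have hD : ∀ n y, (q n).2 y ⊆ t ∧ ∀ j, #((q n).2 y) ≤ μ j := by
    intro n y
    induction n with
    | zero => simp [q]
    | succ n ih =>
      rw [hq]
      refine ⟨union_subset ih.1 (iUnion_subset fun j => inter_subset_right), fun j => ?_⟩
      refine (mk_union_le _ _).trans (add_le_of_le (hμ0 j) (ih.2 j) ?_)
      refine mk_iUnion_le_sum_mk.trans ((sum_le_sum _ (fun _ => μ j) fun i => ?_).trans ?_)
      · exact (mk_le_mk_of_subset inter_subset_left).trans ((hwit1 _ _ _).trans (hμ1 j))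
      · simpa using mul_le_of_le (hμ0 j) (hμ2 j) le_rfl
  have hnxA : ∀ n j, Strong P R s t (μ j) ((q n).1 j) →
      ((q n).1 j \ s) ∪ Y j ∪ (⋃ y ∈ (q n).1 j \ s, (q n).2 y) ⊆ (q (n + 1)).1 j ∧
        Strong P R s t (μ j) ((q (n + 1)).1 j) := by
    intro n j hS
    rw [hq]
    refine hstr j _ ?_ ?_
    · exact union_subset (union_subset (sdiff_subset.trans (h.P_cl hS.1).2.2) (hYt j))
        (iUnion₂_subset fun y _ => (hD n y).1)
    · refine (mk_union_le _ _).trans (add_le_of_le (hμ0 j) ((mk_union_le _ _).trans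
        (add_le_of_le (hμ0 j) hS.2.2.1 (hμ3 j))) ?_)
      rw [biUnion_eq_iUnion]
      refine mk_iUnion_le_sum_mk.trans ((sum_le_sum _ (fun _ => μ j) fun y => ?_).trans ?_)
      · exact (hD n _).2 j
      · simpa using mul_le_of_le (hμ0 j) hS.2.2.1 le_rfl
  have hS : ∀ n j, Strong P R s t (μ j) ((q n).1 j) := by
    intro n j
    induction n with
    | zero =>
      refine ⟨h.R_P hR, subset_rfl, by simp [q], fun N' h1 h2 _ => h.her hR h1 h2⟩
    | succ n ih => exact (hnxA n j ih).2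
  have hsucc : ∀ n j, (q n).1 j ⊆ (q (n + 1)).1 j := by
    intro n j x hx
    by_cases hxs : x ∈ s
    · exact (hS _ j).2.1 hxs
    · exact (hnxA n j (hS n j)).1 (Or.inl (Or.inl ⟨hx, hxs⟩))
  have hmono : ∀ j, Monotone fun n => (q n).1 j := fun j =>
    monotone_nat_of_le_succ fun n => hsucc n j
  have hDmono : ∀ y, Monotone fun n => (q n).2 y := fun y =>
    monotone_nat_of_le_succ fun n => by rw [hq]; exact subset_union_left
  have hGn : ∀ j n, Gw Cl R lam ((q n).1 j) ((q (n + 1)).1 j)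
      (wit ((q n).1 j) ((q (n + 1)).1 j)) := by
    intro j n
    refine hwit2 _ _ (ih j _ _ ((hS n j).2.2.2 _ (hsucc n j) (hS _ j).1 (hS _ j).2.2.1) ?_)
    exact (mk_le_mk_of_subset (sdiff_subset_sdiff_right (hS n j).2.1)).trans (hS _ j).2.2.1
  have hcl : ∀ n j, Cl ((q n).1 j) := fun n j => (h.P_cl (hS n j).1).1
  have hs : Cl s := (h.P_cl (h.R_P hR)).1
  have hGj : ∀ j, ∃ c', Gw Cl R lam s (s ∪ ⋃ n, (q (n + 1)).1 j) c' ∧
      ∀ y, (∃ n, y ∈ (q (n + 1)).1 j) → ∃ n, c' y = wit ((q n).1 j) ((q (n + 1)).1 j) y := by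
    intro j
    refine h.comp s (fun n => (q (n + 1)).1 j) _ hs (fun n => hcl _ j) fun n => ?_
    convert hGn j n using 1
    apply Subset.antisymm
    · refine inter_subset_left.trans (union_subset (hS n j).2.1 (iUnion₂_subset fun i hi => ?_))
      exact hmono j (Nat.succ_le_of_lt hi)
    · refine subset_inter ?_ (hsucc n j)
      rcases n with _ | n
      · exact subset_union_left
      · exact (sub_Iio (fun n => (q (n + 1)).1 j)
          (Nat.lt_succ_self n)).trans subset_union_right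
  choose c hc hc' using hGj
  let A : J → Set Ω := fun j => s ∪ ⋃ n, (q (n + 1)).1 j
  have hAcl : ∀ j, Cl (A j) := fun j => h.cl_union hs (h.cl_iUnion _ fun n => hcl _ j)
  have hAt : ∀ j, A j ⊆ t := fun j =>
    union_subset (h.P_cl (h.R_P hR)).2.2 (iUnion_subset fun n => (h.P_cl (hS _ j).1).2.2)
  have hclosed : ∀ i j y, y ∈ A i → y ∈ A j → y ∉ s → c j y ⊆ A i := by
    intro i j y hi hj hys
    obtain ⟨n, hn⟩ := mem_iUnion.1 (hi.resolve_left hys)
    obtain ⟨m, hm⟩ := hc' j y (mem_iUnion.1 (hj.resolve_left hys))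
    have h1 : c j y ⊆ (q (m + 1)).2 y := by
      rw [hq]
      refine Subset.trans ?_ subset_union_right
      refine Subset.trans ?_ (subset_iUnion _ j)
      refine subset_inter ?_ (((hc j).2.1 y hj hys).trans (hAt j))
      rw [hm, hq]
    have h2 : (q (max n m + 1)).2 y ⊆ (q (max n m + 1 + 1)).1 i := by
      refine Subset.trans ?_ (hnxA _ i (hS _ i)).1
      refine Subset.trans ?_ subset_union_right
      exact subset_biUnion_of_mem (u := fun y => (q (max n m + 1)).2 y)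
        ⟨hmono i (Nat.succ_le_succ (le_max_left n m)) hn, hys⟩
    refine h1.trans ((hDmono y (Nat.succ_le_succ (le_max_right n m))).trans (h2.trans ?_))
    exact (subset_iUnion (fun n => (q (n + 1)).1 i) _).trans subset_union_right
  have hG : ∀ j, ∃ c', Gw Cl R lam ((s ∪ ⋃ i ∈ Iio j, A i) ∩ A j) (A j) c' := by
    intro j
    refine h.res (hc j) (hAcl j) (h.cl_inter (h.cl_union hs (h.cl_bi _ _ fun i _ => hAcl i))
      (hAcl j)) (subset_inter subset_union_left subset_union_left) ?_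
    rintro y ⟨hy | hy, hyj⟩ hys
    · exact absurd hy hys
    · obtain ⟨i, hi, hyi⟩ := mem_iUnion₂.1 hy
      refine subset_inter ?_ ((hc j).2.1 y hyj hys)
      exact (hclosed i j y hyi hyj hys).trans
        ((subset_biUnion_of_mem (u := A) hi).trans subset_union_right)
  choose c2 hc2 using hG
  obtain ⟨c3, hc3, -⟩ := h.comp s A c2 hs hAcl hc2
  refine ⟨c3, ?_⟩
  convert hc3 using 1
  apply Subset.antisymm
  · intro x hx
    by_cases hxs : x ∈ s
    · exact Or.inl hxs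
    · obtain ⟨j, hj⟩ := mem_iUnion.1 (hY ⟨hx, hxs⟩)
      refine Or.inr (mem_iUnion.2 ⟨j, Or.inr (mem_iUnion.2 ⟨0, ?_⟩)⟩)
      exact (hnxA 0 j (hS 0 j)).1 (Or.inl (Or.inr hj))
  · exact union_subset (h.P_cl (h.R_P hR)).2.2 (iUnion_subset hAt)

theorem Ax.main (h : Ax Cl P R lam) {s t : Set Ω} (hR : R s t) : ∃ c, Gw Cl R lam s t c := by
  generalize hκe : #(t \ s : Set Ω) = κ
  induction κ using WellFoundedLT.induction generalizing s t with
  | ind κ ih =>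
    rcases le_or_gt κ lam with hle | hlt
    · exact h.base hR (hκe ▸ hle)
    have h0 : ℵ₀ < κ := h.lam_inf.trans_lt hlt
    by_cases hκ : κ.IsRegular
    · subst hκe
      exact h.regular hR hκ hlt fun s' t' h1 h2 => ih _ h2 h1 rfl
    · have hcof : Order.cof κ.ord.ToType < κ := by
        rw [Ordinal.cof_toType]
        by_contra hcon
        exact hκ ⟨h0.le, not_lt.1 hcon⟩
      obtain ⟨S, hS, hSc⟩ := Order.exists_cof_eq κ.ord.ToType
      obtain ⟨e⟩ := Cardinal.eq.1 ((mk_O κ).trans hκe.symm)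
      let Y : S → Set Ω := fun j => (fun i => (e i).1) '' Iic j.1
      have hYc : ∀ j, #(Y j) < κ := fun j => by
        refine mk_image_le.trans_lt ?_
        rw [← Iio_insert]
        exact mk_insert_le.trans_lt (add_lt_of_lt h0.le (mk_Iio_O _) (one_lt_aleph0.trans h0))
      refine h.singular hR Y ?_ ?_ (fun j => max (max lam #S) #(Y j))
        (fun j => (le_max_left _ _).trans (le_max_left _ _))
        (fun j => (le_max_right _ _).trans (le_max_left _ _)) (fun j => le_max_right _ _)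
        (fun j s' t' h1 h2 => ih _ (h2.trans_lt ?_) h1 rfl)
      · intro x hx
        obtain ⟨j, hj, hxj⟩ := hS (e.symm ⟨x, hx⟩)
        exact mem_iUnion.2 ⟨⟨j, hj⟩, _, hxj, by simp⟩
      · rintro j _ ⟨i, -, rfl⟩
        exact (e i).2.1
      · exact max_lt (max_lt hlt (hSc ▸ hcof)) (hYc j)

end Pool.Agent.MP_e99f36_lc.H71
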