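import Pool.Agent.MP_e99f36_lc.H71.Defs

/-! Maps defined on a closed set of simplices times a standard simplex, and horn filling. -/

open CategoryTheory MonoidalCategory Simplicial Opposite Set

namespace Pool.Agent.MP_e99f36_lc.H71

open SSet.modelCategoryQuillen in
theorem fill_hom {K : SSet.{0}} [SSet.KanComplex K] {A B : SSet.{0}} (i : A ⟶ B) [Mono i]
    {n : ℕ} {k : Fin (n + 2)} (f : ∀ (j : Fin (n + 2)) (_ : j ≠ k), B ⊗ Δ[n] ⟶ K)
    (hf : SSet.horn.IsCompatible (fun j hj => MonoidalClosed.curry (f j hj)))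
    (b : A ⊗ Δ[n + 1] ⟶ K)
    (hb : ∀ j hj, i ▷ Δ[n] ≫ f j hj = A ◁ SSet.stdSimplex.δ j ≫ b) :
    ∃ φ : B ⊗ Δ[n + 1] ⟶ K, (∀ j hj, B ◁ SSet.stdSimplex.δ j ≫ φ = f j hj) ∧
      i ▷ Δ[n + 1] ≫ φ = b := by
  obtain ⟨φ, h1, h2⟩ := hf.exists_lift ((MonoidalClosed.pre i).app K) (MonoidalClosed.curry b)
    (fun j hj => by
      rw [MonoidalClosed.curry_pre_app, hb j hj, MonoidalClosed.curry_natural_left])
  refine ⟨MonoidalClosed.uncurry φ, fun j hj => ?_, ?_⟩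
  · apply MonoidalClosed.curry_injective
    rw [MonoidalClosed.curry_natural_left, MonoidalClosed.curry_uncurry, h1 j hj]
  · apply MonoidalClosed.curry_injective
    rw [← MonoidalClosed.curry_pre_app, MonoidalClosed.curry_uncurry, h2]

/-- The type of all simplices. -/
abbrev Om (Y : SSet.{0}) : Type := Σ m : SimplexCategoryᵒᵖ, Y.obj m

variable {Y : SSet.{0}}

/-- A set of simplices closed under the simplicial operators. -/
def Cl (L : Set (Om Y)) : Prop :=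
  ∀ x ∈ L, ∀ (m' : SimplexCategoryᵒᵖ) (φ : x.1 ⟶ m'), (⟨m', Y.map φ x.2⟩ : Om Y) ∈ L

theorem Cl.union {L M : Set (Om Y)} (hL : Cl L) (hM : Cl M) : Cl (L ∪ M) :=
  fun x hx m φ => hx.imp (fun h => hL x h m φ) (fun h => hM x h m φ)

theorem Cl.inter {L M : Set (Om Y)} (hL : Cl L) (hM : Cl M) : Cl (L ∩ M) :=
  fun x hx m φ => ⟨hL x hx.1 m φ, hM x hx.2 m φ⟩

theorem Cl.iUnion {ι : Sort*} {A : ι → Set (Om Y)} (hA : ∀ i, Cl (A i)) : Cl (⋃ i, A i) := by
  intro x hx m φ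
  obtain ⟨i, hi⟩ := mem_iUnion.1 hx
  exact mem_iUnion.2 ⟨i, hA i x hi m φ⟩

theorem cl_empty : Cl (∅ : Set (Om Y)) := fun _ h => h.elim

theorem cl_univ : Cl (univ : Set (Om Y)) := fun _ _ _ _ => trivial

/-- The subcomplex given by a closed set of simplices. -/
def toSub (L : Set (Om Y)) (h : Cl L) : Y.Subcomplex where
  obj m := {y | (⟨m, y⟩ : Om Y) ∈ L}
  map φ _ hy := h _ hy _ φ

/-- The degenerate simplices on the base point. -/
def bp (K : PKan) (m : SimplexCategoryᵒᵖ) : K.X.obj m :=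
  K.X.map (m.unop.const ⦋0⦌ 0).op K.pt

theorem map_bp (K : PKan) {m m' : SimplexCategoryᵒᵖ} (φ : m ⟶ m') :
    K.X.map φ (bp K m) = bp K m' := by
  unfold bp
  rw [← Functor.map_comp_apply]
  rfl

theorem const_app (K : PKan) {Z : SSet.{0}} (m : SimplexCategoryᵒᵖ) (z : Z.obj m) :
    (SSet.const K.pt : Z ⟶ K.X).app m z = bp K m := rfl

/-- Functions on the simplices of `Y × Δ[k]` with values in `K`. -/
abbrev Cell (Y : SSet.{0}) (K : PKan) (k : ℕ) : Type :=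
  ∀ x : Om Y, (Δ[k] : SSet.{0}).obj x.1 → K.X.obj x.1

variable {K : PKan} {k k' k'' : ℕ}

/-- Naturality on `L`. -/
def Natl (L : Set (Om Y)) (f : Cell Y K k) : Prop :=
  ∀ x ∈ L, ∀ (m' : SimplexCategoryᵒᵖ) (φ : x.1 ⟶ m') (t : (Δ[k] : SSet.{0}).obj x.1),
    f ⟨m', Y.map φ x.2⟩ ((Δ[k] : SSet.{0}).map φ t) = K.X.map φ (f x t)

/-- The trivial cell. -/
def triv : Cell Y K k := fun x _ => bp K x.1

/-- Two cells agree on `L`. -/
def Agree (L : Set (Om Y)) (f g : Cell Y K k) : Prop := ∀ x ∈ L, f x = g x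

/-- A simplicial map on `L × Δ[k]`, trivial on `X0`. -/
def PM (X0 L : Set (Om Y)) (f : Cell Y K k) : Prop := Natl L f ∧ Agree X0 f triv

/-- Precomposition with a map of standard simplices. -/
noncomputable def pull (φ : ⦋k⦌ ⟶ ⦋k'⦌) (f : Cell Y K k') : Cell Y K k :=
  fun x t => f x ((SSet.stdSimplex.map φ).app _ t)

theorem pull_pull (φ : ⦋k⦌ ⟶ ⦋k'⦌) (ψ : ⦋k'⦌ ⟶ ⦋k''⦌) (f : Cell Y K k'') :
    pull φ (pull ψ f) = pull (φ ≫ ψ) f := by
  funext x t
  simp only [pull]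
  rw [SSet.stdSimplex.map_comp]
  rfl

theorem pull_id (f : Cell Y K k) : pull (𝟙 _) f = f := by
  funext x t
  simp only [pull]
  rw [CategoryTheory.Functor.map_id SSet.stdSimplex]
  rfl

@[simp] theorem pull_triv (φ : ⦋k⦌ ⟶ ⦋k'⦌) : pull φ (triv : Cell Y K k') = triv := rfl

theorem Agree.refl (L : Set (Om Y)) (f : Cell Y K k) : Agree L f f := fun _ _ => rfl

theorem Agree.symm {L : Set (Om Y)} {f g : Cell Y K k} (h : Agree L f g) : Agree L g f :=
  fun x hx => (h x hx).symm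

theorem Agree.trans {L : Set (Om Y)} {f g e : Cell Y K k} (h : Agree L f g) (h' : Agree L g e) :
    Agree L f e := fun x hx => (h x hx).trans (h' x hx)

theorem Agree.mono {L M : Set (Om Y)} {f g : Cell Y K k} (h : Agree L f g) (hM : M ⊆ L) :
    Agree M f g := fun x hx => h x (hM hx)

theorem Agree.union {L M : Set (Om Y)} {f g : Cell Y K k} (h : Agree L f g) (h' : Agree M f g) :
    Agree (L ∪ M) f g := fun x hx => hx.elim (h x) (h' x)

theorem Agree.pull {L : Set (Om Y)} {f g : Cell Y K k'} (h : Agree L f g) (φ : ⦋k⦌ ⟶ ⦋k'⦌) :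
    Agree L (pull φ f) (pull φ g) := fun x hx => by
  funext t
  simp only [H71.pull, h x hx]

theorem agree_empty (f g : Cell Y K k) : Agree ∅ f g := fun _ h => h.elim

theorem natl_triv (L : Set (Om Y)) : Natl L (triv : Cell Y K k) :=
  fun _ _ _ φ _ => (map_bp K φ).symm

theorem Natl.mono {L M : Set (Om Y)} {f : Cell Y K k} (h : Natl L f) (hM : M ⊆ L) : Natl M f :=
  fun x hx => h x (hM hx)

theorem Natl.union {L M : Set (Om Y)} {f : Cell Y K k} (h : Natl L f) (h' : Natl M f) :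
    Natl (L ∪ M) f := fun x hx => hx.elim (h x) (h' x)

theorem Natl.congr {L : Set (Om Y)} (hL : Cl L) {f g : Cell Y K k} (h : Natl L f)
    (hfg : Agree L g f) : Natl L g := by
  intro x hx m φ t
  rw [hfg x hx, hfg _ (hL x hx m φ)]
  exact h x hx m φ t

theorem Natl.pull {L : Set (Om Y)} {f : Cell Y K k'} (h : Natl L f) (φ : ⦋k⦌ ⟶ ⦋k'⦌) :
    Natl L (pull φ f) := by
  intro x hx m ψ t
  have := h x hx m ψ ((SSet.stdSimplex.map φ).app _ t)
  simp only [H71.pull]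
  rw [← this]
  congr 1

variable {X0 : Set (Om Y)}

theorem pm_triv (L : Set (Om Y)) : PM X0 L (triv : Cell Y K k) := ⟨natl_triv L, Agree.refl _ _⟩

theorem PM.mono {L M : Set (Om Y)} {f : Cell Y K k} (h : PM X0 L f) (hM : M ⊆ L) : PM X0 M f :=
  ⟨h.1.mono hM, h.2⟩

theorem PM.pull {L : Set (Om Y)} {f : Cell Y K k'} (h : PM X0 L f) (φ : ⦋k⦌ ⟶ ⦋k'⦌) :
    PM X0 L (pull φ f) := ⟨h.1.pull φ, h.2.pull φ⟩

theorem PM.natl (hX : Cl X0) {L : Set (Om Y)} {f : Cell Y K k} (h : PM X0 L f) :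
    Natl (L ∪ X0) f := h.1.union ((natl_triv X0).congr hX h.2)

open Classical in
/-- Gluing two cells. -/
noncomputable def glue (L : Set (Om Y)) (f g : Cell Y K k) : Cell Y K k :=
  fun x => if x ∈ L then f x else g x

theorem glue_left (L : Set (Om Y)) (f g : Cell Y K k) : Agree L (glue L f g) f :=
  fun _ hx => if_pos hx

theorem glue_right {L M : Set (Om Y)} {f g : Cell Y K k} (h : Agree (L ∩ M) f g) :
    Agree M (glue L f g) g := by
  intro x hx
  by_cases hL : x ∈ L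
  · exact (if_pos hL).trans (h x ⟨hL, hx⟩)
  · exact if_neg hL

theorem PM.glue {L M : Set (Om Y)} (hL : Cl L) (hM : Cl M) {f g : Cell Y K k} (hf : PM X0 L f)
    (hg : PM X0 M g) (h : Agree (L ∩ M) f g) : PM X0 (L ∪ M) (glue L f g) := by
  refine ⟨(hf.1.congr hL (glue_left L f g)).union (hg.1.congr hM (glue_right h)), ?_⟩
  intro x hx
  by_cases hL : x ∈ L
  · exact (if_pos hL).trans (hf.2 x hx)
  · exact (if_neg hL).trans (hg.2 x hx)

/-- The simplicial map given by a natural cell. -/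
noncomputable def toHom {L : Set (Om Y)} (hL : Cl L) (f : Cell Y K k) (hf : Natl L f) :
    (toSub L hL : SSet.{0}) ⊗ Δ[k] ⟶ K.X where
  app m := ↾fun z => f ⟨m, z.1.1⟩ z.2
  naturality m m' φ := by
    ext z
    exact hf ⟨m, z.1.1⟩ z.1.2 m' φ z.2

open Classical in
/-- The cell given by a simplicial map. -/
noncomputable def ofHom {L : Set (Om Y)} (hL : Cl L)
    (φ : (toSub L hL : SSet.{0}) ⊗ Δ[k] ⟶ K.X) : Cell Y K k :=
  fun x t => if h : x ∈ L then φ.app x.1 (pr (A := toSub L hL) ⟨x.2, h⟩ t) else bp K x.1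

theorem ofHom_apply {L : Set (Om Y)} (hL : Cl L) (φ : (toSub L hL : SSet.{0}) ⊗ Δ[k] ⟶ K.X)
    {x : Om Y} (h : x ∈ L) (t) :
    ofHom hL φ x t = φ.app x.1 (pr (A := toSub L hL) ⟨x.2, h⟩ t) := dif_pos h

theorem natl_ofHom {L : Set (Om Y)} (hL : Cl L) (φ : (toSub L hL : SSet.{0}) ⊗ Δ[k] ⟶ K.X) :
    Natl L (ofHom hL φ) := by
  intro x hx m ψ t
  rw [ofHom_apply hL φ hx, ofHom_apply hL φ (hL x hx m ψ)]
  exact NatTrans.naturality_apply φ ψ (pr (A := toSub L hL) (B := Δ[k]) ⟨x.2, hx⟩ t)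

theorem fill (hX : Cl X0) {L L' : Set (Om Y)} (hL : Cl L) (hL' : Cl L') (hLL : L ⊆ L')
    {n : ℕ} {i : Fin (n + 2)} (f : ∀ (j : Fin (n + 2)) (_ : j ≠ i), Cell Y K n)
    (hf : ∀ j hj, PM X0 L' (f j hj))
    (hc : ∀ (g : ∀ (j : Fin (n + 2)) (_ : j ≠ i),
        (toSub (L' ∪ X0) (hL'.union hX) : SSet.{0}) ⊗ Δ[n] ⟶ K.X),
      (∀ j hj m z, (g j hj).app m z = f j hj ⟨m, z.1.1⟩ z.2) →
      SSet.horn.IsCompatible (fun j hj => MonoidalClosed.curry (g j hj)))
    (b : Cell Y K (n + 1)) (hb : PM X0 L b)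
    (hbf : ∀ j hj, Agree L (pull (SimplexCategory.δ j) b) (f j hj)) :
    ∃ φ : Cell Y K (n + 1), PM X0 L' φ ∧ Agree L φ b ∧
      ∀ j hj, Agree L' (pull (SimplexCategory.δ j) φ) (f j hj) := by
  have := K.kan
  have hle : toSub (L ∪ X0) (hL.union hX) ≤ toSub (L' ∪ X0) (hL'.union hX) :=
    fun m y hy => union_subset_union_left X0 hLL hy
  obtain ⟨φ, h1, h2⟩ := fill_hom (SSet.Subcomplex.homOfLE hle)
    (fun j hj => toHom (hL'.union hX) (f j hj) ((hf j hj).natl hX))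
    (hc _ fun _ _ _ _ => rfl) (toHom (hL.union hX) b (hb.natl hX)) (by
      intro j hj
      refine sext fun m z => ?_
      have : Agree (L ∪ X0) (pull (SimplexCategory.δ j) b) (f j hj) :=
        (hbf j hj).union ((hb.2.pull _).trans (hf j hj).2.symm)
      exact (congrFun (this ⟨m, z.1.1⟩ z.1.2) z.2).symm)
  have hag : Agree (L ∪ X0) (ofHom (hL'.union hX) φ) b := by
    intro x hx
    funext t
    rw [ofHom_apply _ φ (union_subset_union_left X0 hLL hx)]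
    exact sapp h2 x.1 (pr (A := toSub _ (hL.union hX)) ⟨x.2, hx⟩ t)
  refine ⟨ofHom (hL'.union hX) φ, ⟨(natl_ofHom _ φ).mono subset_union_left,
    (hag.mono subset_union_right).trans hb.2⟩, hag.mono subset_union_left, fun j hj x hx => ?_⟩
  funext t
  simp only [pull]
  rw [ofHom_apply _ φ (Or.inl hx)]
  exact sapp (h1 j hj) x.1 (pr (A := toSub _ (hL'.union hX)) ⟨x.2, Or.inl hx⟩ t)

/-- Source of an edge. -/
noncomputable abbrev src (H : Cell Y K 1) : Cell Y K 0 := pull (SimplexCategory.δ 1) H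

/-- Target of an edge. -/
noncomputable abbrev tgt (H : Cell Y K 1) : Cell Y K 0 := pull (SimplexCategory.δ 0) H

/-- `H` is a homotopy from `f` to `g` on `L`, relative to `X0`. -/
def Edge (X0 L : Set (Om Y)) (H : Cell Y K 1) (f g : Cell Y K 0) : Prop :=
  PM X0 L H ∧ Agree L (src H) f ∧ Agree L (tgt H) g

/-- `τ` is a triangle on `L` with edges `a` (01), `b` (12), `c` (02). -/
def Tri (X0 L : Set (Om Y)) (τ : Cell Y K 2) (a b c : Cell Y K 1) : Prop :=
  PM X0 L τ ∧ Agree L (pull (SimplexCategory.δ 2) τ) a ∧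
    Agree L (pull (SimplexCategory.δ 0) τ) b ∧ Agree L (pull (SimplexCategory.δ 1) τ) c

theorem Edge.mono {L M : Set (Om Y)} {H : Cell Y K 1} {f g : Cell Y K 0} (h : Edge X0 L H f g)
    (hM : M ⊆ L) : Edge X0 M H f g := ⟨h.1.mono hM, h.2.1.mono hM, h.2.2.mono hM⟩

theorem Edge.congr {L : Set (Om Y)} {H : Cell Y K 1} {f g f' g' : Cell Y K 0}
    (h : Edge X0 L H f g) (hf : Agree L f f') (hg : Agree L g g') : Edge X0 L H f' g' :=
  ⟨h.1, h.2.1.trans hf, h.2.2.trans hg⟩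

theorem edge_triv (L : Set (Om Y)) : Edge X0 L (triv : Cell Y K 1) triv triv :=
  ⟨pm_triv L, Agree.refl _ _, Agree.refl _ _⟩

theorem tri_empty (a b c : Cell Y K 1) : Tri X0 ∅ triv a b c :=
  ⟨pm_triv _, agree_empty _ _, agree_empty _ _, agree_empty _ _⟩

theorem Edge.glue {L M : Set (Om Y)} (hL : Cl L) (hM : Cl M) {H H' : Cell Y K 1}
    {f g : Cell Y K 0} (h : Edge X0 L H f g) (h' : Edge X0 M H' f g) (ha : Agree (L ∩ M) H H') :
    Edge X0 (L ∪ M) (glue L H H') f g :=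
  ⟨h.1.glue hL hM h'.1 ha,
    (((glue_left L H H').pull _).trans h.2.1).union (((glue_right ha).pull _).trans h'.2.1),
    (((glue_left L H H').pull _).trans h.2.2).union (((glue_right ha).pull _).trans h'.2.2)⟩

theorem hep0 (hX : Cl X0) {L L' : Set (Om Y)} (hL : Cl L) (hL' : Cl L') (hLL : L ⊆ L')
    {f g : Cell Y K 0} {H : Cell Y K 1} (hf : PM X0 L' f) (hH : Edge X0 L H f g) :
    ∃ H' g', Edge X0 L' H' f g' ∧ Agree L H' H ∧ PM X0 L' g' ∧ Agree L g' g := by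
  obtain ⟨φ, h1, h2, h3⟩ := fill hX hL hL' hLL (n := 0) (i := 0) (fun _ _ => f) (fun _ _ => hf)
    (fun _ _ => trivial) H hH.1 (by
      intro j hj
      fin_cases j
      · exact absurd rfl hj
      · exact hH.2.1)
  exact ⟨φ, tgt φ, ⟨h1, h3 1 (by decide), Agree.refl _ _⟩, h2, h1.pull _,
    (h2.pull _).trans hH.2.2⟩

theorem hep1 (hX : Cl X0) {L L' : Set (Om Y)} (hL : Cl L) (hL' : Cl L') (hLL : L ⊆ L')
    {f g : Cell Y K 0} {H : Cell Y K 1} (hg : PM X0 L' g) (hH : Edge X0 L H f g) :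
    ∃ H' f', Edge X0 L' H' f' g ∧ Agree L H' H ∧ PM X0 L' f' ∧ Agree L f' f := by
  obtain ⟨φ, h1, h2, h3⟩ := fill hX hL hL' hLL (n := 0) (i := 1) (fun _ _ => g) (fun _ _ => hg)
    (fun _ _ => trivial) H hH.1 (by
      intro j hj
      fin_cases j
      · exact hH.2.2
      · exact absurd rfl hj)
  exact ⟨φ, src φ, ⟨h1, Agree.refl _ _, h3 0 (by decide)⟩, h2, h1.pull _,
    (h2.pull _).trans hH.2.1⟩

theorem compat_aux (hX : Cl X0) {L' : Set (Om Y)} (hL' : Cl L') {a b : Cell Y K 1}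
    (ha : PM X0 L' a) (hb : PM X0 L' b) {p q : Fin 2}
    (h : Agree L' (pull (SimplexCategory.δ p) a) (pull (SimplexCategory.δ q) b))
    {ga gb : (toSub (L' ∪ X0) (hL'.union hX) : SSet.{0}) ⊗ Δ[1] ⟶ K.X}
    (hga : ∀ m z, ga.app m z = a ⟨m, z.1.1⟩ z.2) (hgb : ∀ m z, gb.app m z = b ⟨m, z.1.1⟩ z.2) :
    SSet.stdSimplex.δ p ≫ MonoidalClosed.curry ga =
      SSet.stdSimplex.δ q ≫ MonoidalClosed.curry gb := by
  rw [← MonoidalClosed.curry_natural_left, ← MonoidalClosed.curry_natural_left]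
  congr 1
  refine sext fun m z => ?_
  have : Agree (L' ∪ X0) (pull (SimplexCategory.δ p) a) (pull (SimplexCategory.δ q) b) :=
    h.union ((ha.2.pull _).trans (hb.2.pull (SimplexCategory.δ q)).symm)
  exact (hga m _).trans ((congrFun (this ⟨m, z.1.1⟩ z.1.2) z.2).trans
    (hgb m ((_ ◁ SSet.stdSimplex.δ q).app m z)).symm)

theorem tri_edges (τ : Cell Y K 2) :
    src (pull (SimplexCategory.δ 2) τ) = src (pull (SimplexCategory.δ 1) τ) ∧
    tgt (pull (SimplexCategory.δ 2) τ) = src (pull (SimplexCategory.δ 0) τ) ∧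
    tgt (pull (SimplexCategory.δ 0) τ) = tgt (pull (SimplexCategory.δ 1) τ) := by
  simp only [src, tgt, pull_pull]
  refine ⟨?_, ?_, ?_⟩ <;> congr 1 <;> decide

theorem tri0 (hX : Cl X0) {L L' : Set (Om Y)} (hL : Cl L) (hL' : Cl L') (hLL : L ⊆ L')
    {f g h : Cell Y K 0} {a b c : Cell Y K 1} {τ : Cell Y K 2}
    (ha : Edge X0 L' a f g) (hc : Edge X0 L' c f h) (hτ : Tri X0 L τ a b c) :
    ∃ τ' b', Tri X0 L' τ' a b' c ∧ Edge X0 L' b' g h ∧ Agree L b' b := by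
  obtain ⟨φ, h1, h2, h3⟩ := fill hX hL hL' hLL (n := 1) (i := 0)
    (fun j _ => if j = 2 then a else c) (by
      intro j _
      split_ifs
      · exact ha.1
      · exact hc.1) (by
      intro g hg j k hj hk hjk
      obtain ⟨rfl, rfl⟩ : j = 1 ∧ k = 2 := by revert j k; decide
      exact compat_aux hX hL' hc.1 ha.1 (p := 1) (q := 1) (hc.2.1.trans ha.2.1.symm)
        (hg 1 hj) (hg 2 hk)) τ hτ.1 (by
      intro j hj
      fin_cases j
      · exact absurd rfl hj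
      · exact hτ.2.2.2
      · exact hτ.2.1)
  have e2 : Agree L' (pull (SimplexCategory.δ 2) φ) a := h3 2 (by decide)
  have e1 : Agree L' (pull (SimplexCategory.δ 1) φ) c := h3 1 (by decide)
  obtain ⟨-, t2, t3⟩ := tri_edges φ
  refine ⟨φ, pull (SimplexCategory.δ 0) φ, ⟨h1, e2, Agree.refl _ _, e1⟩, ⟨h1.pull _, ?_, ?_⟩,
    (h2.pull _).trans hτ.2.2.1⟩
  · rw [← t2]; exact (e2.pull _).trans ha.2.2
  · rw [t3]; exact (e1.pull _).trans hc.2.2

theorem tri1 (hX : Cl X0) {L L' : Set (Om Y)} (hL : Cl L) (hL' : Cl L') (hLL : L ⊆ L')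
    {f g h : Cell Y K 0} {a b c : Cell Y K 1} {τ : Cell Y K 2}
    (ha : Edge X0 L' a f g) (hb : Edge X0 L' b g h) (hτ : Tri X0 L τ a b c) :
    ∃ τ' c', Tri X0 L' τ' a b c' ∧ Edge X0 L' c' f h ∧ Agree L c' c := by
  obtain ⟨φ, h1, h2, h3⟩ := fill hX hL hL' hLL (n := 1) (i := 1)
    (fun j _ => if j = 2 then a else b) (by
      intro j _
      split_ifs
      · exact ha.1
      · exact hb.1) (by
      intro g hg j k hj hk hjk
      obtain ⟨rfl, rfl⟩ : j = 0 ∧ k = 2 := by revert j k; decide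
      exact compat_aux hX hL' hb.1 ha.1 (p := 1) (q := 0) (hb.2.1.trans ha.2.2.symm)
        (hg 0 hj) (hg 2 hk)) τ hτ.1 (by
      intro j hj
      fin_cases j
      · exact hτ.2.2.1
      · exact absurd rfl hj
      · exact hτ.2.1)
  have e2 : Agree L' (pull (SimplexCategory.δ 2) φ) a := h3 2 (by decide)
  have e0 : Agree L' (pull (SimplexCategory.δ 0) φ) b := h3 0 (by decide)
  obtain ⟨t1, -, t3⟩ := tri_edges φ
  refine ⟨φ, pull (SimplexCategory.δ 1) φ, ⟨h1, e2, e0, Agree.refl _ _⟩, ⟨h1.pull _, ?_, ?_⟩,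
    (h2.pull _).trans hτ.2.2.2⟩
  · rw [← t1]; exact (e2.pull _).trans ha.2.1
  · rw [← t3]; exact (e0.pull _).trans hb.2.2

theorem tri2 (hX : Cl X0) {L L' : Set (Om Y)} (hL : Cl L) (hL' : Cl L') (hLL : L ⊆ L')
    {f g h : Cell Y K 0} {a b c : Cell Y K 1} {τ : Cell Y K 2}
    (hb : Edge X0 L' b g h) (hc : Edge X0 L' c f h) (hτ : Tri X0 L τ a b c) :
    ∃ τ' a', Tri X0 L' τ' a' b c ∧ Edge X0 L' a' f g ∧ Agree L a' a := by
  obtain ⟨φ, h1, h2, h3⟩ := fill hX hL hL' hLL (n := 1) (i := 2)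
    (fun j _ => if j = 0 then b else c) (by
      intro j _
      split_ifs
      · exact hb.1
      · exact hc.1) (by
      intro g hg j k hj hk hjk
      obtain ⟨rfl, rfl⟩ : j = 0 ∧ k = 1 := by revert j k; decide
      exact compat_aux hX hL' hb.1 hc.1 (p := 0) (q := 0) (hb.2.2.trans hc.2.2.symm)
        (hg 0 hj) (hg 1 hk)) τ hτ.1 (by
      intro j hj
      fin_cases j
      · exact hτ.2.2.1
      · exact hτ.2.2.2
      · exact absurd rfl hj)
  have e1 : Agree L' (pull (SimplexCategory.δ 1) φ) c := h3 1 (by decide)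
  have e0 : Agree L' (pull (SimplexCategory.δ 0) φ) b := h3 0 (by decide)
  obtain ⟨t1, t2, -⟩ := tri_edges φ
  refine ⟨φ, pull (SimplexCategory.δ 2) φ, ⟨h1, Agree.refl _ _, e0, e1⟩, ⟨h1.pull _, ?_, ?_⟩,
    (h2.pull _).trans hτ.2.1⟩
  · rw [t1]; exact (e1.pull _).trans hc.2.1
  · rw [t2]; exact (e0.pull _).trans hb.2.1

/-- The constant homotopy. -/
noncomputable abbrev rfe (f : Cell Y K 0) : Cell Y K 1 := pull (SimplexCategory.σ 0) f

theorem edge_rfe {L : Set (Om Y)} {f : Cell Y K 0} (hf : PM X0 L f) : Edge X0 L (rfe f) f f := by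
  refine ⟨hf.pull _, ?_, ?_⟩
  · simp only [src, rfe, pull_pull]
    rw [show SimplexCategory.δ 1 ≫ SimplexCategory.σ 0 = 𝟙 ⦋0⦌ by decide, pull_id]
    exact Agree.refl _ _
  · simp only [tgt, rfe, pull_pull]
    rw [show SimplexCategory.δ 0 ≫ SimplexCategory.σ 0 = 𝟙 ⦋0⦌ by decide, pull_id]
    exact Agree.refl _ _

theorem tri_s0 {L : Set (Om Y)} {a : Cell Y K 1} {f g : Cell Y K 0} (ha : Edge X0 L a f g) :
    Tri X0 L (pull (SimplexCategory.σ 0) a) (rfe f) a a := by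
  refine ⟨ha.1.pull _, ?_, ?_, ?_⟩
  · have := ha.2.1.pull (SimplexCategory.σ (0 : Fin 1))
    simp only [src, pull_pull] at this ⊢
    convert this using 2
    decide
  · rw [pull_pull, show SimplexCategory.δ 0 ≫ SimplexCategory.σ 0 = 𝟙 ⦋1⦌ by decide, pull_id]
    exact Agree.refl _ _
  · rw [pull_pull, show SimplexCategory.δ 1 ≫ SimplexCategory.σ 0 = 𝟙 ⦋1⦌ by decide, pull_id]
    exact Agree.refl _ _

theorem tri_s1 {L : Set (Om Y)} {a : Cell Y K 1} {f g : Cell Y K 0} (ha : Edge X0 L a f g) :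
    Tri X0 L (pull (SimplexCategory.σ 1) a) a (rfe g) a := by
  refine ⟨ha.1.pull _, ?_, ?_, ?_⟩
  · rw [pull_pull, show SimplexCategory.δ 2 ≫ SimplexCategory.σ 1 = 𝟙 ⦋1⦌ by decide, pull_id]
    exact Agree.refl _ _
  · have := ha.2.2.pull (SimplexCategory.σ (0 : Fin 1))
    simp only [tgt, pull_pull] at this ⊢
    convert this using 2
    decide
  · rw [pull_pull, show SimplexCategory.δ 1 ≫ SimplexCategory.σ 1 = 𝟙 ⦋1⦌ by decide, pull_id]
    exact Agree.refl _ _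

end Pool.Agent.MP_e99f36_lc.H71
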