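import Pool.Agent.MP_e99f36_lc.H71.Cells
import Pool.Agent.MP_e99f36_lc.H71.Abs

/-! Finite closed sets, purity and phantom cocycles. -/

open CategoryTheory MonoidalCategory Simplicial Opposite Set Cardinal

namespace Pool.Agent.MP_e99f36_lc.H71

theorem fact2 {q a b : SimplexCategory} (φ : q ⟶ a) (ψ : q ⟶ b) :
    ∃ (q' : SimplexCategory) (σ : q ⟶ q') (ι : q' ⟶ q), q'.len ≤ a.len + b.len ∧
      ι ≫ σ = 𝟙 _ ∧ σ ≫ ι ≫ φ = φ ∧ σ ≫ ι ≫ ψ = ψ := by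
  let θ : q ⟶ ⦋a.len + b.len⦌ := SimplexCategory.Hom.mk
    ⟨fun i => ⟨(φ.toOrderHom i).val + (ψ.toOrderHom i).val, by
      have h1 := (φ.toOrderHom i).2
      have h2 := (ψ.toOrderHom i).2
      change _ < a.len + b.len + 1
      omega⟩, fun i j hij => by
      have h1 : (φ.toOrderHom i).val ≤ (φ.toOrderHom j).val := φ.toOrderHom.monotone hij
      have h2 : (ψ.toOrderHom i).val ≤ (ψ.toOrderHom j).val := ψ.toOrderHom.monotone hij
      change (φ.toOrderHom i).val + (ψ.toOrderHom i).val ≤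
        (φ.toOrderHom j).val + (ψ.toOrderHom j).val
      omega⟩
  have hs := isSplitEpi_of_epi (Limits.factorThruImage θ)
  have he : (Limits.factorThruImage θ ≫ section_ (Limits.factorThruImage θ)) ≫ θ = θ := by
    conv_lhs => rw [Category.assoc]; enter [2, 2]; rw [← Limits.image.fac θ]
    rw [IsSplitEpi.id_assoc, Limits.image.fac]
  have key : ∀ i, φ.toOrderHom ((Limits.factorThruImage θ ≫
        section_ (Limits.factorThruImage θ)).toOrderHom i) = φ.toOrderHom i ∧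
      ψ.toOrderHom ((Limits.factorThruImage θ ≫
        section_ (Limits.factorThruImage θ)).toOrderHom i) = ψ.toOrderHom i := by
    intro i
    have h0 := congrArg (fun f : q ⟶ ⦋a.len + b.len⦌ => (f.toOrderHom i).val) he
    generalize (Limits.factorThruImage θ ≫ section_ (Limits.factorThruImage θ)) = e at h0 ⊢
    change (φ.toOrderHom (e.toOrderHom i)).val + (ψ.toOrderHom (e.toOrderHom i)).val =
      (φ.toOrderHom i).val + (ψ.toOrderHom i).val at h0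
    rcases le_total (e.toOrderHom i) i with h | h
    · have h1 : (φ.toOrderHom _).val ≤ (φ.toOrderHom _).val := φ.toOrderHom.monotone h
      have h2 : (ψ.toOrderHom _).val ≤ (ψ.toOrderHom _).val := ψ.toOrderHom.monotone h
      exact ⟨Fin.ext (by omega), Fin.ext (by omega)⟩
    · have h1 : (φ.toOrderHom _).val ≤ (φ.toOrderHom _).val := φ.toOrderHom.monotone h
      have h2 : (ψ.toOrderHom _).val ≤ (ψ.toOrderHom _).val := ψ.toOrderHom.monotone h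
      exact ⟨Fin.ext (by omega), Fin.ext (by omega)⟩
  refine ⟨Limits.image θ, Limits.factorThruImage θ, section_ _,
    SimplexCategory.len_le_of_mono (Limits.image.ι θ), IsSplitEpi.id _, ?_, ?_⟩
  · rw [← Category.assoc]
    ext i : 3
    exact (key i).1
  · rw [← Category.assoc]
    ext i : 3
    exact (key i).2

instance : Countable SimplexCategory :=
  Function.Injective.countable (f := SimplexCategory.len) (fun _ _ h => SimplexCategory.ext h)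

instance : Countable SimplexCategoryᵒᵖ := Opposite.unop_injective.countable

instance (a b : SimplexCategoryᵒᵖ) : Finite (a ⟶ b) :=
  Finite.of_injective _ (Quiver.Hom.unop_inj (X := a) (Y := b))

variable {Y : SSet.{0}}

/-- The closed set generated by a set of simplices. -/
def gen (s : Set (Om Y)) : Set (Om Y) :=
  {z | ∃ x ∈ s, ∃ (m : SimplexCategoryᵒᵖ) (φ : x.1 ⟶ m), z = ⟨m, Y.map φ x.2⟩}

theorem cl_gen (s : Set (Om Y)) : Cl (gen s) := by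
  rintro z ⟨x, hx, m', φ, rfl⟩ m ψ
  exact ⟨x, hx, m, φ ≫ ψ, by rw [Functor.map_comp_apply]⟩

theorem subset_gen (s : Set (Om Y)) : s ⊆ gen s :=
  fun x hx => ⟨x, hx, _, 𝟙 _, by simp⟩

theorem gen_subset {s T : Set (Om Y)} (hT : Cl T) (h : s ⊆ T) : gen s ⊆ T := by
  rintro _ ⟨x, hx, m, φ, rfl⟩
  exact hT x (h hx) _ φ

theorem gen_mono {s t : Set (Om Y)} (h : s ⊆ t) : gen s ⊆ gen t :=
  gen_subset (cl_gen t) (h.trans (subset_gen t))

theorem gen_countable {s : Set (Om Y)} (hs : s.Countable) : (gen s).Countable := by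
  have := hs.to_subtype
  have h : gen s ⊆ range (fun p : Σ x : s, Σ m : SimplexCategoryᵒᵖ, (x.1.1 ⟶ m) =>
      (⟨p.2.1, Y.map p.2.2 p.1.1.2⟩ : Om Y)) := by
    rintro _ ⟨x, hx, m, φ, rfl⟩
    exact ⟨⟨⟨x, hx⟩, m, φ⟩, rfl⟩
  exact (countable_range _).mono h

/-- Finitely generated closed sets. -/
def Fn (F : Set (Om Y)) : Prop := ∃ s : Set (Om Y), s.Finite ∧ F = gen s

theorem Fn.cl {F : Set (Om Y)} (h : Fn F) : Cl F := by
  obtain ⟨s, -, rfl⟩ := h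
  exact cl_gen s

theorem Fn.countable {F : Set (Om Y)} (h : Fn F) : F.Countable := by
  obtain ⟨s, hs, rfl⟩ := h
  exact gen_countable hs.countable

theorem Fn.union {F G : Set (Om Y)} (h : Fn F) (h' : Fn G) : Fn (F ∪ G) := by
  obtain ⟨s, hs, rfl⟩ := h
  obtain ⟨t, ht, rfl⟩ := h'
  refine ⟨s ∪ t, hs.union ht, Subset.antisymm ?_ ?_⟩
  · exact union_subset (gen_mono subset_union_left) (gen_mono subset_union_right)
  · exact gen_subset ((cl_gen s).union (cl_gen t))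
      (union_subset_union (subset_gen s) (subset_gen t))

theorem fn_gen {s : Set (Om Y)} (hs : s.Finite) : Fn (gen s) := ⟨s, hs, rfl⟩

theorem Fn.inter {F B : Set (Om Y)} (h : Fn F) (hB : Cl B) : Fn (F ∩ B) := by
  obtain ⟨s, hs, rfl⟩ := h
  have := hs.to_subtype
  let T := Σ x : s, Σ k : Fin (2 * x.1.1.unop.len + 1), (x.1.1 ⟶ op ⦋k.1⦌)
  let f : T → Om Y := fun p => ⟨op ⦋p.2.1.1⦌, Y.map p.2.2 p.1.1.2⟩
  refine ⟨range f ∩ B, (finite_range f).inter_of_left B, Subset.antisymm ?_ ?_⟩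
  · rintro _ ⟨⟨x, hx, m, φ, rfl⟩, hz⟩
    obtain ⟨q', σ, ι, h1, -, h3, -⟩ := fact2 φ.unop φ.unop
    refine ⟨⟨op q', Y.map (φ ≫ ι.op) x.2⟩, ⟨⟨⟨⟨x, hx⟩,
      ⟨q'.len, show q'.len < 2 * x.1.unop.len + 1 by omega⟩, φ ≫ ι.op⟩, rfl⟩, ?_⟩,
      m, σ.op, ?_⟩
    · have := hB _ hz _ ι.op
      rwa [← Functor.map_comp_apply] at this
    · have : (φ ≫ ι.op) ≫ σ.op = φ := Quiver.Hom.unop_inj h3
      rw [← Functor.map_comp_apply, this]
  · refine gen_subset ((cl_gen s).inter hB) ?_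
    rintro _ ⟨⟨p, rfl⟩, hp⟩
    exact ⟨⟨p.1.1, p.1.2, _, p.2.2, rfl⟩, hp⟩

theorem Fn.sub_dir {F : Set (Om Y)} (h : Fn F) {ι : Type} [Nonempty ι] {A : ι → Set (Om Y)}
    (hA : ∀ i, Cl (A i)) (hd : Directed (· ⊆ ·) A) (hF : F ⊆ ⋃ i, A i) : ∃ i, F ⊆ A i := by
  obtain ⟨s, hs, rfl⟩ := h
  obtain ⟨i, hi⟩ := hd.exists_mem_subset_of_finset_subset_biUnion (s := hs.toFinset)
    (by simpa using (subset_gen s).trans hF)
  exact ⟨i, gen_subset (hA i) (by simpa using hi)⟩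

variable {X0 : Set (Om Y)} {K : PKan}

/-- Loops on `L` extend to loops on `L'`. -/
def LExt (X0 : Set (Om Y)) (K : PKan) (L L' : Set (Om Y)) : Prop :=
  ∀ e : Cell Y K 1, Edge X0 L e triv triv → ∃ e', Edge X0 L' e' triv triv ∧ Agree L e' e

theorem LExt.glue {L L'' F : Set (Om Y)} (hL : Cl L) (hL'' : Cl L'') (hF : Cl F)
    (h : LExt X0 K L (L ∪ F)) (h1 : L ⊆ L'') (h2 : L'' ∩ F ⊆ L) : LExt X0 K L'' (L'' ∪ F) := by
  intro e he
  obtain ⟨e', he', ha⟩ := h e (he.mono h1)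
  have hag : Agree (L'' ∩ (L ∪ F)) e e' := ha.symm.mono (by
    rintro x ⟨hx, hx' | hx'⟩
    · exact hx'
    · exact h2 ⟨hx, hx'⟩)
  exact ⟨_, (he.glue hL'' (hL.union hF) he' hag).mono
    (union_subset_union_right _ subset_union_right), glue_left _ _ _⟩

theorem LExt.trans {L L' L'' : Set (Om Y)} (h : LExt X0 K L L') (h' : LExt X0 K L' L'')
    (hL : L ⊆ L') : LExt X0 K L L'' := by
  intro e he
  obtain ⟨e', he', ha⟩ := h e he
  obtain ⟨e'', he'', ha'⟩ := h' e' he'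
  exact ⟨e'', he'', (ha'.mono hL).trans ha⟩

theorem LExt.mono {L L' L'' : Set (Om Y)} (h : LExt X0 K L L') (hL : L'' ⊆ L') :
    LExt X0 K L L'' := by
  intro e he
  obtain ⟨e', he', ha⟩ := h e he
  exact ⟨e', he'.mono hL, ha⟩

theorem lemC (hX : Cl X0) {L L' : Set (Om Y)} (hL : Cl L) (hL' : Cl L') (hLL : L ⊆ L')
    (h : LExt X0 K L L') {f : Cell Y K 0} {H H'' : Cell Y K 1} (hH : Edge X0 L' H f triv)
    (hH'' : Edge X0 L H'' f triv) : ∃ H', Edge X0 L' H' f triv ∧ Agree L H' H'' := by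
  obtain ⟨τ, e, hτ, he, -⟩ := tri0 hX cl_empty hL (empty_subset _) (hH.mono hLL) hH''
    (tri_empty _ triv _)
  obtain ⟨e', he', ha⟩ := h e he
  obtain ⟨τ', c, -, hc, hc'⟩ := tri1 hX hL hL' hLL hH he'
    (show Tri X0 L τ H e' H'' from ⟨hτ.1, hτ.2.1, hτ.2.2.1.trans ha.symm, hτ.2.2.2⟩)
  exact ⟨c, hc, hc'⟩

/-- Phantom cocycles on `L`. -/
def Ph (X0 L : Set (Om Y)) (g : Cell Y K 0) : Prop :=
  PM X0 L g ∧ ∀ F, Fn F → F ⊆ L → ∃ H, Edge X0 F H g triv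

/-- `g` is null-homotopic on `L` relative to `N`. -/
def Null (X0 L N : Set (Om Y)) (g : Cell Y K 0) : Prop :=
  ∃ H, Edge X0 L H g triv ∧ Agree N H triv

theorem Ph.mono {L M : Set (Om Y)} {g : Cell Y K 0} (h : Ph X0 L g) (hM : M ⊆ L) : Ph X0 M g :=
  ⟨h.1.mono hM, fun F hF h' => h.2 F hF (h'.trans hM)⟩

theorem Ph.congr {L : Set (Om Y)} {g g' : Cell Y K 0} (h : Ph X0 L g) (hg : PM X0 L g')
    (ha : Agree L g' g) : Ph X0 L g' :=
  ⟨hg, fun F hF h' => by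
    obtain ⟨H, hH⟩ := h.2 F hF h'
    exact ⟨H, hH.congr (ha.symm.mono h') (Agree.refl _ _)⟩⟩

theorem ph_triv (L : Set (Om Y)) : Ph X0 L (triv : Cell Y K 0) :=
  ⟨pm_triv L, fun F _ _ => ⟨triv, edge_triv F⟩⟩

theorem Ph.of_edge (hX : Cl X0) {L : Set (Om Y)} {f g : Cell Y K 0} {G : Cell Y K 1}
    (hG : Edge X0 L G f g) (hf : PM X0 L f) (h : Ph X0 L g) : Ph X0 L f := by
  refine ⟨hf, fun F hF h' => ?_⟩
  obtain ⟨H, hH⟩ := h.2 F hF h'
  obtain ⟨_, c, -, hc, -⟩ := tri1 hX cl_empty hF.cl (empty_subset _) (hG.mono h') hH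
    (tri_empty _ _ triv)
  exact ⟨c, hc⟩

theorem Ph.of_edge' (hX : Cl X0) {L : Set (Om Y)} {f g : Cell Y K 0} {G : Cell Y K 1}
    (hG : Edge X0 L G f g) (hg : PM X0 L g) (h : Ph X0 L f) : Ph X0 L g := by
  refine ⟨hg, fun F hF h' => ?_⟩
  obtain ⟨H, hH⟩ := h.2 F hF h'
  obtain ⟨_, c, -, hc, -⟩ := tri0 hX cl_empty hF.cl (empty_subset _) (hG.mono h') hH
    (tri_empty _ triv _)
  exact ⟨c, hc⟩

theorem pm_iUnion {k : ℕ} {ι : Type} {L : ι → Set (Om Y)} (hL : ∀ i, Cl (L i))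
    {g : ι → Cell Y K k} (hg : ∀ i, PM X0 (L i) (g i)) {f : Cell Y K k}
    (h1 : ∀ i, Agree (L i) f (g i)) (h2 : ∀ x, ∃ i, f x = g i x) : PM X0 (⋃ i, L i) f := by
  refine ⟨fun x hx => ?_, fun x hx => ?_⟩
  · obtain ⟨i, hi⟩ := mem_iUnion.1 hx
    exact (hg i).1.congr (hL i) (h1 i) x hi
  · obtain ⟨i, hi⟩ := h2 x
    exact hi.trans ((hg i).2 x hx)

theorem ph_iUnion {ι : Type} [Nonempty ι] {L : ι → Set (Om Y)} (hL : ∀ i, Cl (L i))
    (hd : Directed (· ⊆ ·) L) {g : ι → Cell Y K 0} (hg : ∀ i, Ph X0 (L i) (g i))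
    {f : Cell Y K 0} (h1 : ∀ i, Agree (L i) f (g i)) (h2 : ∀ x, ∃ i, f x = g i x) :
    Ph X0 (⋃ i, L i) f := by
  refine ⟨pm_iUnion hL (fun i => (hg i).1) h1 h2, fun F hF h' => ?_⟩
  obtain ⟨i, hi⟩ := hF.sub_dir hL hd h'
  obtain ⟨H, hH⟩ := (hg i).2 F hF hi
  exact ⟨H, hH.congr ((h1 i).symm.mono hi) (Agree.refl _ _)⟩

theorem edge_iUnion {ι : Type} {L : ι → Set (Om Y)} (hL : ∀ i, Cl (L i))
    {G : ι → Cell Y K 1} {a b : Cell Y K 0} (hg : ∀ i, Edge X0 (L i) (G i) a b) {H : Cell Y K 1}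
    (h1 : ∀ i, Agree (L i) H (G i)) (h2 : ∀ x, ∃ i, H x = G i x) : Edge X0 (⋃ i, L i) H a b := by
  refine ⟨pm_iUnion hL (fun i => (hg i).1) h1 h2, fun x hx => ?_, fun x hx => ?_⟩
  · obtain ⟨i, hi⟩ := mem_iUnion.1 hx
    exact (((h1 i).pull _).trans (hg i).2.1) x hi
  · obtain ⟨i, hi⟩ := mem_iUnion.1 hx
    exact (((h1 i).pull _).trans (hg i).2.2) x hi

theorem ph_of_null (hX : Cl X0) {B L F : Set (Om Y)} (hB : Cl B) (hL : Fn L) (hF : Cl F)
    (hLB : L ⊆ B) (hFB : F ∩ B ⊆ L) (he : LExt X0 K L (L ∪ F)) {f : Cell Y K 0}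
    (hf : PM X0 (B ∪ F) f) (hph : Ph X0 B f) {H : Cell Y K 1} (hH : Edge X0 (L ∪ F) H f triv) :
    Ph X0 (B ∪ F) f := by
  refine ⟨hf, fun G hG h' => ?_⟩
  have hL'' : Fn (L ∪ G ∩ B) := hL.union (hG.inter hB)
  have hsub : L ∪ G ∩ B ⊆ B := union_subset hLB inter_subset_right
  obtain ⟨H'', hH''⟩ := hph.2 _ hL'' hsub
  obtain ⟨H', hH', ha⟩ := lemC hX hL.cl (hL.cl.union hF) subset_union_left he hH
    (hH''.mono subset_union_left)
  refine ⟨_, (hH''.glue hL''.cl (hL.cl.union hF) hH' (ha.symm.mono ?_)).mono ?_⟩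
  · rintro x ⟨hx, hx' | hx'⟩
    · exact hx'
    · exact hFB ⟨hx', hsub hx⟩
  · intro x hx
    rcases h' hx with h1 | h1
    · exact Or.inl (Or.inr ⟨hx, h1⟩)
    · exact Or.inr (Or.inr h1)

variable {ι : Type} {E : ι → PKan}

/-- Purity of `B` in `A`. -/
def Pu (X0 : Set (Om Y)) (E : ι → PKan) (B A : Set (Om Y)) : Prop :=
  Cl B ∧ Cl A ∧ B ⊆ A ∧ ∀ F, Fn F → F ⊆ A →
    ∃ L, Fn L ∧ L ⊆ B ∧ F ∩ B ⊆ L ∧ ∀ n, LExt X0 (E n) L (L ∪ F)

/-- `N` is pure in `N'` and there are no relative phantom classes. -/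
def Rr (X0 : Set (Om Y)) (E : ι → PKan) (N N' : Set (Om Y)) : Prop :=
  Pu X0 E N N' ∧ ∀ n (g : Cell Y (E n) 0), Ph X0 N' g → Agree N g triv → Null X0 N' N g

theorem pu_refl {B : Set (Om Y)} (hB : Cl B) : Pu X0 E B B :=
  ⟨hB, hB, subset_rfl, fun F hF h => ⟨F, hF, h, inter_subset_left, fun _ e he =>
    ⟨e, he.mono (by simp), Agree.refl _ _⟩⟩⟩

theorem Pu.mono {s t u : Set (Om Y)} (h : Pu X0 E s u) (h1 : s ⊆ t) (h2 : t ⊆ u) (ht : Cl t) :
    Pu X0 E s t := ⟨h.1, ht, h1, fun F hF h' => h.2.2.2 F hF (h'.trans h2)⟩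

theorem pu_dir {J : Type} [Nonempty J] (A : J → Set (Om Y)) {t : Set (Om Y)}
    (h : ∀ i, Pu X0 E (A i) t) (hd : Directed (· ⊆ ·) A) : Pu X0 E (⋃ i, A i) t := by
  have hcl : Cl (⋃ i, A i) := Cl.iUnion fun i => (h i).1
  refine ⟨hcl, (h (Classical.arbitrary J)).2.1, iUnion_subset fun i => (h i).2.2.1,
    fun F hF h' => ?_⟩
  obtain ⟨i, hi⟩ := (hF.inter hcl).sub_dir (fun i => (h i).1) hd inter_subset_right
  obtain ⟨L, h1, h2, h3, h4⟩ := (h i).2.2.2 F hF h'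
  exact ⟨L, h1, h2.trans (subset_iUnion A i), fun x hx => h3 ⟨hx.1, hi hx⟩, h4⟩

theorem Pu.trans {B B' B'' : Set (Om Y)} (h : Pu X0 E B B') (h' : Pu X0 E B' B'') :
    Pu X0 E B B'' := by
  refine ⟨h.1, h'.2.1, h.2.2.1.trans h'.2.2.1, fun F hF hF' => ?_⟩
  obtain ⟨L', h1, h2, h3, h4⟩ := h'.2.2.2 F hF hF'
  obtain ⟨L, g1, g2, g3, g4⟩ := h.2.2.2 L' h1 h2
  refine ⟨L, g1, g2, fun x hx => g3 ⟨h3 ⟨hx.1, h.2.2.1 hx.2⟩, hx.2⟩, fun n => ?_⟩
  refine ((g4 n).trans ((h4 n).glue h1.cl (g1.cl.union h1.cl) hF.cl subset_union_right ?_)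
    subset_union_left).mono (union_subset_union_left _ subset_union_left)
  rintro x ⟨hx | hx, hxF⟩
  · exact h3 ⟨hxF, h.2.2.1 (g2 hx)⟩
  · exact hx

theorem Pu.exc {U M : Set (Om Y)} (hU : Cl U) (h : Pu X0 E (U ∩ M) M) : Pu X0 E U (U ∪ M) := by
  refine ⟨hU, hU.union h.2.1, subset_union_left, fun F hF hF' => ?_⟩
  obtain ⟨L, h1, h2, h3, h4⟩ := h.2.2.2 (F ∩ M) (hF.inter h.2.1) inter_subset_right
  have hL' : Fn (L ∪ F ∩ U) := h1.union (hF.inter hU)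
  refine ⟨L ∪ F ∩ U, hL', union_subset (h2.trans inter_subset_left) inter_subset_right,
    subset_union_right, fun n => ?_⟩
  refine ((h4 n).glue h1.cl hL'.cl (hF.cl.inter h.2.1) subset_union_left ?_).mono ?_
  · rintro x ⟨hx | hx, hx'⟩
    · exact hx
    · exact h3 ⟨hx', hx.2, hx'.2⟩
  · rintro x (hx | hx)
    · exact Or.inl hx
    · rcases hF' hx with h5 | h5
      · exact Or.inl (Or.inr ⟨hx, h5⟩)
      · exact Or.inr ⟨hx, h5⟩

theorem Pu.rel (hX : Cl X0) {B A : Set (Om Y)} (h : Pu X0 E B A) {n : ι} {g : Cell Y (E n) 0}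
    (hg : Ph X0 A g) (hB : Agree B g triv) {F : Set (Om Y)} (hF : Fn F) (hFA : F ⊆ A) :
    ∃ H, Edge X0 F H g triv ∧ Agree (F ∩ B) H triv := by
  obtain ⟨L, h1, h2, h3, h4⟩ := h.2.2.2 F hF hFA
  obtain ⟨H, hH⟩ := hg.2 _ (h1.union hF) (union_subset (h2.trans h.2.2.1) hFA)
  obtain ⟨H', hH', ha⟩ := lemC hX h1.cl (h1.cl.union hF.cl) subset_union_left (h4 n) hH
    ((edge_triv L).congr (hB.symm.mono h2) (Agree.refl _ _))
  exact ⟨H', hH'.mono subset_union_right, ha.mono h3⟩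

theorem Pu.step (hX : Cl X0) {B A : Set (Om Y)} (h : Pu X0 E B A) {F F' : Set (Om Y)}
    (hF : Fn F) (hF' : Fn F') (hFF : F ⊆ F') (hFA : F' ⊆ A) {n : ι} {g : Cell Y (E n) 0}
    (hg : Ph X0 (B ∪ F) g) : ∃ g', Ph X0 (B ∪ F') g' ∧ Agree (B ∪ F) g' g := by
  obtain ⟨L, h1, h2, h3, h4⟩ := h.2.2.2 F' hF' hFA
  obtain ⟨H, hH⟩ := hg.2 _ (h1.union hF) (union_subset_union_left _ h2)
  obtain ⟨H', f', hH', -, hf', ha⟩ := hep1 hX (h1.cl.union hF.cl) (h1.cl.union hF'.cl)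
    (union_subset_union_right _ hFF) (pm_triv _) hH
  have hag : Agree ((B ∪ F) ∩ (L ∪ F')) g f' := ha.symm.mono (by
    rintro x ⟨hx | hx, hx' | hx'⟩
    · exact Or.inl hx'
    · exact Or.inl (h3 ⟨hx', hx⟩)
    · exact Or.inr hx
    · exact Or.inr hx)
  have hpm := (hg.1.glue (h.1.union hF.cl) (h1.cl.union hF'.cl) hf' hag).mono
    (show B ∪ F' ⊆ _ from union_subset (subset_union_left.trans subset_union_left)
      (subset_union_right.trans subset_union_right))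
  refine ⟨_, ph_of_null hX h.1 h1 hF'.cl h2 h3 (h4 n) hpm ?_
    (hH'.congr (glue_right hag).symm (Agree.refl _ _)), glue_left _ _ _⟩
  exact (hg.mono subset_union_left).congr (hpm.mono subset_union_left)
    ((glue_left _ _ _).mono subset_union_left)

theorem glue_seq {Ω : Type} {V : Ω → Type} (L : ℕ → Set Ω) (hL : Monotone L)
    (g : ℕ → ∀ x, V x) (hg : ∀ k, ∀ x ∈ L k, g (k + 1) x = g k x) :
    ∃ f : ∀ x, V x, (∀ k, ∀ x ∈ L k, f x = g k x) ∧ ∀ x, ∃ k, f x = g k x := by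
  classical
  have h : ∀ k k', k ≤ k' → ∀ x ∈ L k, g k' x = g k x := by
    intro k k' hk x hx
    induction hk with
    | refl => rfl
    | step h ih => exact (hg _ x (hL h hx)).trans ih
  refine ⟨fun x => if h : ∃ k, x ∈ L k then g (Nat.find h) x else g 0 x, fun k x hx => ?_,
    fun x => ?_⟩
  · have hex : ∃ k, x ∈ L k := ⟨k, hx⟩
    simp only [dif_pos hex]
    exact (h _ _ (Nat.find_min' hex hx) x (Nat.find_spec hex)).symm
  · by_cases hex : ∃ k, x ∈ L k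
    · exact ⟨_, dif_pos hex⟩
    · exact ⟨_, dif_neg hex⟩

theorem Pu.countable_step (hX : Cl X0) {B A : Set (Om Y)} (h : Pu X0 E B A)
    (hc : (A \ B).Countable) {n : ι} {g : Cell Y (E n) 0} (hg : Ph X0 B g) :
    ∃ g', Ph X0 A g' ∧ Agree B g' g := by
  obtain ⟨e, he⟩ := Set.countable_iff_exists_injOn.1 hc
  let F : ℕ → Set (Om Y) := fun k => gen {x | x ∈ A \ B ∧ e x < k}
  have hF : ∀ k, Fn (F k) := fun k => fn_gen (Finite.of_injOn (t := Iio k)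
    (fun x hx => hx.2) (he.mono fun x hx => hx.1) (finite_Iio k))
  have hFm : Monotone F := fun k k' hk => gen_mono fun x hx => ⟨hx.1, hx.2.trans_le hk⟩
  have hFA : ∀ k, F k ⊆ A := fun k => gen_subset h.2.1 fun x hx => hx.1.1
  have hst : ∀ k (p : {g : Cell Y (E n) 0 // Ph X0 (B ∪ F k) g}),
      ∃ q : {g : Cell Y (E n) 0 // Ph X0 (B ∪ F (k + 1)) g}, Agree (B ∪ F k) q.1 p.1 := by
    intro k p
    obtain ⟨g', h1, h2⟩ := h.step hX (hF k) (hF (k + 1)) (hFm (Nat.le_succ k)) (hFA _) p.2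
    exact ⟨⟨g', h1⟩, h2⟩
  choose st hst using hst
  have hF0 : B ∪ F 0 = B := by
    apply union_eq_self_of_subset_right
    exact gen_subset h.1 fun x hx => absurd hx.2 (Nat.not_lt_zero _)
  let u : ∀ k, {g : Cell Y (E n) 0 // Ph X0 (B ∪ F k) g} := fun k =>
    Nat.rec ⟨g, hF0.symm ▸ hg⟩ st k
  obtain ⟨f, hf1, hf2⟩ := glue_seq (fun k => B ∪ F k)
    (fun k k' hk => union_subset_union_right _ (hFm hk)) (fun k => (u k).1) (fun k => hst k (u k))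
  have hph := ph_iUnion (fun k => h.1.union (hF k).cl)
    (Monotone.directed_le fun k k' hk => union_subset_union_right _ (hFm hk))
    (fun k => (u k).2) hf1 hf2
  refine ⟨f, hph.mono fun x hx => ?_, fun x hx => hf1 0 x (Or.inl hx)⟩
  by_cases hxB : x ∈ B
  · exact mem_iUnion.2 ⟨0, Or.inl hxB⟩
  · exact mem_iUnion.2 ⟨e x + 1, Or.inr (subset_gen _ ⟨⟨hx, hxB⟩, Nat.lt_succ_self _⟩)⟩

end Pool.Agent.MP_e99f36_lc.H71
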