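import Pool.Agent.MP_e99f36_lc.H71.Hull

/-! Phantom extension, the Eklof lemma, the diamond lemma, and the axioms. -/

open CategoryTheory MonoidalCategory Simplicial Opposite Set Cardinal

namespace Pool.Agent.MP_e99f36_lc.H71

variable {Y : SSet.{0}} {X0 : Set (Om Y)} {ι : Type} {E : ι → PKan}

theorem Pu.ext (hX : Cl X0) {B A : Set (Om Y)} (h : Pu X0 E B A) {n : ι} {g : Cell Y (E n) 0}
    (hg : Ph X0 B g) : ∃ g', Ph X0 A g' ∧ Agree B g' g := by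
  obtain ⟨L, f, ⟨h1, h2⟩, -, h4, h5⟩ := zorn_pf
    (fun L (f : Cell Y (E n) 0) => Pu X0 E L A ∧ Ph X0 L f) B g ⟨h, hg⟩ (by
      intro J _ L g hG hd f hf1 hf2
      exact ⟨pu_dir L (fun i => (hG i).1) hd,
        ph_iUnion (fun i => (hG i).1.1) hd (fun i => (hG i).2) hf1 hf2⟩)
  refine ⟨f, h2.mono fun y hy => ?_, h4⟩
  obtain ⟨N, g1, g2, g3⟩ := h1.hull hX {y} (by simpa using hy)
  have hLN : L ⊆ N := subset_union_left.trans g1
  obtain ⟨f', hf', ha⟩ := (h1.mono hLN g2.2.2.1 g2.1).countable_step hX (by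
    rw [← le_aleph0_iff_set_countable]
    simpa using g3) h2
  exact h5 N f' ⟨g2, hf'⟩ hLN ha (g1 (Or.inr rfl))

theorem Rr.her (hX : Cl X0) {s t u : Set (Om Y)} (h : Rr X0 E s u) (hst : s ⊆ t)
    (ht : Pu X0 E t u) : Rr X0 E s t := by
  refine ⟨h.1.mono hst ht.2.2.1 ht.1, fun n g hg hs => ?_⟩
  obtain ⟨g', hg', ha⟩ := ht.ext hX hg
  obtain ⟨H, hH, hH'⟩ := h.2 n g' hg' ((ha.mono hst).trans hs)
  exact ⟨H, (hH.mono ht.2.2.1).congr ha (Agree.refl _ _), hH'⟩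

theorem rr_refl {s : Set (Om Y)} (hs : Cl s) : Rr X0 E s s :=
  ⟨pu_refl hs, fun _ _ _ h => ⟨triv, (edge_triv s).congr h.symm (Agree.refl _ _),
    Agree.refl _ _⟩⟩

theorem Rr.exc {U M : Set (Om Y)} (hU : Cl U) (h : Rr X0 E (U ∩ M) M) : Rr X0 E U (U ∪ M) := by
  refine ⟨h.1.exc hU, fun n g hg hs => ?_⟩
  obtain ⟨H, hH, hH'⟩ := h.2 n g (hg.mono subset_union_right) (hs.mono inter_subset_left)
  exact ⟨_, ((edge_triv U).congr hs.symm (Agree.refl _ _)).glue hU h.1.2.1 hH hH'.symm,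
    glue_left _ _ _⟩

theorem Rr.loc (hX : Cl X0) {lam : Cardinal.{0}} (hl : ℵ₀ ≤ lam) {s t : Set (Om Y)}
    (h : Rr X0 E s t) (hc : #(t \ s : Set (Om Y)) ≤ lam) :
    ∃ M, Cl M ∧ t \ s ⊆ M ∧ M ⊆ t ∧ #M ≤ lam ∧ Rr X0 E (s ∩ M) M := by
  have hw : ∀ l : List (Om Y), ∃ L : Set (Om Y), L.Countable ∧ L ⊆ s ∧ ((∀ x ∈ l, x ∈ t) →
      Fn L ∧ gen {x | x ∈ l} ∩ s ⊆ L ∧ ∀ n, LExt X0 (E n) L (L ∪ gen {x | x ∈ l})) := by
    intro l
    by_cases hl : ∀ x ∈ l, x ∈ t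
    · obtain ⟨L, h1, h2, h3, h4⟩ := h.1.2.2.2 _ (fn_gen l.finite_toSet) (gen_subset h.1.2.1 hl)
      exact ⟨L, h1.countable, h2, fun _ => ⟨h1, h3, h4⟩⟩
    · exact ⟨∅, countable_empty, empty_subset _, fun h' => absurd h' hl⟩
  choose w hw1 hw2 hw3 using hw
  let F : List (Om Y) → Set (Om Y) := fun l => gen {x | x ∈ l} ∪ w l
  have hMt : clo F (t \ s) ⊆ t := clo_subset F _ t sdiff_subset fun l hl =>
    union_subset (gen_subset h.1.2.1 hl) ((hw2 l).trans h.1.2.2.1)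
  have hM : Cl (clo F (t \ s)) := fun x hx m φ =>
    clo_closed F _ [x] (by simpa using hx) (Or.inl ⟨x, by simp, m, φ, rfl⟩)
  have hsub := subset_clo F (t \ s)
  have hcard : #(clo F (t \ s)) ≤ lam := mk_clo_le F _ hl (fun l => le_trans (by
    rw [le_aleph0_iff_set_countable]
    exact (gen_countable l.finite_toSet.countable).union (hw1 l)) hl) hc
  have hclosed := clo_closed F (t \ s)
  generalize clo F (t \ s) = M at hMt hM hsub hcard hclosed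
  have hP : Pu X0 E (s ∩ M) M := by
    refine ⟨h.1.1.inter hM, hM, inter_subset_right, ?_⟩
    rintro _ ⟨s0, hs0, rfl⟩ hG
    have e : {x | x ∈ hs0.toFinset.toList} = s0 := by ext; simp
    have hl : ∀ x ∈ hs0.toFinset.toList, x ∈ M := fun x hx => hG (subset_gen _ (e ▸ hx))
    obtain ⟨h1, h2, h3⟩ := hw3 _ fun x hx => hMt (hl x hx)
    rw [e] at h2 h3
    exact ⟨_, h1, subset_inter (hw2 _) (subset_union_right.trans (hclosed _ hl)),
      fun x hx => h2 ⟨hx.1, hx.2.1⟩, h3⟩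
  refine ⟨M, hM, hsub, hMt, hcard, hP, fun n g hg hs => ?_⟩
  have htM : t ⊆ s ∪ M := fun x hx => by
    by_cases hxs : x ∈ s
    · exact Or.inl hxs
    · exact Or.inr (hsub ⟨hx, hxs⟩)
  have hgM : Agree M (glue s triv g) g := glue_right hs.symm
  have hph : Ph X0 t (glue s triv g) := by
    refine ⟨((pm_triv s).glue h.1.1 hM hg.1 hs.symm).mono htM, fun G hG hGt => ?_⟩
    obtain ⟨H, hH, hH'⟩ := hP.rel hX hg hs (hG.inter hM) inter_subset_right
    refine ⟨_, (((edge_triv s).congr (glue_left s triv g).symm (Agree.refl _ _)).glue h.1.1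
      (hG.cl.inter hM) (hH.congr (hgM.symm.mono inter_subset_right) (Agree.refl _ _))
      (hH'.symm.mono fun x hx => ⟨hx.2, hx.1, hx.2.2⟩)).mono fun x hx => ?_⟩
    rcases htM (hGt hx) with h1 | h1
    · exact Or.inl h1
    · exact Or.inr ⟨hx, h1⟩
  obtain ⟨H, hH, hH'⟩ := h.2 n _ hph (glue_left _ _ _)
  exact ⟨H, (hH.mono hMt).congr hgM (Agree.refl _ _), hH'.mono inter_subset_left⟩

theorem ext_null (hX : Cl X0) {K : PKan} {L V : Set (Om Y)} (hL : Cl L) (hV : Cl V) (hLV : L ⊆ V)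
    {g : Cell Y K 0} {H : Cell Y K 1} (hg : PM X0 V g) (hH : Edge X0 L H g triv)
    (hnull : ∀ (G : Cell Y K 1) (g' : Cell Y K 0), Edge X0 V G g g' → PM X0 V g' →
      Agree L g' triv → Null X0 V L g') :
    ∃ c, Edge X0 V c g triv ∧ Agree L c H := by
  obtain ⟨G, g', hG, ha, hg', hg0⟩ := hep0 hX hL hV hLV hg hH
  obtain ⟨H2, hH2, hH2'⟩ := hnull G g' hG hg' hg0
  have hT := tri_s1 hH
  obtain ⟨_, c, -, hc, hc'⟩ := tri1 hX hL hV hLV hG hH2
    (show Tri X0 L _ G H2 H from ⟨hT.1, hT.2.1.trans ha.symm, hT.2.2.1.trans hH2'.symm, hT.2.2.2⟩)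
  exact ⟨c, hc, hc'⟩

theorem union_lower {Ω J T : Type} [Nonempty T] (B : Set Ω) (A : J → Set Ω) (D : T → Set J) :
    (⋃ p, (B ∪ ⋃ i ∈ D p, A i)) = B ∪ ⋃ i ∈ ⋃ p, D p, A i := by
  ext x
  simp only [mem_iUnion, mem_union, exists_prop]
  constructor
  · rintro ⟨p, h | ⟨i, hi, h⟩⟩
    · exact Or.inl h
    · exact Or.inr ⟨i, ⟨p, hi⟩, h⟩
  · rintro (h | ⟨i, ⟨p, hi⟩, h⟩)
    · exact ⟨Classical.arbitrary T, Or.inl h⟩
    · exact ⟨p, Or.inr ⟨i, hi, h⟩⟩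

theorem rr_eklof (hX : Cl X0) {J : Type} [LinearOrder J] [WellFoundedLT J] (B : Set (Om Y))
    (A : J → Set (Om Y)) (hB : Cl B)
    (h : ∀ j, Rr X0 E (B ∪ ⋃ i ∈ Iio j, A i) ((B ∪ ⋃ i ∈ Iio j, A i) ∪ A j)) :
    Rr X0 E B (B ∪ ⋃ j, A j) := by
  let V : J → Set (Om Y) := fun j => (B ∪ ⋃ i ∈ Iio j, A i) ∪ A j
  have hV : ∀ j, Cl (V j) := fun j => (h j).1.2.1
  have hVU : ∀ i j, i < j → V i ⊆ B ∪ ⋃ i ∈ Iio j, A i := fun i j hij =>
    union_subset (union_subset_union_right _ (biUnion_subset_biUnion_left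
      (Iio_subset_Iio hij.le))) ((sub_Iio A hij).trans subset_union_right)
  have hVm : ∀ i j, i ≤ j → V i ⊆ V j := by
    intro i j hij
    rcases hij.lt_or_eq with h1 | rfl
    · exact (hVU i j h1).trans subset_union_left
    · exact subset_rfl
  have hright : ∀ D : Set J, Cl (B ∪ ⋃ i ∈ D, A i) → (∀ i ∈ D, Pu X0 E B (V i)) →
      Pu X0 E B (B ∪ ⋃ i ∈ D, A i) := by
    intro D hcl hD
    rcases D.eq_empty_or_nonempty with rfl | ⟨j0, hj0⟩
    · simpa using pu_refl hB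
    have : Nonempty D := ⟨⟨j0, hj0⟩⟩
    refine ⟨hB, hcl, subset_union_left, fun F hF hF' => ?_⟩
    obtain ⟨i, hi⟩ := hF.sub_dir (A := fun i : D => V i) (fun i => hV i) (by
      intro i j
      rcases le_total i.1 j.1 with h1 | h1
      · exact ⟨j, hVm _ _ h1, subset_rfl⟩
      · exact ⟨i, subset_rfl, hVm _ _ h1⟩) (hF'.trans (by
      rintro x (hx | hx)
      · exact mem_iUnion.2 ⟨⟨j0, hj0⟩, Or.inl (Or.inl hx)⟩
      · obtain ⟨i, hi, hx⟩ := mem_iUnion₂.1 hx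
        exact mem_iUnion.2 ⟨⟨i, hi⟩, Or.inr hx⟩))
    exact (hD i i.2).2.2.2 F hF hi
  have hP : ∀ j, Pu X0 E B (V j) := by
    intro j
    induction j using WellFoundedLT.induction with
    | ind j ih => exact (hright (Iio j) (h j).1.1 ih).trans (h j).1
  have hVtop : ∀ j, V j ⊆ B ∪ ⋃ j, A j := fun j =>
    union_subset (union_subset_union_right _ (iUnion₂_subset fun i _ => subset_iUnion A i))
      ((subset_iUnion A j).trans subset_union_right)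
  have htop : Cl (B ∪ ⋃ j, A j) := by
    rintro x (hx | hx) m φ
    · exact Or.inl (hB x hx m φ)
    · obtain ⟨j, hj⟩ := mem_iUnion.1 hx
      exact hVtop j (hV j x (Or.inr hj) m φ)
  refine ⟨by simpa using hright univ (by simpa using htop) fun i _ => hP i, fun n g hg hs => ?_⟩
  obtain ⟨L, H, ⟨⟨D, hD, hLD⟩, hL, hH, hH'⟩, -, -, hmax⟩ := zorn_pf
    (fun L (H : Cell Y (E n) 1) => (∃ D : Set J, IsLowerSet D ∧ L = B ∪ ⋃ i ∈ D, A i) ∧ Cl L ∧
      Edge X0 L H g triv ∧ Agree B H triv) B triv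
    ⟨⟨∅, isLowerSet_empty, by simp⟩, hB, (edge_triv B).congr hs.symm (Agree.refl _ _),
      Agree.refl _ _⟩ (by
      intro T _ L G hG hd f hf1 hf2
      choose D hD using fun p => (hG p).1
      refine ⟨⟨⋃ p, D p, isLowerSet_iUnion fun p => (hD p).1, ?_⟩,
        Cl.iUnion fun p => (hG p).2.1,
        edge_iUnion (fun p => (hG p).2.1) (fun p => (hG p).2.2.1) hf1 hf2, fun x hx => ?_⟩
      · rw [← union_lower]
        exact iUnion_congr fun p => (hD p).2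
      · obtain ⟨p, hp⟩ := hf2 x
        exact hp.trans ((hG p).2.2.2 x hx))
  refine ⟨H, hH.mono (union_subset (hLD ▸ subset_union_left) (iUnion_subset fun j => ?_)), hH'⟩
  induction j using WellFoundedLT.induction with
  | ind j ih =>
    by_contra hj
    have hLU : L = B ∪ ⋃ i ∈ Iio j, A i := by
      apply Subset.antisymm
      · rw [hLD]
        refine union_subset_union_right _ (biUnion_subset_biUnion_left fun i hi => ?_)
        by_contra hij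
        refine hj ?_
        rw [hLD]
        exact (subset_biUnion_of_mem (u := A) (hD (not_lt.1 hij) hi)).trans subset_union_right
      · exact union_subset (hLD ▸ subset_union_left) (iUnion₂_subset ih)
    have hLV : L ⊆ V j := hLU ▸ subset_union_left
    obtain ⟨c, hc, hc'⟩ := ext_null hX hL (hV j) hLV (hg.1.mono (hVtop j)) hH (by
      intro G g' hG hg' hg0
      have := (h j).2 n g' ((hg.mono (hVtop j)).of_edge' hX hG hg') (hLU ▸ hg0)
      rw [hLU]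
      exact this)
    refine hj (subset_union_right.trans (hmax (V j) c ⟨⟨Iic j, isLowerSet_Iic j, ?_⟩, hV j, hc,
      (hc'.mono (hLD ▸ subset_union_left)).trans hH'⟩ hLV hc'))
    rw [← Iio_insert, biUnion_insert, union_comm (A j), ← union_assoc]

theorem isClub_Ici' {O : Type} [LinearOrder O] (γ : O) : IsClub (Ici γ) :=
  ⟨(isUpperSet_Ici γ).dirSupClosed, fun a => ⟨max a γ, le_max_right _ _, le_max_left _ _⟩⟩

theorem rr_dia (hX : Cl X0) [Countable ι] {lam κ : Cardinal.{0}} (hκ : κ.IsRegular)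
    (h0 : ℵ₀ ≤ lam) (hl : lam < κ)
    (hV : ∀ n m, #((Δ[1] : SSet.{0}).obj m → (E n).X.obj m) ≤ lam)
    (hD : ∀ S : Set κ.ord.ToType, IsStationary S → Diamond κ S)
    (s : Set (Om Y)) (N : κ.ord.ToType → Set (Om Y)) (hR : Rr X0 E s (s ∪ ⋃ j, N j))
    (hP : ∀ j, Pu X0 E (s ∪ ⋃ i ∈ Iio j, N i) (s ∪ ⋃ j, N j))
    (hN : ∀ i, #(N i \ s : Set (Om Y)) < κ) :
    ∃ C : Set κ.ord.ToType, IsClub C ∧ ∀ j ∈ C, ∀ k, j ≤ k →
      Rr X0 E (s ∪ ⋃ i ∈ Iio j, N i) (s ∪ ⋃ i ∈ Iio k, N i) := by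
  classical
  have hω : ℵ₀ < κ := h0.trans_lt hl
  let U : κ.ord.ToType → Set (Om Y) := fun j => s ∪ ⋃ i ∈ Iio j, N i
  have hUm : ∀ j k, j ≤ k → U j ⊆ U k := fun j k hjk =>
    union_subset_union_right _ (biUnion_subset_biUnion_left (Iio_subset_Iio hjk))
  have hPU : ∀ j k, j ≤ k → Pu X0 E (U j) (U k) := fun j k hjk =>
    (hP j).mono (hUm j k hjk) (hP k).2.2.1 (hP k).1
  let S : ι → Set κ.ord.ToType := fun n => {α | ∃ β, α < β ∧ ∃ z : Cell Y (E n) 0,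
    Ph X0 (U β) z ∧ Agree (U α) z triv ∧ ¬ Null X0 (U β) (U α) z}
  by_cases hS : IsStationary (⋃ n, S n)
  swap
  · obtain ⟨C, hC, hd⟩ := not_isStationary_iff.1 hS
    refine ⟨C, hC, fun j hj k hjk => ?_⟩
    rcases hjk.lt_or_eq with hlt | rfl
    · refine ⟨hPU j k hjk, fun n g hg hs => ?_⟩
      by_contra hn
      exact disjoint_left.1 hd (mem_iUnion.2 ⟨n, k, hlt, g, hg, hs, hn⟩) hj
    · exact rr_refl (hP j).1
  exfalso
  obtain ⟨n, hSn⟩ := (isStationary_iUnion_iff_of_countable (cof_ne hκ hω)).1 hS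
  have hβ : ∀ α, ∃ β, ∃ z : Cell Y (E n) 0, α ∈ S n → α < β ∧
      Ph X0 (U β) z ∧ Agree (U α) z triv ∧ ¬ Null X0 (U β) (U α) z := by
    intro α
    by_cases hα : α ∈ S n
    · obtain ⟨β, h1, z, h2⟩ := hα
      exact ⟨β, z, fun _ => ⟨h1, h2⟩⟩
    · exact ⟨α, triv, fun h => absurd h hα⟩
  choose β z hβ using hβ
  have hC := isClub_closure hκ hω β
  obtain ⟨h, hh⟩ := guess_fun hκ hω (hD _ hSn)
    (fun x : Om Y => (Δ[1] : SSet.{0}).obj x.1 → (E n).X.obj x.1) hl (fun x => hV n x.1) triv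
    (fun i => N i \ s) hN
  let Bl : κ.ord.ToType → Cell Y (E n) 0 → Prop := fun α g =>
    ¬ ∃ H, Edge X0 (U (β α)) H g triv ∧ Agree (U α) H (glue s triv (h α))
  have hBl : ∀ α g g', Bl α g → Agree (U (β α)) g' g → Bl α g' := by
    rintro α g g' h1 h2 ⟨H, h3, h4⟩
    exact h1 ⟨H, h3.congr h2 (Agree.refl _ _), h4⟩
  obtain ⟨L, g, ⟨hL, hg, hgs, D, hD1, hLD, hD2⟩, -, -, hmax⟩ := zorn_pf
    (fun L (g : Cell Y (E n) 0) => Pu X0 E L (s ∪ ⋃ j, N j) ∧ Ph X0 L g ∧ Agree s g triv ∧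
      ∃ D : Set κ.ord.ToType, IsLowerSet D ∧ L = s ∪ ⋃ i ∈ D, N i ∧
        ∀ α ∈ D, α ∈ S n → (∀ i < α, β i < α) → Iio (β α) ⊆ D ∧ Bl α g) s triv
    ⟨hR.1, ph_triv s, Agree.refl _ _, ∅, isLowerSet_empty, by simp, by simp⟩ (by
      intro T _ L G hG hd f hf1 hf2
      choose D hD using fun p => (hG p).2.2.2
      refine ⟨pu_dir L (fun p => (hG p).1) hd,
        ph_iUnion (fun p => (hG p).1.1) hd (fun p => (hG p).2.1) hf1 hf2, fun x hx => ?_,
        ⋃ p, D p, isLowerSet_iUnion fun p => (hD p).1, ?_, fun α hα h1 h2 => ?_⟩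
      · obtain ⟨p, hp⟩ := hf2 x
        exact hp.trans ((hG p).2.2.1 x hx)
      · rw [← union_lower]
        exact iUnion_congr fun p => (hD p).2.1
      · obtain ⟨p, hp⟩ := mem_iUnion.1 hα
        obtain ⟨h3, h4⟩ := (hD p).2.2 α hp h1 h2
        refine ⟨h3.trans (subset_iUnion D p), hBl _ _ _ h4 fun x hx => hf1 p x ?_⟩
        rw [(hD p).2.1]
        exact union_subset_union_right _ (biUnion_subset_biUnion_left h3) hx)
  by_cases hDu : D = Set.univ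
  · subst hDu
    obtain ⟨H, hH, hH'⟩ := hR.2 n g (hg.mono (by rw [hLD]; simp)) hgs
    obtain ⟨α, ⟨hα1, hα2⟩, hα3⟩ := hh H hC
    refine (hD2 α trivial hα1 hα3).2 ⟨H, hH.mono (hP _).2.2.1, fun x hx => ?_⟩
    by_cases hxs : x ∈ s
    · exact (hH' x hxs).trans (glue_left s triv (h α) x hxs).symm
    · obtain ⟨i, hi, hxi⟩ := mem_iUnion₂.1 (hx.resolve_left hxs)
      exact (hα2 x (mem_iUnion₂.2 ⟨i, hi, hxi, hxs⟩)).symm.trans (if_neg hxs).symm
  have hne : Dᶜ.Nonempty := nonempty_compl.2 hDu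
  have hγ1 := WellFounded.min_mem wellFounded_lt _ hne
  have hγ2 : ∀ x ∈ Dᶜ, ¬ x < WellFounded.min wellFounded_lt _ hne := fun x hx =>
    WellFounded.not_lt_min wellFounded_lt _ hx
  generalize WellFounded.min wellFounded_lt _ hne = γ at hγ1 hγ2
  have hDγ : D = Iio γ := by
    ext x
    exact ⟨fun hx => not_le.1 fun h1 => hγ1 (hD1 h1 hx), fun hx => by
      by_contra h1
      exact hγ2 x h1 hx⟩
  subst hDγ
  have hne' : (S n ∩ ({j | ∀ i < j, β i < j} ∩ Ici γ)).Nonempty :=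
    hSn (hC.inter (cof_ne hκ hω) (isClub_Ici' γ))
  have hδ1 := WellFounded.min_mem wellFounded_lt _ hne'
  have hδ2 : ∀ x ∈ S n ∩ ({j | ∀ i < j, β i < j} ∩ Ici γ),
      ¬ x < WellFounded.min wellFounded_lt _ hne' := fun x hx =>
    WellFounded.not_lt_min wellFounded_lt _ hx
  generalize WellFounded.min wellFounded_lt _ hne' = δ at hδ1 hδ2
  obtain ⟨hδS, -, hγδ⟩ := hδ1
  obtain ⟨b1, b2, b3, b4⟩ := hβ δ hδS
  obtain ⟨g1, hg1, ha1⟩ := (hPU γ δ hγδ).ext hX (g := g) (hg.mono hLD.symm.subset)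
  have hstep : ∃ f, Ph X0 (U (β δ)) f ∧ Agree (U δ) f g1 ∧ Bl δ f := by
    by_cases hc : ∃ H0, Edge X0 (U δ) H0 g1 triv ∧ Agree (U δ) H0 (glue s triv (h δ))
    · obtain ⟨H0, h1, h2⟩ := hc
      obtain ⟨G, f, hG, hGH, hf, hfg⟩ := hep1 hX (hP δ).1 (hP (β δ)).1 (hUm _ _ b1.le) b2.1
        (h1.congr (Agree.refl _ _) b3.symm)
      refine ⟨f, b2.of_edge hX hG hf, hfg, ?_⟩
      rintro ⟨H, h3, h4⟩
      have hT := tri_s1 h1
      obtain ⟨_, b', -, hb, hb'⟩ := tri0 hX (hP δ).1 (hP (β δ)).1 (hUm _ _ b1.le) hG h3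
        (show Tri X0 (U δ) _ G triv H from
          ⟨hT.1, hT.2.1.trans hGH.symm, hT.2.2.1, hT.2.2.2.trans (h2.trans h4.symm)⟩)
      exact b4 ⟨b', hb, hb'⟩
    · obtain ⟨f, hf, hfg⟩ := (hPU δ _ b1.le).ext hX hg1
      refine ⟨f, hf, hfg, ?_⟩
      rintro ⟨H, h3, h4⟩
      exact hc ⟨H, (h3.mono (hUm _ _ b1.le)).congr hfg (Agree.refl _ _), h4⟩
  obtain ⟨f, hf, hfg, hfB⟩ := hstep
  have hfL : Agree L f g := by
    rw [hLD]
    exact (hfg.mono (hUm _ _ hγδ)).trans ha1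
  have hsub := hmax (U (β δ)) f ⟨hP _, hf, (hfL.mono (hLD ▸ subset_union_left)).trans hgs,
    Iio (β δ), isLowerSet_Iio _, rfl, fun α hα h1 h2 => ?_⟩
    (hLD ▸ hUm _ _ (hγδ.trans b1.le)) hfL
  · refine b4 ⟨triv, (edge_triv _).congr (b3.symm.mono ?_) (Agree.refl _ _), Agree.refl _ _⟩
    exact hsub.trans (hLD ▸ hUm _ _ hγδ)
  · rcases lt_or_ge α γ with h3 | h3
    · obtain ⟨h4, h5⟩ := hD2 α h3 h1 h2
      refine ⟨h4.trans (Iio_subset_Iio (hγδ.trans b1.le)), hBl _ _ _ h5 (hfL.mono ?_)⟩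
      rw [hLD]
      exact union_subset_union_right _ (biUnion_subset_biUnion_left h4)
    · rcases (not_lt.1 (hδ2 α ⟨h1, h2, h3⟩)).lt_or_eq with h4 | rfl
      · exact absurd hα (not_lt.2 (h2 δ h4).le)
      · exact ⟨subset_rfl, hfB⟩

theorem ax_rr (hX : Cl X0) [Countable ι] {lam : Cardinal.{0}} (h0 : ℵ₀ ≤ lam)
    (hV : ∀ n m, #((Δ[1] : SSet.{0}).obj m → (E n).X.obj m) ≤ lam)
    (hD : ∀ κ : Cardinal.{0}, κ.IsRegular → lam < κ →
      ∀ S : Set κ.ord.ToType, IsStationary S → Diamond κ S) :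
    Ax (Cl (Y := Y)) (Pu X0 E) (Rr X0 E) lam where
  lam_inf := h0
  cl_iUnion _ h := Cl.iUnion h
  cl_union := Cl.union
  cl_inter := Cl.inter
  gen y := ⟨gen {y}, cl_gen _, subset_gen _ rfl, le_trans (by
    rw [le_aleph0_iff_set_countable]
    exact gen_countable (countable_singleton y)) h0,
    fun _ hs hy => gen_subset hs (by simpa using hy)⟩
  P_cl h := ⟨h.1, h.2.1, h.2.2.1⟩
  R_P h := h.1
  R_refl := rr_refl
  P_mono := Pu.mono
  P_dir A _ h hd := pu_dir A h hd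
  hull Z h hZ := h.hull hX Z hZ
  her := Rr.her hX
  exc := Rr.exc
  loc := Rr.loc hX h0
  eklof B A hB h := rr_eklof hX B A hB h
  dia κ hκ hl s N := rr_dia hX hκ h0 hl hV (hD κ hκ hl) s N

end Pool.Agent.MP_e99f36_lc.H71
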