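import Mathlib

/-! Definitions: pointed Kan complexes, their homotopy category, loop spaces, Omega-spectra,
cohomological equivalences, local objects, the statement (CL), and the diamond principle. -/

open CategoryTheory MonoidalCategory Simplicial Opposite

namespace Pool.Agent.MP_e99f36_lc.H71

/-- A pointed Kan complex. -/
structure PKan : Type 1 where
  X : SSet.{0}
  pt : X _⦋0⦌
  kan : SSet.KanComplex X

/-- A simplicial map preserving base points. -/
abbrev IsPt (A B : PKan) (f : A.X ⟶ B.X) : Prop := f.app (op ⦋0⦌) A.pt = B.pt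

theorem isPt_id (A : PKan) : IsPt A A (𝟙 _) := rfl

theorem isPt_comp {A B C : PKan} {f : A.X ⟶ B.X} {g : B.X ⟶ C.X} (hf : IsPt A B f)
    (hg : IsPt B C g) : IsPt A C (f ≫ g) := (congrArg (g.app (op ⦋0⦌)) hf).trans hg

/-- Pointed simplicial maps. -/
abbrev PHom (A B : PKan) : Type := {f : A.X ⟶ B.X // IsPt A B f}

/-- The identity map. -/
def PHom.id (A : PKan) : PHom A A := ⟨𝟙 _, isPt_id A⟩

/-- Composition of pointed maps. -/
def PHom.comp {A B C : PKan} (f : PHom A B) (g : PHom B C) : PHom A C :=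
  ⟨f.1 ≫ g.1, isPt_comp f.2 g.2⟩

theorem PHom.id_comp {A B : PKan} (f : PHom A B) : (PHom.id A).comp f = f :=
  Subtype.ext (Category.id_comp _)

theorem PHom.comp_id {A B : PKan} (f : PHom A B) : f.comp (PHom.id B) = f :=
  Subtype.ext (Category.comp_id _)

theorem PHom.assoc {A B C D : PKan} (f : PHom A B) (g : PHom B C) (h : PHom C D) :
    (f.comp g).comp h = f.comp (g.comp h) := Subtype.ext (Category.assoc _ _ _)

/-- The category of pointed Kan complexes and pointed simplicial maps. -/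
instance : Category PKan where
  Hom := PHom
  id := PHom.id
  comp := PHom.comp
  id_comp := PHom.id_comp
  comp_id := PHom.comp_id
  assoc := PHom.assoc

/-- Pointed simplicial homotopy: a map `A × Δ[1] → B` from `f` to `g`, constant on the base
point. -/
def Homotopic {A B : PKan} (f g : A ⟶ B) : Prop :=
  ∃ h : A.X ⊗ Δ[1] ⟶ B.X, SSet.ι₀ ≫ h = f.1 ∧ SSet.ι₁ ≫ h = g.1 ∧
    (SSet.const A.pt : Δ[0] ⟶ A.X) ▷ Δ[1] ≫ h = SSet.const B.pt

/-- The homotopy relation on the category of pointed Kan complexes. -/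
def homRel : HomRel PKan := fun _ _ f g => Homotopic f g

/-- The homotopy category: pointed Kan complexes and pointed homotopy classes of maps. -/
abbrev Ho : Type 1 := CategoryTheory.Quotient homRel

/-- The projection to the homotopy category. -/
abbrev toHo : PKan ⥤ Ho := CategoryTheory.Quotient.functor homRel

/-- A map `Z × Δ[1] → K` sending both ends to the base point. -/
abbrev IsLp {Z K : SSet.{0}} (pt : K _⦋0⦌) (h : Z ⊗ Δ[1] ⟶ K) : Prop :=
  SSet.ι₀ ≫ h = SSet.const pt ∧ SSet.ι₁ ≫ h = SSet.const pt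

theorem IsLp.comp {Z Z' K : SSet.{0}} {pt : K _⦋0⦌} {h : Z ⊗ Δ[1] ⟶ K} (hh : IsLp pt h)
    (g : Z' ⟶ Z) : IsLp pt (g ▷ Δ[1] ≫ h) :=
  ⟨by rw [SSet.ι₀_comp_assoc, hh.1]; rfl, by rw [SSet.ι₁_comp_assoc, hh.2]; rfl⟩

theorem isLp_const {Z K : SSet.{0}} (pt : K _⦋0⦌) :
    IsLp pt (SSet.const pt : Z ⊗ Δ[1] ⟶ K) := ⟨rfl, rfl⟩

/-- The `m`-simplices of the loop space: maps `Δ[m] × Δ[1] → K` sending both ends to the base
point. -/
abbrev Lp (K : SSet.{0}) (pt : K _⦋0⦌) (m : SimplexCategoryᵒᵖ) : Type :=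
  {h : SSet.stdSimplex.obj m.unop ⊗ Δ[1] ⟶ K // IsLp pt h}

/-- The simplicial operators of the loop space. -/
noncomputable def Lp.map {K : SSet.{0}} {pt : K _⦋0⦌} {m m' : SimplexCategoryᵒᵖ} (φ : m ⟶ m') :
    Lp K pt m ⟶ Lp K pt m' :=
  ↾fun h => ⟨SSet.stdSimplex.map φ.unop ▷ Δ[1] ≫ h.1, h.2.comp _⟩

theorem Lp.map_id {K : SSet.{0}} {pt : K _⦋0⦌} (m : SimplexCategoryᵒᵖ) :
    Lp.map (𝟙 m) = 𝟙 (Lp K pt m) := by
  ext h : 3
  apply Subtype.ext
  change SSet.stdSimplex.map (𝟙 (unop m)) ▷ Δ[1] ≫ h.1 = h.1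
  rw [CategoryTheory.Functor.map_id SSet.stdSimplex, id_whiskerRight, Category.id_comp]

theorem Lp.map_comp {K : SSet.{0}} {pt : K _⦋0⦌} {m m' m'' : SimplexCategoryᵒᵖ} (φ : m ⟶ m')
    (ψ : m' ⟶ m'') : Lp.map (pt := pt) (φ ≫ ψ) = Lp.map φ ≫ Lp.map ψ := by
  ext h : 3
  apply Subtype.ext
  change SSet.stdSimplex.map (ψ.unop ≫ φ.unop) ▷ Δ[1] ≫ h.1 =
    SSet.stdSimplex.map ψ.unop ▷ Δ[1] ≫ SSet.stdSimplex.map φ.unop ▷ Δ[1] ≫ h.1
  rw [SSet.stdSimplex.map_comp, comp_whiskerRight, Category.assoc]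

/-- The simplicial loop space. -/
noncomputable def loopSSet (K : SSet.{0}) (pt : K _⦋0⦌) : SSet.{0} where
  obj := Lp K pt
  map := Lp.map
  map_id := Lp.map_id
  map_comp := Lp.map_comp

section Aux

variable {K : SSet.{0}} {pt : K _⦋0⦌} {Z : SSet.{0}}

theorem sext {A B : SSet.{0}} {f g : A ⟶ B} (h : ∀ m x, f.app m x = g.app m x) : f = g := by
  ext m x
  exact h m x

theorem sapp {A B : SSet.{0}} {f g : A ⟶ B} (h : f = g) (m) (x : A.obj m) :
    f.app m x = g.app m x := by rw [h]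

/-- A simplex of a product. -/
abbrev pr {A B : SSet.{0}} {m : SimplexCategoryᵒᵖ} (a : A.obj m) (b : B.obj m) :
    (A ⊗ B).obj m := (a, b)

/-- The identity simplex. -/
def idS (m : SimplexCategoryᵒᵖ) : (SSet.stdSimplex.{0}.obj m.unop).obj m :=
  SSet.stdSimplex.objEquiv.symm (𝟙 _)

theorem idS_nat {m m' : SimplexCategoryᵒᵖ} (φ : m ⟶ m') :
    (SSet.stdSimplex.map φ.unop).app m' (idS m') =
      (SSet.stdSimplex.obj m.unop).map φ (idS m) := by
  apply SSet.stdSimplex.objEquiv.injective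
  change 𝟙 _ ≫ φ.unop = φ.unop ≫ 𝟙 _
  simp

/-- The map `Z × Δ[1] → K` adjoint to a map `Z → ΩK`. -/
noncomputable def unc (f : Z ⟶ loopSSet K pt) : Z ⊗ Δ[1] ⟶ K where
  app m := ↾fun z => (f.app m z.1).1.app m (pr (idS m) z.2)
  naturality m m' φ := by
    ext z
    have h1 := NatTrans.naturality_apply f φ z.1
    have h2 := NatTrans.naturality_apply (f.app m z.1).1 φ (pr (A := SSet.stdSimplex.obj m.unop)
      (B := Δ[1]) (idS m) z.2)
    change (f.app m' (Z.map φ z.1)).1.app m' (pr (idS m') (Δ[1].map φ z.2)) = _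
    rw [h1]
    change (f.app m z.1).1.app m' (pr ((SSet.stdSimplex.map φ.unop).app m' (idS m'))
      (Δ[1].map φ z.2)) = _
    rw [idS_nat]
    exact h2

/-- The map `Z → ΩK` adjoint to a map `Z × Δ[1] → K` that is trivial on both ends. -/
noncomputable def cur (h : Z ⊗ Δ[1] ⟶ K) (h0 : SSet.ι₀ ≫ h = SSet.const pt)
    (h1 : SSet.ι₁ ≫ h = SSet.const pt) : Z ⟶ loopSSet K pt where
  app m := ↾fun z => ⟨SSet.yonedaEquiv.symm z ▷ Δ[1] ≫ h, by
    rw [SSet.ι₀_comp_assoc, h0]; rfl, by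
    rw [SSet.ι₁_comp_assoc, h1]; rfl⟩
  naturality m m' φ := by
    ext z : 3
    apply Subtype.ext
    change SSet.yonedaEquiv.symm (Z.map φ z) ▷ Δ[1] ≫ h =
      SSet.stdSimplex.map φ.unop ▷ Δ[1] ≫ SSet.yonedaEquiv.symm z ▷ Δ[1] ≫ h
    rw [← comp_whiskerRight_assoc, SSet.yonedaEquiv_symm_naturality_left]
    rfl

theorem unc_comp {Z' : SSet.{0}} (g : Z' ⟶ Z) (f : Z ⟶ loopSSet K pt) :
    unc (g ≫ f) = g ▷ Δ[1] ≫ unc f := rfl

theorem yon_idS {m : SimplexCategoryᵒᵖ} (z : Z.obj m) :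
    (SSet.yonedaEquiv.symm z).app m (idS m) = z :=
  (SSet.yonedaEquiv_symm_app_objEquiv_symm z (𝟙 _)).trans (by simp)

theorem unc_cur (h : Z ⊗ Δ[1] ⟶ K) (h0 : SSet.ι₀ ≫ h = SSet.const pt)
    (h1 : SSet.ι₁ ≫ h = SSet.const pt) : unc (cur h h0 h1) = h := by
  refine sext fun m z => ?_
  change h.app m (pr ((SSet.yonedaEquiv.symm z.1).app m (idS m)) z.2) = h.app m z
  rw [yon_idS]
  rfl

theorem unc_inj {f g : Z ⟶ loopSSet K pt} (h : unc f = unc g) : f = g := by
  have key : ∀ (f : Z ⟶ loopSSet K pt) (m : SimplexCategoryᵒᵖ) (z : Z.obj m)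
      (m' : SimplexCategoryᵒᵖ) (a : (SSet.stdSimplex.obj m.unop).obj m') (t : Δ[1].obj m'),
      (f.app m z).1.app m' (pr a t) =
        (unc f).app m' (pr (Z.map (SSet.stdSimplex.objEquiv a).op z) t) := by
    intro f m z m' a t
    have h1 := NatTrans.naturality_apply f (SSet.stdSimplex.objEquiv a).op z
    change _ = (f.app m' (Z.map (SSet.stdSimplex.objEquiv a).op z)).1.app m' (pr (idS m') t)
    erw [h1]
    change _ = (f.app m z).1.app m' (pr ((SSet.stdSimplex.map (SSet.stdSimplex.objEquiv a)).app m'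
      (idS m')) t)
    have : (SSet.stdSimplex.map (SSet.stdSimplex.objEquiv a)).app m' (idS m') = a := by
      apply SSet.stdSimplex.objEquiv.injective
      exact Category.id_comp (SSet.stdSimplex.objEquiv a)
    rw [this]
  refine sext fun m z => Subtype.ext (sext fun m' x => ?_)
  exact (key f m z m' x.1 x.2).trans (h ▸ (key g m z m' x.1 x.2).symm)

theorem ι₀_unc (f : Z ⟶ loopSSet K pt) : SSet.ι₀ ≫ unc f = SSet.const pt :=
  sext fun m z => sapp (f.app m z).2.1 m (idS m)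

theorem ι₁_unc (f : Z ⟶ loopSSet K pt) : SSet.ι₁ ≫ unc f = SSet.const pt :=
  sext fun m z => sapp (f.app m z).2.2 m (idS m)

theorem mem_bdry {m : SimplexCategoryᵒᵖ} (t : (Δ[1] : SSet.{0}).obj m) :
    t ∈ (SSet.boundary 1).obj m ↔
      t = SSet.stdSimplex.const 1 0 m ∨ t = SSet.stdSimplex.const 1 1 m := by
  obtain ⟨⟨m⟩⟩ := m
  rw [SSet.mem_boundary_iff_notMem_range]
  constructor
  · rintro ⟨j, hj⟩
    fin_cases j
    · right
      ext i
      have : t i ≠ 0 := fun h => hj ⟨i, h⟩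
      change (t i).val = 1
      have h2 := (t i).2
      have h3 : (t i).val ≠ 0 := fun h => this (Fin.ext h)
      omega
    · left
      ext i
      have : t i ≠ 1 := fun h => hj ⟨i, h⟩
      change (t i).val = 0
      have h2 := (t i).2
      have h3 : (t i).val ≠ 1 := fun h => this (Fin.ext h)
      omega
  · rintro (rfl | rfl)
    · exact ⟨1, by rintro ⟨i, hi⟩; cases hi⟩
    · exact ⟨0, by rintro ⟨i, hi⟩; cases hi⟩

theorem bdry_const {h : Z ⊗ Δ[1] ⟶ K} (h0 : SSet.ι₀ ≫ h = SSet.const pt)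
    (h1 : SSet.ι₁ ≫ h = SSet.const pt) : Z ◁ (SSet.boundary 1).ι ≫ h = SSet.const pt := by
  refine sext fun m x => ?_
  obtain ⟨z, t, ht⟩ := x
  rcases (mem_bdry t).1 ht with rfl | rfl
  · exact sapp h0 m z
  · exact sapp h1 m z

theorem ends_of_bdry {h : Z ⊗ Δ[1] ⟶ K}
    (hb : Z ◁ (SSet.boundary 1).ι ≫ h = SSet.const pt) :
    SSet.ι₀ ≫ h = SSet.const pt ∧ SSet.ι₁ ≫ h = SSet.const pt :=
  ⟨sext fun m z => sapp hb m (pr z ⟨_, (mem_bdry _).2 (Or.inl rfl)⟩),
    sext fun m z => sapp hb m (pr z ⟨_, (mem_bdry _).2 (Or.inr rfl)⟩)⟩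

open SSet.modelCategoryQuillen in
theorem kan_ext [SSet.KanComplex K] {A B : SSet.{0}} {i : A ⟶ B}
    (hi : SSet.anodyneExtensions i) (f : A ⟶ K) : ∃ g : B ⟶ K, i ≫ g = f := by
  have : HasLiftingProperty i (Limits.terminal.from K) :=
    hi _ ((HomotopicalAlgebra.fibration_iff _).1 inferInstance)
  have sq : CommSq f i (Limits.terminal.from K) (Limits.terminal.from B) := ⟨by simp⟩
  exact ⟨sq.lift, sq.fac_left⟩

theorem loop_kan [SSet.KanComplex K] : SSet.KanComplex (loopSSet K pt) := by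
  rw [SSet.KanComplex.iff]
  intro n i f hf
  have hpo := SSet.Subcomplex.unionProd.isPushout (SSet.horn (n + 1) i) (SSet.boundary 1)
  have hw : (SSet.horn (n + 1) i).ι ▷ (SSet.boundary 1 : SSet) ≫ SSet.const pt =
      (SSet.horn (n + 1) i : SSet) ◁ (SSet.boundary 1).ι ≫ unc hf.desc :=
    (bdry_const (ι₀_unc _) (ι₁_unc _)).symm
  obtain ⟨g, hg⟩ := kan_ext (SSet.anodyneExtensions_unionProd_ι' _ (SSet.boundary 1)
    (SSet.anodyneExtensions.horn_ι i)) (hpo.desc _ _ hw)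
  have h1 : Δ[n + 1] ◁ (SSet.boundary 1).ι ≫ g = SSet.const pt := by
    rw [← SSet.Subcomplex.unionProd.ι₁_ι (SSet.horn (n + 1) i), Category.assoc, hg,
      hpo.inl_desc]
  have h2 : (SSet.horn (n + 1) i).ι ▷ Δ[1] ≫ g = unc hf.desc := by
    rw [← SSet.Subcomplex.unionProd.ι₂_ι _ (SSet.boundary 1), Category.assoc, hg,
      hpo.inr_desc]
  refine ⟨cur g (ends_of_bdry h1).1 (ends_of_bdry h1).2, fun j hj => unc_inj ?_⟩
  rw [unc_comp, unc_cur, ← hf.ι_desc j hj, unc_comp, ← h2, ← comp_whiskerRight_assoc,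
    SSet.horn.ι_ι]

end Aux

/-- The loop space of a pointed Kan complex, pointed by the constant loop. -/
noncomputable def PKan.loop (K : PKan) : PKan where
  X := loopSSet K.X K.pt
  pt := ⟨SSet.const K.pt, isLp_const K.pt⟩
  kan := have := K.kan; loop_kan

/-- An Omega-spectrum: pointed Kan complexes `E n` (`n : ℤ`) with pointed structure maps
`E n → Ω E (n + 1)` that are homotopy equivalences. -/
structure OmegaSpectrum : Type 1 where
  E : ℤ → PKan
  σ : ∀ n, E n ⟶ (E (n + 1)).loop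
  iso : ∀ n, IsIso (toHo.map (σ n))

/-- `g` induces an isomorphism on reduced `E`-cohomology `E^n = [-, E n]` in every degree. -/
def IsCohEquiv (E : OmegaSpectrum) {Y Y' : Ho} (g : Y ⟶ Y') : Prop :=
  ∀ n : ℤ, Function.Bijective (fun f : Y' ⟶ toHo.obj (E.E n) => g ≫ f)

/-- `W` is `E^*`-local. -/
def IsCohLocal (E : OmegaSpectrum) (W : Ho) : Prop :=
  ∀ ⦃Y Y' : Ho⦄ (g : Y ⟶ Y'), IsCohEquiv E g → Function.Bijective (fun f : Y' ⟶ W => g ≫ f)

/-- The statement (CL): every Omega-spectrum has a cohomological localization. -/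
def CL : Prop :=
  ∀ E : OmegaSpectrum, ∃ (L : Ho ⥤ Ho) (η : 𝟭 Ho ⟶ L),
    ∀ X : Ho, IsCohEquiv E (η.app X) ∧ IsCohLocal E (L.obj X)

/-- Jensen's diamond principle for a subset `S` of the initial ordinal of `κ`. -/
def Diamond (κ : Cardinal.{0}) (S : Set κ.ord.ToType) : Prop :=
  ∃ D : κ.ord.ToType → Set κ.ord.ToType,
    ∀ X : Set κ.ord.ToType, IsStationary {α | α ∈ S ∧ X ∩ Set.Iio α = D α}

end Pool.Agent.MP_e99f36_lc.H71
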