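import Pool.Agent.MP_e99f36_lc.H71.Core1

/-! Pure hulls. -/

open CategoryTheory MonoidalCategory Simplicial Opposite Set Cardinal

namespace Pool.Agent.MP_e99f36_lc.H71

variable {Y : SSet.{0}}

/-- Relations of bounded dimension between faces of a tuple of simplices. -/
abbrev RelTy (n : ℕ) (d : Fin n → SimplexCategoryᵒᵖ) : Type :=
  ∀ (j l : Fin n) (q : Fin ((d j).unop.len + (d l).unop.len + 1)),
    (d j ⟶ op ⦋q.1⦌) → (d l ⟶ op ⦋q.1⦌) → Prop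

/-- Descriptions of tuples of simplices. -/
abbrev Desc : Type := Σ (n : ℕ) (d : Fin n → SimplexCategoryᵒᵖ),
  (Fin n → Option ℕ) × (Fin n → Prop) × (Fin n → Prop) × RelTy n d

/-- The tuple `u` realizes the description `τ`. -/
def Real (X0 B A : Set (Om Y)) (l : List (Om Y)) (τ : Desc) (u : ∀ j, Y.obj (τ.2.1 j)) : Prop :=
  (∀ j, (⟨_, u j⟩ : Om Y) ∈ A) ∧ (∀ j k, τ.2.2.1 j = some k → l[k]? = some ⟨_, u j⟩) ∧
    (∀ j, τ.2.2.2.1 j → (⟨_, u j⟩ : Om Y) ∈ B) ∧ (∀ j, τ.2.2.2.2.1 j → (⟨_, u j⟩ : Om Y) ∈ X0) ∧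
    ∀ j l q φ ψ, τ.2.2.2.2.2 j l q φ ψ → Y.map φ (u j) = Y.map ψ (u l)

theorem exists_W (X0 B A Z : Set (Om Y)) (hA : Cl A) (hZ : Z ⊆ A) :
    ∃ W : Set (Om Y), Z ⊆ W ∧ W ⊆ A ∧ Cl W ∧ #W ≤ max #Z ℵ₀ ∧
      ∀ (n : ℕ) (d : Fin n → SimplexCategoryᵒᵖ) (u : ∀ j, Y.obj (d j)),
        (∀ j, (⟨_, u j⟩ : Om Y) ∈ A) → ∃ u' : ∀ j, Y.obj (d j),
          (∀ j, (⟨_, u' j⟩ : Om Y) ∈ W) ∧ (∀ j, (⟨_, u j⟩ : Om Y) ∈ W → u' j = u j) ∧
          (∀ j, (⟨_, u j⟩ : Om Y) ∈ B → (⟨_, u' j⟩ : Om Y) ∈ B) ∧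
          (∀ j, (⟨_, u j⟩ : Om Y) ∈ X0 → (⟨_, u' j⟩ : Om Y) ∈ X0) ∧
          ∀ j l m (φ : d j ⟶ m) (ψ : d l ⟶ m), Y.map φ (u j) = Y.map ψ (u l) →
            Y.map φ (u' j) = Y.map ψ (u' l) := by
  classical
  let G : List (Om Y) → Desc → Set (Om Y) := fun l τ =>
    if h : ∃ u, Real X0 B A l τ u then range (fun j => (⟨_, h.choose j⟩ : Om Y)) else ∅
  let F : List (Om Y) → Set (Om Y) := fun l => gen {x | x ∈ l} ∪ ⋃ τ, G l τ
  have hG : ∀ l τ, (G l τ).Countable ∧ G l τ ⊆ A := by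
    intro l τ
    by_cases h : ∃ u, Real X0 B A l τ u
    · simp only [G, dif_pos h]
      exact ⟨countable_range _, by rintro _ ⟨j, rfl⟩; exact h.choose_spec.1 j⟩
    · simp [G, dif_neg h]
  refine ⟨clo F Z, subset_clo F Z, clo_subset F Z A hZ fun l hl => ?_, ?_, ?_, ?_⟩
  · exact union_subset (gen_subset hA hl) (iUnion_subset fun τ => (hG l τ).2)
  · intro x hx m φ
    exact clo_closed F Z [x] (by simpa using hx) (Or.inl ⟨x, by simp, m, φ, rfl⟩)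
  · refine mk_clo_le F Z (le_max_right _ _) (fun l => ?_) (le_max_left _ _)
    refine le_trans ?_ (le_max_right _ _)
    rw [le_aleph0_iff_set_countable]
    exact (gen_countable l.finite_toSet.countable).union (countable_iUnion fun τ => (hG l τ).1)
  · intro n d u hu
    let l : List (Om Y) := (List.ofFn fun j => (⟨_, u j⟩ : Om Y)).filter (· ∈ clo F Z)
    have hl : ∀ x ∈ l, x ∈ clo F Z := fun x hx => by simpa using (List.mem_filter.1 hx).2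
    let π : Fin n → Option ℕ := fun j =>
      if h : ∃ k : ℕ, l[k]? = some (⟨_, u j⟩ : Om Y) then some h.choose else none
    let τ : Desc := ⟨n, d, π, fun j => (⟨_, u j⟩ : Om Y) ∈ B, fun j => (⟨_, u j⟩ : Om Y) ∈ X0,
      fun j l q φ ψ => Y.map φ (u j) = Y.map ψ (u l)⟩
    have hex : ∃ u, Real X0 B A l τ u := ⟨u, hu, fun j k hk => by
      by_cases h : ∃ k : ℕ, l[k]? = some (⟨_, u j⟩ : Om Y)
      · simp only [τ, π, dif_pos h, Option.some.injEq] at hk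
        rw [← hk]; exact h.choose_spec
      · simp [τ, π, dif_neg h] at hk, fun _ h => h, fun _ h => h, fun _ _ _ _ _ h => h⟩
    obtain ⟨-, h2, h3, h4, h5⟩ := hex.choose_spec
    refine ⟨hex.choose, fun j => ?_, fun j hj => ?_, h3, h4, fun j l m φ ψ h => ?_⟩
    · refine clo_closed F Z l hl (Or.inr (mem_iUnion.2 ⟨τ, ?_⟩))
      simp only [G, dif_pos hex]
      exact ⟨j, rfl⟩
    · have h : ∃ k : ℕ, l[k]? = some (⟨_, u j⟩ : Om Y) :=
        List.mem_iff_getElem?.1 (List.mem_filter.2 ⟨List.mem_ofFn.2 ⟨j, rfl⟩, by simpa using hj⟩)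
      have := (h2 j h.choose (by simp only [τ, π, dif_pos h])).symm.trans h.choose_spec
      exact sigma_mk_injective (β := fun m => Y.obj m) (Option.some.inj this)
    · obtain ⟨q', σ, ι, h1, -, e1, e2⟩ := fact2 φ.unop ψ.unop
      have e1' : (φ ≫ ι.op) ≫ σ.op = φ := Quiver.Hom.unop_inj e1
      have e2' : (ψ ≫ ι.op) ≫ σ.op = ψ := Quiver.Hom.unop_inj e2
      have := h5 j l ⟨q'.len, Nat.lt_succ_of_le h1⟩ (φ ≫ ι.op) (ψ ≫ ι.op) (by
        change Y.map (φ ≫ ι.op) (u j) = Y.map (ψ ≫ ι.op) (u l)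
        rw [Functor.map_comp_apply, Functor.map_comp_apply, h])
      rw [← e1', ← e2', Functor.map_comp_apply, Functor.map_comp_apply Y (ψ ≫ ι.op)]
      exact congrArg _ this

variable {X0 : Set (Om Y)} {ι : Type} {E : ι → PKan}

theorem Pu.hull (hX : Cl X0) {s t : Set (Om Y)} (Z : Set (Om Y)) (h : Pu X0 E s t) (hZ : Z ⊆ t) :
    ∃ N, s ∪ Z ⊆ N ∧ Pu X0 E N t ∧ #(N \ s : Set (Om Y)) ≤ max #Z ℵ₀ := by
  classical
  obtain ⟨W, hZW, hWt, hW, hWc, hreal⟩ := exists_W X0 s t Z h.2.1 hZ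
  have hN : Cl (s ∪ W) := h.1.union hW
  refine ⟨s ∪ W, union_subset_union_right _ hZW, ⟨hN, h.2.1, union_subset h.2.2.1 hWt,
    fun F hF hFt => ?_⟩, (mk_le_mk_of_subset ?_).trans hWc⟩
  swap
  · rintro x ⟨hx | hx, hxs⟩
    · exact absurd hx hxs
    · exact hx
  obtain ⟨s1, hs1, e1⟩ := id hF
  obtain ⟨s2, hs2, e2⟩ := hF.inter hN
  obtain ⟨s3, hs3, e3⟩ := hF.inter hX
  have hfin : (s1 ∪ s2 ∪ s3).Finite := (hs1.union hs2).union hs3
  obtain ⟨n, x, hx⟩ := hfin.fin_param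
  have hxr : range x = s1 ∪ s2 ∪ s3 := hx.2
  have hsF : s1 ∪ s2 ∪ s3 ⊆ F := union_subset (union_subset (e1 ▸ subset_gen s1)
    ((subset_gen s2).trans (e2 ▸ inter_subset_left))) ((subset_gen s3).trans
      (e3 ▸ inter_subset_left))
  have hxF : ∀ j, x j ∈ F := fun j => hsF (hxr ▸ mem_range_self j)
  obtain ⟨u', r1, r2, r3, r4, r5⟩ := hreal n (fun j => (x j).1) (fun j => (x j).2)
    (fun j => hFt (hxF j))
  have hrep : ∀ s' : Set (Om Y), s' ⊆ s1 ∪ s2 ∪ s3 → ∀ z ∈ gen s', ∃ j, x j ∈ s' ∧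
      ∃ (m : SimplexCategoryᵒᵖ) (φ : (x j).1 ⟶ m), z = ⟨m, Y.map φ (x j).2⟩ := by
    rintro s' hs' z ⟨w, hw, m, φ, rfl⟩
    obtain ⟨j, rfl⟩ := (hxr.symm ▸ hs' hw : w ∈ range x)
    exact ⟨j, hw, m, φ, rfl⟩
  let K' : Set (Om Y) := gen (range fun j => (⟨_, u' j⟩ : Om Y))
  have hK' : Fn K' := fn_gen (finite_range _)
  have hK'W : K' ⊆ W := gen_subset hW (by rintro _ ⟨j, rfl⟩; exact r1 j)
  have hK'm : ∀ j m (φ : (x j).1 ⟶ m), (⟨m, Y.map φ (u' j)⟩ : Om Y) ∈ K' :=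
    fun j m φ => ⟨_, ⟨j, rfl⟩, m, φ, rfl⟩
  have hK'' : Fn (K' ∪ F ∩ (s ∪ W)) := hK'.union (hF.inter hN)
  obtain ⟨L', g1, g2, g3, g4⟩ := h.2.2.2 (F ∪ (K' ∪ F ∩ (s ∪ W))) (hF.union hK'')
    (union_subset hFt (union_subset (hK'W.trans hWt) (inter_subset_left.trans hFt)))
  have hL : Fn (L' ∪ (K' ∪ F ∩ (s ∪ W))) := g1.union hK''
  have hLN : L' ∪ (K' ∪ F ∩ (s ∪ W)) ⊆ s ∪ W := union_subset (g2.trans subset_union_left)
    (union_subset (hK'W.trans subset_union_right) inter_subset_right)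
  refine ⟨_, hL, hLN, subset_union_right.trans subset_union_right, fun i e he => ?_⟩
  obtain ⟨y, hy, hye⟩ := g4 i e (he.mono subset_union_left)
  have hT0 := tri_s0 (he.mono (subset_union_left (t := K' ∪ F ∩ (s ∪ W))))
  obtain ⟨τ', z, hτ', hz, hz0⟩ := tri2 hX g1.cl hL.cl subset_union_left
    (hy.mono (union_subset_union_right _ subset_union_right)) he
    (show Tri X0 L' _ triv y e from ⟨hT0.1, hT0.2.1, hT0.2.2.1.trans hye.symm, hT0.2.2.2⟩)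
  let zr : Cell Y (E i) 1 := fun w =>
    if h : ∃ p : Σ j, ((x j).1 ⟶ w.1), Y.map p.2 (x p.1).2 = w.2 then
      z ⟨w.1, Y.map h.choose.2 (u' h.choose.1)⟩ else triv w
  have hzr : ∀ j m (φ : (x j).1 ⟶ m), zr ⟨m, Y.map φ (x j).2⟩ = z ⟨m, Y.map φ (u' j)⟩ := by
    intro j m φ
    have hex : ∃ p : Σ j, ((x j).1 ⟶ m), Y.map p.2 (x p.1).2 = Y.map φ (x j).2 := ⟨⟨j, φ⟩, rfl⟩
    have := r5 _ _ m _ _ hex.choose_spec
    simp only [zr]
    rw [dif_pos hex, this]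
  have hKL : K' ⊆ L' ∪ (K' ∪ F ∩ (s ∪ W)) := subset_union_left.trans subset_union_right
  have hF1 : ∀ w ∈ F, ∃ j, ∃ (m : SimplexCategoryᵒᵖ) (φ : (x j).1 ⟶ m),
      w = ⟨m, Y.map φ (x j).2⟩ := by
    intro w hw
    obtain ⟨j, -, h'⟩ := hrep s1 (subset_union_left.trans subset_union_left) w (e1 ▸ hw)
    exact ⟨j, h'⟩
  have hEz : Edge X0 F zr triv triv := by
    refine ⟨⟨fun w hw m' ψ t => ?_, fun w hw => ?_⟩, fun w hw => ?_, fun w hw => ?_⟩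
    · obtain ⟨j, m, φ, rfl⟩ := hF1 w hw
      have h1 := hz.1.1 _ (hKL (hK'm j m φ)) m' ψ t
      rw [hzr j m φ, ← h1]
      dsimp only
      rw [← Functor.map_comp_apply, ← Functor.map_comp_apply, hzr j m' (φ ≫ ψ)]
    · by_cases hex : ∃ p : Σ j, ((x j).1 ⟶ w.1), Y.map p.2 (x p.1).2 = w.2
      · obtain ⟨p, hp⟩ := hex
        have hwF : w ∈ F := by
          have := hF.cl _ (hxF p.1) _ p.2
          rwa [hp] at this
        obtain ⟨j, hj, m, φ, rfl⟩ := hrep s3 subset_union_right w (e3 ▸ ⟨hwF, hw⟩)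
        rw [hzr]
        have hj0 : x j ∈ X0 := (e3.symm ▸ subset_gen s3 hj : x j ∈ F ∩ X0).2
        exact hz.1.2 _ (hX _ (r4 j hj0) m φ)
      · exact dif_neg hex
    · obtain ⟨j, m, φ, rfl⟩ := hF1 w hw
      funext t
      have := congrFun (hz.2.1 _ (hKL (hK'm j m φ))) t
      simp only [pull] at this ⊢
      rw [hzr]
      exact this
    · obtain ⟨j, m, φ, rfl⟩ := hF1 w hw
      funext t
      have := congrFun (hz.2.2 _ (hKL (hK'm j m φ))) t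
      simp only [pull] at this ⊢
      rw [hzr]
      exact this
  have hag : Agree ((L' ∪ (K' ∪ F ∩ (s ∪ W))) ∩ F) z zr := by
    intro w hw
    obtain ⟨j, hj, m, φ, rfl⟩ := hrep s2 (subset_union_right.trans subset_union_left) w
      (e2 ▸ ⟨hw.2, hLN hw.1⟩)
    rw [hzr]
    rcases (e2.symm ▸ subset_gen s2 hj : x j ∈ F ∩ (s ∪ W)).2 with hj' | hj'
    · rw [hz0 _ (g3 ⟨Or.inl hw.2, h.1 _ hj' m φ⟩),
        hz0 _ (g3 ⟨Or.inr (Or.inl (hK'm j m φ)), h.1 _ (r3 j hj') m φ⟩)]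
      rfl
    · rw [r2 j hj']
  obtain ⟨_, c, -, hc, hce⟩ := tri1 hX hL.cl (hL.cl.union hF.cl) subset_union_left
    (hz.glue hL.cl hF.cl hEz hag) (hy.mono (by
      rintro w ((hw | hw) | hw)
      · exact Or.inl hw
      · exact Or.inr (Or.inr hw)
      · exact Or.inr (Or.inl hw)))
    (show Tri X0 _ τ' _ y e from ⟨hτ'.1, hτ'.2.1.trans (glue_left _ _ _).symm, hτ'.2.2⟩)
  exact ⟨c, hc, hce⟩

end Pool.Agent.MP_e99f36_lc.H71
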