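import Pool.Agent.MP_e99f36_lc.H71.Core2

/-! Cells and morphisms, homotopy transfer, loops, and the core theorem for a spectrum. -/

open CategoryTheory MonoidalCategory Simplicial Opposite Set Cardinal

namespace Pool.Agent.MP_e99f36_lc.H71

variable {Y : SSet.{0}} {K K' : PKan} {X0 : Set (Om Y)} {k : ℕ}

theorem src_apply (H : Cell Y K 1) (x : Om Y) (t) :
    src H x t = H x (SSet.stdSimplex.const 1 0 x.1) :=
  congrArg (H x) (sapp SSet.stdSimplex.δ_one_eq_const x.1 t)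

theorem tgt_apply (H : Cell Y K 1) (x : Om Y) (t) :
    tgt H x t = H x (SSet.stdSimplex.const 1 1 x.1) :=
  congrArg (H x) (sapp SSet.stdSimplex.δ_zero_eq_const x.1 t)

instance (m : SimplexCategoryᵒᵖ) : Unique ((Δ[0] : SSet.{0}).obj m) where
  default := SSet.stdSimplex.const 0 0 m
  uniq _ := SSet.stdSimplex.objEquiv.injective (Subsingleton.elim _ _)

theorem edge_iff {L : Set (Om Y)} {H : Cell Y K 1} {f g : Cell Y K 0} :
    Edge X0 L H f g ↔ PM X0 L H ∧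
      (∀ x ∈ L, H x (SSet.stdSimplex.const 1 0 x.1) = f x default) ∧
      ∀ x ∈ L, H x (SSet.stdSimplex.const 1 1 x.1) = g x default := by
  refine and_congr_right fun _ => and_congr (forall₂_congr fun x _ => ?_)
    (forall₂_congr fun x _ => ?_)
  · exact ⟨fun h => (src_apply H x default).symm.trans (congrFun h default), fun h =>
      funext fun t => (src_apply H x t).trans (h.trans (congrArg _ (Subsingleton.elim _ _)))⟩
  · exact ⟨fun h => (tgt_apply H x default).symm.trans (congrFun h default), fun h =>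
      funext fun t => (tgt_apply H x t).trans (h.trans (congrArg _ (Subsingleton.elim _ _)))⟩

theorem PM.weaken {X1 L : Set (Om Y)} {f : Cell Y K k} (h : PM X0 L f) (h1 : X1 ⊆ X0) :
    PM X1 L f := ⟨h.1, h.2.mono h1⟩

theorem Edge.weaken {X1 L : Set (Om Y)} {H : Cell Y K 1} {f g : Cell Y K 0}
    (h : Edge X0 L H f g) (h1 : X1 ⊆ X0) : Edge X1 L H f g := ⟨h.1.weaken h1, h.2⟩

/-- The cell of a morphism. -/
noncomputable def cell0 (f : Y ⟶ K.X) : Cell Y K 0 := fun x _ => f.app x.1 x.2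

/-- The cell of a morphism on a product. -/
noncomputable def cellk (h : Y ⊗ Δ[k] ⟶ K.X) : Cell Y K k := fun x t => h.app x.1 (pr x.2 t)

theorem natl_cell0 (f : Y ⟶ K.X) (L : Set (Om Y)) : Natl L (cell0 f) :=
  fun x _ _ φ _ => NatTrans.naturality_apply f φ x.2

theorem natl_cellk (h : Y ⊗ Δ[k] ⟶ K.X) (L : Set (Om Y)) : Natl L (cellk h) :=
  fun x _ _ φ t => NatTrans.naturality_apply h φ (pr (A := Y) (B := Δ[k]) x.2 t)

/-- The morphism of a natural cell. -/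
noncomputable def hom0 (f : Cell Y K 0) (hf : Natl univ f) : Y ⟶ K.X where
  app m := ↾fun y => f ⟨m, y⟩ default
  naturality m m' φ := by
    ext y
    exact (congrArg (f ⟨m', Y.map φ y⟩) (Subsingleton.elim _ _)).trans
      (hf ⟨m, y⟩ trivial m' φ default)

/-- The morphism on a product of a natural cell. -/
noncomputable def homk (f : Cell Y K k) (hf : Natl univ f) : Y ⊗ Δ[k] ⟶ K.X where
  app m := ↾fun z => f ⟨m, z.1⟩ z.2
  naturality m m' φ := by
    ext z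
    exact hf ⟨m, z.1⟩ trivial m' φ z.2

theorem cell0_hom0 (f : Cell Y K 0) (hf : Natl univ f) : cell0 (hom0 f hf) = f := by
  funext x t
  exact congrArg (f x) (Subsingleton.elim _ _)

/-- The simplices on the base point. -/
def P0 (A : PKan) : Set (Om A.X) := {x | x.2 = bp A x.1}

theorem cl_P0 (A : PKan) : Cl (P0 A) := fun x hx m φ => by
  change A.X.map φ x.2 = bp A m
  rw [show x.2 = bp A x.1 from hx, map_bp]

theorem app_bp (u : K ⟶ K') (m : SimplexCategoryᵒᵖ) : u.1.app m (bp K m) = bp K' m :=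
  (NatTrans.naturality_apply u.1 _ K.pt).trans (congrArg _ u.2)

theorem bp_zero (K : PKan) : bp K (op ⦋0⦌) = K.pt := by
  unfold bp
  rw [show (SimplexCategory.const ⦋0⦌ ⦋0⦌ 0).op = 𝟙 (op ⦋0⦌) from
    Quiver.Hom.unop_inj (Subsingleton.elim _ _)]
  simp

theorem pm_cell0 {A : PKan} (f : A ⟶ K) (L : Set (Om A.X)) : PM (P0 A) L (cell0 f.1) :=
  ⟨natl_cell0 _ _, fun x hx => funext fun _ => by
    change f.1.app x.1 x.2 = bp K x.1
    rw [show x.2 = bp A x.1 from hx, app_bp]⟩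

/-- The pointed morphism of a cell. -/
noncomputable def phom {A : PKan} (f : Cell A.X K 0) (hf : PM (P0 A) univ f) : A ⟶ K :=
  ⟨hom0 f hf.1, (congrFun (hf.2 ⟨_, A.pt⟩ (bp_zero A).symm) default).trans (bp_zero K)⟩

theorem homotopic_iff {A : PKan} (f g : A ⟶ K) :
    Homotopic f g ↔ ∃ H, Edge (P0 A) univ H (cell0 f.1) (cell0 g.1) := by
  constructor
  · rintro ⟨h, h0, h1, hp⟩
    refine ⟨cellk h, edge_iff.2 ⟨⟨natl_cellk _ _, fun x hx => funext fun t => ?_⟩,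
      fun x _ => sapp h0 x.1 x.2, fun x _ => sapp h1 x.1 x.2⟩⟩
    change h.app x.1 (pr x.2 t) = _
    rw [show x.2 = bp A x.1 from hx]
    exact sapp hp x.1 (pr default t)
  · rintro ⟨H, hH⟩
    obtain ⟨h1, h2, h3⟩ := edge_iff.1 hH
    exact ⟨homk H h1.1, sext fun m y => h2 ⟨m, y⟩ trivial, sext fun m y => h3 ⟨m, y⟩ trivial,
      sext fun m z => congrFun (h1.2 ⟨m, bp A m⟩ rfl) z.2⟩

theorem Edge.symm' (hX : Cl X0) {L : Set (Om Y)} (hL : Cl L) {H : Cell Y K 1}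
    {f g : Cell Y K 0} (hf : PM X0 L f) (h : Edge X0 L H f g) : ∃ H', Edge X0 L H' g f := by
  obtain ⟨_, b, -, hb, -⟩ := tri0 hX cl_empty hL (empty_subset _) h (edge_rfe hf)
    (tri_empty _ triv _)
  exact ⟨b, hb⟩

theorem Edge.trans' (hX : Cl X0) {L : Set (Om Y)} (hL : Cl L) {H H' : Cell Y K 1}
    {f g e : Cell Y K 0} (h : Edge X0 L H f g) (h' : Edge X0 L H' g e) :
    ∃ H'', Edge X0 L H'' f e := by
  obtain ⟨_, b, -, hb, -⟩ := tri1 hX cl_empty hL (empty_subset _) h h' (tri_empty _ _ triv)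
  exact ⟨b, hb⟩

theorem Homotopic.comp_left {A B C : PKan} (f : A ⟶ B) {g g' : B ⟶ C} (h : Homotopic g g') :
    Homotopic (f ≫ g) (f ≫ g') := by
  obtain ⟨h, h0, h1, hp⟩ := h
  refine ⟨f.1 ▷ Δ[1] ≫ h, by rw [SSet.ι₀_comp_assoc, h0]; rfl,
    by rw [SSet.ι₁_comp_assoc, h1]; rfl, ?_⟩
  rw [← comp_whiskerRight_assoc, SSet.const_comp, f.2, hp]

theorem Homotopic.comp_right {A B C : PKan} {f f' : A ⟶ B} (g : B ⟶ C) (h : Homotopic f f') :
    Homotopic (f ≫ g) (f' ≫ g) := by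
  obtain ⟨h, h0, h1, hp⟩ := h
  refine ⟨h ≫ g.1, by rw [← Category.assoc, h0]; rfl, by rw [← Category.assoc, h1]; rfl, ?_⟩
  rw [← Category.assoc, hp, SSet.const_comp, g.2]

instance : Congruence homRel where
  comp_left f _ _ h := Homotopic.comp_left f h
  comp_right g h := Homotopic.comp_right g h
  equivalence := by
    intro A B
    refine ⟨fun f => (homotopic_iff f f).2 ⟨_, edge_rfe (pm_cell0 f _)⟩, fun {f g} h => ?_,
      fun {f g e} h h' => ?_⟩
    · obtain ⟨H, hH⟩ := (homotopic_iff f g).1 h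
      exact (homotopic_iff g f).2 (hH.symm' (cl_P0 A) cl_univ (pm_cell0 f _))
    · obtain ⟨H, hH⟩ := (homotopic_iff f g).1 h
      obtain ⟨H', hH'⟩ := (homotopic_iff g e).1 h'
      exact (homotopic_iff f e).2 (hH.trans' (cl_P0 A) cl_univ hH')

theorem toHo_eq_iff {A B : PKan} (f g : A ⟶ B) : toHo.map f = toHo.map g ↔ Homotopic f g :=
  Quotient.functor_map_eq_iff homRel f g

/-- Postcomposition with a pointed map. -/
noncomputable def post (u : K ⟶ K') (f : Cell Y K k) : Cell Y K' k :=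
  fun x t => u.1.app x.1 (f x t)

theorem post_triv (u : K ⟶ K') : post u (triv : Cell Y K k) = triv := by
  funext x t
  exact app_bp u x.1

theorem Agree.post {L : Set (Om Y)} {f g : Cell Y K k} (h : Agree L f g) (u : K ⟶ K') :
    Agree L (post u f) (post u g) := fun x hx => by
  funext t
  simp only [H71.post, h x hx]

theorem PM.post {L : Set (Om Y)} {f : Cell Y K k} (h : PM X0 L f) (u : K ⟶ K') :
    PM X0 L (post u f) := by
  refine ⟨fun x hx m φ t => ?_, post_triv u ▸ h.2.post u⟩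
  simp only [H71.post]
  rw [h.1 x hx m φ t]
  exact NatTrans.naturality_apply u.1 φ _

theorem Edge.post {L : Set (Om Y)} {H : Cell Y K 1} {f g : Cell Y K 0} (h : Edge X0 L H f g)
    (u : K ⟶ K') : Edge X0 L (post u H) (post u f) (post u g) :=
  ⟨h.1.post u, h.2.1.post u, h.2.2.post u⟩

theorem edge_of_homotopic {w : K ⟶ K} (h : Homotopic w (𝟙 K)) {L : Set (Om Y)} {f : Cell Y K 0}
    (hf : PM X0 L f) : ∃ G, Edge X0 L G (post w f) f := by
  obtain ⟨h, h0, h1, hp⟩ := h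
  refine ⟨fun x t => h.app x.1 (pr (f x default) t), edge_iff.2 ⟨⟨fun x hx m φ t => ?_,
    fun x hx => funext fun t => ?_⟩, fun x _ => sapp h0 x.1 _, fun x _ => sapp h1 x.1 _⟩⟩
  · have := hf.1 x hx m φ default
    rw [Subsingleton.elim ((Δ[0] : SSet.{0}).map φ default) default] at this
    dsimp only
    rw [this]
    exact NatTrans.naturality_apply h φ (pr (A := K.X) (B := Δ[1]) (f x default) t)
  · dsimp only
    rw [hf.2 x hx]
    exact sapp hp x.1 (pr default t)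

/-- Maps on `L` extend to `L'`. -/
def Ext0 (X0 : Set (Om Y)) (K : PKan) (L L' : Set (Om Y)) : Prop :=
  ∀ f : Cell Y K 0, PM X0 L f → ∃ f', PM X0 L' f' ∧ Agree L f' f

/-- Maps on `L` that are trivial on `N` are null-homotopic relative to `N`. -/
def Acy (K : PKan) (N L : Set (Om Y)) : Prop :=
  ∀ g : Cell Y K 0, PM N L g → ∃ H, Edge N L H g triv

theorem Ext0.transfer (hX : Cl X0) {L L' : Set (Om Y)} (hL : Cl L) (hL' : Cl L') (hLL : L ⊆ L')
    (v : K' ⟶ K) (u : K ⟶ K') (h : Homotopic (v ≫ u) (𝟙 K')) (he : Ext0 X0 K L L') :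
    Ext0 X0 K' L L' := by
  intro f hf
  obtain ⟨g, hg, ha⟩ := he _ (hf.post v)
  obtain ⟨G, hG⟩ := edge_of_homotopic h hf
  obtain ⟨_, f', -, -, h1, h2⟩ := hep0 hX hL hL' hLL (hg.post u)
    (hG.congr (ha.post u).symm (Agree.refl _ _))
  exact ⟨f', h1, h2⟩

theorem Acy.transfer {N L : Set (Om Y)} (hN : Cl N) (hL : Cl L)
    (v : K' ⟶ K) (u : K ⟶ K') (h : Homotopic (v ≫ u) (𝟙 K')) (ha : Acy K N L) : Acy K' N L := by
  intro g hg
  obtain ⟨H, hH⟩ := ha _ (hg.post v)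
  obtain ⟨G, hG⟩ := edge_of_homotopic h hg
  have h2 := hH.post u
  rw [post_triv] at h2
  obtain ⟨_, b, -, hb, -⟩ := tri0 hN cl_empty hL (empty_subset _) hG h2 (tri_empty _ triv _)
  exact ⟨b, hb⟩

/-- Evaluation of a simplex of the loop space. -/
noncomputable def ap {m : SimplexCategoryᵒᵖ} (p : K.loop.X.obj m) (a : (Δ[1] : SSet.{0}).obj m) :
    K.X.obj m := p.1.app m (pr (idS m) a)

theorem ap_map {m m' : SimplexCategoryᵒᵖ} (φ : m ⟶ m') (p : K.loop.X.obj m)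
    (a : (Δ[1] : SSet.{0}).obj m) :
    ap (K.loop.X.map φ p) ((Δ[1] : SSet.{0}).map φ a) = K.X.map φ (ap p a) := by
  change p.1.app m' (pr ((SSet.stdSimplex.map φ.unop).app m' (idS m')) (Δ[1].map φ a)) = _
  rw [idS_nat]
  exact NatTrans.naturality_apply p.1 φ (pr (A := SSet.stdSimplex.obj m.unop)
    (B := Δ[1]) (idS m) a)

theorem ap_bp (m : SimplexCategoryᵒᵖ) (a : (Δ[1] : SSet.{0}).obj m) :
    ap (bp K.loop m) a = bp K m := rfl

theorem ap_bdry {m : SimplexCategoryᵒᵖ} (p : K.loop.X.obj m) {a : (Δ[1] : SSet.{0}).obj m}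
    (ha : a ∈ (SSet.boundary 1).obj m) : ap p a = bp K m := by
  rcases (mem_bdry a).1 ha with rfl | rfl
  · exact sapp p.2.1 m (idS m)
  · exact sapp p.2.2 m (idS m)

theorem loop_ext {m : SimplexCategoryᵒᵖ} {p p' : K.loop.X.obj m}
    (h : ∀ (m' : SimplexCategoryᵒᵖ) (φ : m ⟶ m') (a : (Δ[1] : SSet.{0}).obj m'),
      ap (K.loop.X.map φ p) a = ap (K.loop.X.map φ p') a) : p = p' := by
  refine Subtype.ext (sext fun m' x => ?_)
  have := h m' (SSet.stdSimplex.objEquiv x.1).op x.2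
  have e : (SSet.stdSimplex.map (SSet.stdSimplex.objEquiv x.1)).app m' (idS m') = x.1 := by
    apply SSet.stdSimplex.objEquiv.injective
    exact Category.id_comp (SSet.stdSimplex.objEquiv x.1)
  change p.1.app m' (pr ((SSet.stdSimplex.map (SSet.stdSimplex.objEquiv x.1)).app m'
    (idS m')) x.2) = p'.1.app m' (pr ((SSet.stdSimplex.map (SSet.stdSimplex.objEquiv x.1)).app m'
    (idS m')) x.2) at this
  rw [e] at this
  exact this

/-- The loop given by a map to the loop space. -/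
noncomputable def unc0 (f : Cell Y K.loop 0) : Cell Y K 1 := fun x a => ap (f x default) a

theorem natl_default {L : Set (Om Y)} {f : Cell Y K 0} (hf : Natl L f) {x : Om Y} (hx : x ∈ L)
    {m : SimplexCategoryᵒᵖ} (φ : x.1 ⟶ m) :
    f ⟨m, Y.map φ x.2⟩ default = K.X.map φ (f x default) :=
  (congrArg _ (Subsingleton.elim _ _)).trans (hf x hx m φ default)

theorem edge_unc0 {L : Set (Om Y)} {f : Cell Y K.loop 0} (hf : PM X0 L f) :
    Edge X0 L (unc0 f) triv triv := by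
  refine edge_iff.2 ⟨⟨fun x hx m φ t => ?_, fun x hx => funext fun t => ?_⟩,
    fun x _ => ap_bdry _ ((mem_bdry _).2 (Or.inl rfl)),
    fun x _ => ap_bdry _ ((mem_bdry _).2 (Or.inr rfl))⟩
  · simp only [unc0]
    rw [natl_default hf.1 hx, ap_map]
  · simp only [unc0]
    rw [hf.2 x hx]
    rfl

theorem unc0_inj {L : Set (Om Y)} (hL : Cl L) {f f' : Cell Y K.loop 0} (hf : Natl L f)
    (hf' : Natl L f') (h : Agree L (unc0 f) (unc0 f')) : Agree L f f' := by
  intro x hx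
  funext t
  rw [Subsingleton.elim t default]
  refine loop_ext fun m φ a => ?_
  rw [← natl_default hf hx, ← natl_default hf' hx]
  exact congrFun (h _ (hL x hx m φ)) a

theorem exists_cur (hX : Cl X0) {L : Set (Om Y)} (hL : Cl L) {e : Cell Y K 1}
    (he : Edge X0 L e triv triv) : ∃ f : Cell Y K.loop 0, PM X0 L f ∧ Agree L (unc0 f) e := by
  classical
  obtain ⟨h1, h2, h3⟩ := edge_iff.1 he
  have hLX := hL.union hX
  obtain ⟨φ, hφ⟩ : ∃ φ : (toSub _ hLX : SSet.{0}) ⟶ K.loop.X,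
      unc (K := K.X) (pt := K.pt) φ = toHom hLX e (h1.natl hX) :=
    ⟨cur (pt := K.pt) (toHom hLX e (h1.natl hX)) (sext fun m y => by
      rcases y.2 with hy | hy
      · exact h2 _ hy
      · exact congrFun (h1.2 _ hy) _) (sext fun m y => by
      rcases y.2 with hy | hy
      · exact h3 _ hy
      · exact congrFun (h1.2 _ hy) _), unc_cur _ _ _⟩
  let f : Cell Y K.loop 0 := fun x _ =>
    if h : x ∈ L ∪ X0 then φ.app x.1 ⟨x.2, h⟩ else bp K.loop x.1
  have hf : ∀ x (hx : x ∈ L ∪ X0) t, f x t = φ.app x.1 ⟨x.2, hx⟩ := fun x hx _ => dif_pos hx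
  clear_value f
  have hn : Natl (L ∪ X0) f := by
    intro x hx m ψ t
    exact (hf _ (hLX x hx m ψ) _).trans ((NatTrans.naturality_apply φ ψ
      (⟨x.2, hx⟩ : (toSub _ hLX : SSet.{0}).obj x.1)).trans (congrArg _ (hf x hx t).symm))
  have ha : Agree (L ∪ X0) (unc0 f) e := by
    intro x hx
    funext a
    exact (congrArg (fun p => ap p a) (hf x hx default)).trans
      (sapp hφ x.1 (pr (A := toSub _ hLX) ⟨x.2, hx⟩ a))
  refine ⟨f, ⟨hn.mono subset_union_left, ?_⟩, ha.mono subset_union_left⟩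
  exact unc0_inj hX (hn.mono subset_union_right) (natl_triv _)
    ((ha.mono subset_union_right).trans h1.2)

theorem LExt.ext0 (hX : Cl X0) {L L' : Set (Om Y)} (hL : Cl L) (hL' : Cl L') (hLL : L ⊆ L')
    (h : LExt X0 K L L') : Ext0 X0 K.loop L L' := by
  intro f hf
  obtain ⟨e, he, ha⟩ := h _ (edge_unc0 hf)
  obtain ⟨f', hf', ha'⟩ := exists_cur hX hL' he
  exact ⟨f', hf', unc0_inj hL (hf'.1.mono hLL) hf.1 ((ha'.mono hLL).trans ha)⟩

theorem Ext0.lext (hX : Cl X0) {L L' : Set (Om Y)} (hL : Cl L)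
    (h : Ext0 X0 K.loop L L') : LExt X0 K L L' := by
  intro e he
  obtain ⟨f, hf, ha⟩ := exists_cur hX hL he
  obtain ⟨f', hf', ha'⟩ := h f hf
  refine ⟨unc0 f', edge_unc0 hf', Agree.trans (fun x hx => ?_) ha⟩
  funext a
  simp only [unc0, ha' x hx]

theorem lext_of_null (hX : Cl X0) {N L : Set (Om Y)} (hN : Cl N) (hL : Cl L) (hNL : N ⊆ L)
    (h : ∀ (z : Cell Y K 0) (G : Cell Y K 1), Edge X0 L G z triv → PM X0 L z →
      Agree N z triv → Null X0 L N z) : LExt X0 K N L := by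
  intro e he
  obtain ⟨G, z, hG, ha, hz, hz0⟩ := hep1 hX hN hL hNL (pm_triv L) he
  obtain ⟨H, hH, hH'⟩ := h z G hG hz hz0
  have hT := tri_s0 he
  obtain ⟨_, b, -, hb, hb'⟩ := tri0 hX hN hL hNL hH hG
    (show Tri X0 N _ H e G from ⟨hT.1, hT.2.1.trans hH'.symm, hT.2.2.1, hT.2.2.2.trans ha.symm⟩)
  exact ⟨b, hb, hb'⟩

theorem OmegaSpectrum.exists_inv (E : OmegaSpectrum) (n : ℤ) :
    ∃ v : (E.E (n + 1)).loop ⟶ E.E n, Homotopic (E.σ n ≫ v) (𝟙 _) ∧
      Homotopic (v ≫ E.σ n) (𝟙 _) := by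
  have := E.iso n
  obtain ⟨v, hv⟩ := toHo.map_surjective (inv (toHo.map (E.σ n)))
  refine ⟨v, (toHo_eq_iff _ _).1 ?_, (toHo_eq_iff _ _).1 ?_⟩
  · rw [Functor.map_comp, hv, IsIso.hom_inv_id, CategoryTheory.Functor.map_id]
  · rw [Functor.map_comp, hv, IsIso.inv_hom_id, CategoryTheory.Functor.map_id]

variable (E : OmegaSpectrum)

theorem ext_of_lext (hX : Cl X0) {L L' : Set (Om Y)} (hL : Cl L) (hL' : Cl L') (hLL : L ⊆ L')
    {n : ℤ} (h : LExt X0 (E.E (n + 1)) L L') : Ext0 X0 (E.E n) L L' := by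
  obtain ⟨v, h1, -⟩ := E.exists_inv n
  exact (h.ext0 hX hL hL' hLL).transfer hX hL hL' hLL _ _ h1

theorem lext_of_ext (hX : Cl X0) {L L' : Set (Om Y)} (hL : Cl L) (hL' : Cl L') (hLL : L ⊆ L')
    {n : ℤ} (h : Ext0 X0 (E.E n) L L') : LExt X0 (E.E (n + 1)) L L' := by
  obtain ⟨v, -, h1⟩ := E.exists_inv n
  exact (h.transfer hX hL hL' hLL _ _ h1).lext hX hL

theorem acy_loop {N L : Set (Om Y)} (hN : Cl N) (hL : Cl L) {n : ℤ} (h : Acy (E.E n) N L) :
    Acy (E.E (n + 1)).loop N L := by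
  obtain ⟨v, -, h1⟩ := E.exists_inv n
  exact h.transfer hN hL _ _ h1

theorem ext_of_acy (hX : Cl X0) {N L : Set (Om Y)} (hN : Cl N) (hL : Cl L) (hXN : X0 ⊆ N)
    (hNL : N ⊆ L) (h : ∀ n, Acy (E.E n) N L) (n : ℤ) : Ext0 X0 (E.E n) N L :=
  ext_of_lext E hX hN hL hNL (lext_of_null hX hN hL hNL fun z _ _ hz hz0 => by
    obtain ⟨H, hH⟩ := h _ z ⟨hz.1, hz0⟩
    exact ⟨H, hH.weaken hXN, hH.1.2⟩)

/-- Small sets of simplices witnessing that acyclic pairs are built from small ones. -/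
def Bounded (E : OmegaSpectrum) (lam : Cardinal.{0}) : Prop :=
  ∀ (Y : SSet.{0}) (X0 : Set (Om Y)), Cl X0 → (∀ n, Acy (E.E n) X0 univ) →
    ∃ c : Om Y → Set (Om Y), (∀ y, #(c y) ≤ lam) ∧ ∀ N N', Cl N → Cl N' → X0 ⊆ N → N ⊆ N' →
      Cld X0 c N → Cld X0 c N' → ∀ n, Acy (E.E n) N N'

theorem core {μ : Cardinal.{0}} (hD : ∀ κ : Cardinal.{0}, κ.IsRegular → μ < κ →
      ∀ S : Set κ.ord.ToType, IsStationary S → Diamond κ S) :
    ∃ lam, ℵ₀ ≤ lam ∧ Bounded E lam := by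
  let lam : Cardinal.{0} := max (max μ ℵ₀) (Cardinal.sum fun p : ℤ × SimplexCategoryᵒᵖ =>
    #((Δ[1] : SSet.{0}).obj p.2 → (E.E p.1).X.obj p.2))
  have h0 : ℵ₀ ≤ lam := (le_max_right _ _).trans (le_max_left _ _)
  refine ⟨lam, h0, fun Y X0 hX hA => ?_⟩
  have hax := ax_rr (E := E.E) hX h0 (fun n m => (Cardinal.le_sum (fun p : ℤ × SimplexCategoryᵒᵖ =>
    #((Δ[1] : SSet.{0}).obj p.2 → (E.E p.1).X.obj p.2)) (n, m)).trans (le_max_right _ _))
    (fun κ hκ hl => hD κ hκ (((le_max_left _ _).trans (le_max_left _ _)).trans_lt hl))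
  have hR : Rr X0 E.E X0 univ := by
    refine ⟨⟨hX, cl_univ, subset_univ _, fun F hF _ => ⟨F ∩ X0, hF.inter hX, inter_subset_right,
      subset_rfl, fun n e he => ⟨triv, edge_triv _, he.1.2.symm.mono inter_subset_right⟩⟩⟩,
      fun n g hg _ => ?_⟩
    obtain ⟨H, hH⟩ := hA n g hg.1
    exact ⟨H, hH, hH.1.2⟩
  obtain ⟨c, hc1, -, hc3⟩ := hax.main hR
  refine ⟨c, hc1, fun N N' hN hN' hXN hNN cN cN' n g hg => ?_⟩
  have hRN : ∀ M M', Cl M → Cl M' → X0 ⊆ M → M ⊆ M' → Cld X0 c M → Cld X0 c M' →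
      Rr X0 E.E M M' := by
    intro M M' hM hM' hXM hMM cM cM'
    have := hc3 M M' hM hM' hMM (subset_univ _) cM cM'
    rwa [union_eq_self_of_subset_right (inter_subset_right.trans hXM)] at this
  have hph : ∀ {m} {L : Set (Om Y)} {z : Cell Y (E.E m) 0} {G}, PM X0 L z →
      Edge X0 L G z triv → Ph X0 L z := fun hz hG => ⟨hz, fun F _ hF => ⟨_, hG.mono hF⟩⟩
  have hext : Ext0 X0 (E.E n) N' univ := ext_of_lext E hX hN' cl_univ (subset_univ _)
    (lext_of_null hX hN' cl_univ (subset_univ _) fun z G hG hz hz0 =>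
      (hRN N' univ hN' cl_univ (hXN.trans hNN) (subset_univ _) cN'
        (fun _ _ _ => subset_univ _)).2 _ z (hph hz hG) hz0)
  obtain ⟨g', hg', ha⟩ := hext g (hg.weaken hXN)
  obtain ⟨H, hH⟩ := hA n g' hg'
  obtain ⟨H', h1, h2⟩ := (hRN N N' hN hN' hXN hNN cN cN').2 n g (hph (hg.weaken hXN)
    ((hH.mono (subset_univ _)).congr ha (Agree.refl _ _))) hg.2
  exact ⟨H', ⟨h1.1.1, h2⟩, h1.2⟩

end Pool.Agent.MP_e99f36_lc.H71
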