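import Pool.Agent.MP_e99f36_lc.H71.Link

/-! Cylinders, acyclic monomorphisms and homotopy classes. -/

open CategoryTheory MonoidalCategory Simplicial Opposite Set Cardinal

namespace Pool.Agent.MP_e99f36_lc.H71

variable {Y B : SSet.{0}} {K : PKan} {k : ℕ}

/-- The boundary of the cylinder relative to `A`. -/
def prodSet (A : Set (Om Y)) : Set (Om ((Δ[1] : SSet.{0}) ⊗ Y)) :=
  {x | (⟨x.1, x.2.2⟩ : Om Y) ∈ A ∨ x.2.1 ∈ (SSet.boundary 1).obj x.1}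

theorem cl_prodSet {A : Set (Om Y)} (hA : Cl A) : Cl (prodSet A) := fun x hx m φ =>
  hx.imp (fun h => hA ⟨x.1, x.2.2⟩ h m φ) (fun h => (SSet.boundary 1).map φ h)

theorem acy_prod (E : OmegaSpectrum) {A : Set (Om Y)} (hA : Cl A)
    (h : ∀ n, Acy (E.E n) A univ) (n : ℤ) : Acy (E.E n) (prodSet A) univ := by
  obtain ⟨m, rfl⟩ : ∃ m, n = m + 1 := ⟨n - 1, by ring⟩
  intro g hg
  have he : Edge A univ (fun (x : Om Y) a => g ⟨x.1, pr a x.2⟩ default) triv triv :=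
    edge_iff.2 ⟨⟨fun x _ m' φ a => natl_default hg.1 (x := ⟨x.1, pr a x.2⟩) trivial φ,
      fun x hx => funext fun a => congrFun (hg.2 ⟨x.1, pr a x.2⟩ (Or.inl hx)) default⟩,
      fun x _ => congrFun (hg.2 ⟨x.1, pr _ x.2⟩ (Or.inr ((mem_bdry _).2 (Or.inl rfl)))) default,
      fun x _ => congrFun (hg.2 ⟨x.1, pr _ x.2⟩ (Or.inr ((mem_bdry _).2 (Or.inr rfl)))) default⟩
  obtain ⟨f, hf, ha⟩ := exists_cur hA cl_univ he
  obtain ⟨H, hH⟩ := acy_loop E hA cl_univ (h m) f hf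
  obtain ⟨h1, h2, h3⟩ := edge_iff.1 hH
  refine ⟨fun x t => ap (H ⟨x.1, x.2.2⟩ t) x.2.1, edge_iff.2 ⟨⟨fun x _ m' φ t => ?_,
    fun x hx => funext fun t => ?_⟩, fun x _ => ?_, fun x _ => ?_⟩⟩
  · exact (congrArg (fun p => ap p _) (h1.1 ⟨x.1, x.2.2⟩ trivial m' φ t)).trans (ap_map φ _ _)
  · rcases hx with hx | hx
    · exact congrArg (fun p => ap p x.2.1) (congrFun (h1.2 _ hx) t)
    · exact ap_bdry _ hx
  · exact (congrArg (fun p => ap p x.2.1) (h2 ⟨x.1, x.2.2⟩ trivial)).trans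
      (congrFun (ha ⟨x.1, x.2.2⟩ trivial) x.2.1)
  · exact congrArg (fun p => ap p x.2.1) (h3 ⟨x.1, x.2.2⟩ trivial)

theorem const01 (m : SimplexCategoryᵒᵖ) :
    SSet.stdSimplex.const.{0} 1 0 m ≠ SSet.stdSimplex.const 1 1 m := by
  intro h
  have := congrArg (fun t => (SSet.stdSimplex.objEquiv t).toOrderHom 0) h
  cases this

theorem exists_cyl {A : Set (Om Y)} (hA : Cl A) {f g : Cell Y K 0} {H : Cell Y K 1}
    (hf : Natl univ f) (hg : Natl univ g) (hH : Edge ∅ A H f g) :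
    ∃ φ : Cell ((Δ[1] : SSet.{0}) ⊗ Y) K 0, PM ∅ (prodSet A) φ ∧
      (∀ x : Om Y, φ ⟨x.1, pr (SSet.stdSimplex.const 1 0 x.1) x.2⟩ default = f x default) ∧
      (∀ x : Om Y, φ ⟨x.1, pr (SSet.stdSimplex.const 1 1 x.1) x.2⟩ default = g x default) ∧
      ∀ x ∈ A, ∀ a, φ ⟨x.1, pr a x.2⟩ default = H x a := by
  obtain ⟨h1, h2, h3⟩ := edge_iff.1 hH
  let S : Fin 2 → Set (Om ((Δ[1] : SSet.{0}) ⊗ Y)) := fun j =>
    {x | x.2.1 = SSet.stdSimplex.const 1 j x.1}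
  have hS : ∀ j, Cl (S j) := fun j x hx m φ =>
    congrArg ((Δ[1] : SSet.{0}).map φ) (show x.2.1 = _ from hx)
  let SA : Set (Om ((Δ[1] : SSet.{0}) ⊗ Y)) := {x | (⟨x.1, x.2.2⟩ : Om Y) ∈ A}
  have hSA : Cl SA := fun x hx m φ => hA ⟨x.1, x.2.2⟩ hx m φ
  let φ0 : Cell ((Δ[1] : SSet.{0}) ⊗ Y) K 0 := fun x _ => f ⟨x.1, x.2.2⟩ default
  let φ1 : Cell ((Δ[1] : SSet.{0}) ⊗ Y) K 0 := fun x _ => g ⟨x.1, x.2.2⟩ default
  let φH : Cell ((Δ[1] : SSet.{0}) ⊗ Y) K 0 := fun x _ => H ⟨x.1, x.2.2⟩ x.2.1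
  have p0 : PM ∅ (S 0) φ0 := ⟨fun x _ m φ _ =>
    natl_default hf (x := ⟨x.1, x.2.2⟩) trivial φ, agree_empty _ _⟩
  have p1 : PM ∅ (S 1) φ1 := ⟨fun x _ m φ _ =>
    natl_default hg (x := ⟨x.1, x.2.2⟩) trivial φ, agree_empty _ _⟩
  have pH : PM ∅ SA φH := ⟨fun x hx m φ _ => h1.1 ⟨x.1, x.2.2⟩ hx m φ x.2.1, agree_empty _ _⟩
  have a01 : Agree (S 0 ∩ S 1) φ0 φ1 := fun x hx => absurd (hx.1.symm.trans hx.2) (const01 _)
  have aH : Agree (SA ∩ (S 0 ∪ S 1)) φH (glue (S 0) φ0 φ1) := by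
    rintro x ⟨hx, hx' | hx'⟩
    · rw [glue_left _ _ _ x hx']
      funext t
      exact (congrArg (H ⟨x.1, x.2.2⟩) hx').trans (h2 _ hx)
    · rw [glue_right a01 x hx']
      funext t
      exact (congrArg (H ⟨x.1, x.2.2⟩) hx').trans (h3 _ hx)
  refine ⟨glue SA φH (glue (S 0) φ0 φ1), (pH.glue hSA ((hS 0).union (hS 1))
    (p0.glue (hS 0) (hS 1) p1 a01) aH).mono fun x hx => hx.imp id fun h => (mem_bdry _).1 h,
    fun x => ?_, fun x => ?_, fun x hx a => ?_⟩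
  · rw [glue_right aH _ (Or.inl rfl), glue_left (S 0) φ0 φ1 _ rfl]
  · rw [glue_right aH _ (Or.inr rfl), glue_right a01 _ rfl]
  · rw [glue_left SA _ _ ⟨x.1, pr a x.2⟩ hx]

theorem edge_of_cyl {A : Set (Om Y)} {f g : Cell Y K 0} {H : Cell Y K 1}
    {φ ψ : Cell ((Δ[1] : SSet.{0}) ⊗ Y) K 0} (hψ : Natl univ ψ) (ha : Agree (prodSet A) ψ φ)
    (h0 : ∀ x : Om Y, φ ⟨x.1, pr (SSet.stdSimplex.const 1 0 x.1) x.2⟩ default = f x default)
    (h1 : ∀ x : Om Y, φ ⟨x.1, pr (SSet.stdSimplex.const 1 1 x.1) x.2⟩ default = g x default)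
    (hH : ∀ x ∈ A, ∀ a, φ ⟨x.1, pr a x.2⟩ default = H x a) :
    ∃ H', Edge ∅ univ H' f g ∧ Agree A H' H :=
  ⟨fun x a => ψ ⟨x.1, pr a x.2⟩ default, edge_iff.2
    ⟨⟨fun x _ _ φ a => natl_default hψ (x := ⟨x.1, pr a x.2⟩) trivial φ, agree_empty _ _⟩,
      fun x _ => (congrFun (ha ⟨x.1, pr _ x.2⟩ (Or.inr ((mem_bdry _).2 (Or.inl rfl))))
        default).trans (h0 x),
      fun x _ => (congrFun (ha ⟨x.1, pr _ x.2⟩ (Or.inr ((mem_bdry _).2 (Or.inr rfl))))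
        default).trans (h1 x)⟩,
    fun x hx => funext fun a => (congrFun (ha ⟨x.1, pr a x.2⟩ (Or.inl hx)) default).trans
      (hH x hx a)⟩

theorem edge_ext {A : Set (Om Y)} (hA : Cl A) (he : Ext0 ∅ K (prodSet A) univ)
    {f g : Cell Y K 0} {H : Cell Y K 1} (hf : Natl univ f) (hg : Natl univ g)
    (hH : Edge ∅ A H f g) : ∃ H', Edge ∅ univ H' f g ∧ Agree A H' H := by
  obtain ⟨φ, h1, h2, h3, h4⟩ := exists_cyl hA hf hg hH
  obtain ⟨ψ, hψ, ha⟩ := he φ h1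
  exact edge_of_cyl hψ.1 ha h2 h3 h4

theorem acy_of_ext {A : Set (Om Y)} (hA : Cl A) (he : Ext0 ∅ K (prodSet A) univ) :
    Acy K A univ := by
  intro g hg
  obtain ⟨H, h1, h2⟩ := edge_ext hA he hg.1 (natl_triv _)
    ((edge_triv A).congr hg.2.symm (Agree.refl _ _))
  exact ⟨H, ⟨h1.1.1, h2⟩, h1.2⟩

/-- The range of a morphism. -/
def rng (j : B ⟶ Y) : Set (Om Y) := {x | ∃ b, j.app x.1 b = x.2}

theorem cl_rng (j : B ⟶ Y) : Cl (rng j) := by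
  rintro x ⟨b, hb⟩ m φ
  exact ⟨B.map φ b, (NatTrans.naturality_apply j φ b).trans (congrArg _ hb)⟩

/-- Pulling back a cell. -/
noncomputable def pb (j : B ⟶ Y) (f : Cell Y K k) : Cell B K k :=
  fun x => f ⟨x.1, j.app x.1 x.2⟩

open Classical in
/-- Pushing forward a cell along a monomorphism. -/
noncomputable def pf (j : B ⟶ Y) (f : Cell B K k) : Cell Y K k :=
  fun x => if h : ∃ b, j.app x.1 b = x.2 then f ⟨x.1, h.choose⟩ else triv x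

theorem pf_apply (j : B ⟶ Y) [Mono j] (f : Cell B K k) (m : SimplexCategoryᵒᵖ) (b : B.obj m) :
    pf j f ⟨m, j.app m b⟩ = f ⟨m, b⟩ := by
  have hex : ∃ b', j.app m b' = j.app m b := ⟨b, rfl⟩
  have hinj : Function.Injective (j.app m) := (mono_iff_injective _).1 inferInstance
  have h1 : pf j f ⟨m, j.app m b⟩ = f ⟨m, hex.choose⟩ := dif_pos hex
  rw [h1, hinj hex.choose_spec]

theorem rng_ind (j : B ⟶ Y) {P : Om Y → Prop} (h : ∀ m b, P ⟨m, j.app m b⟩) :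
    ∀ x ∈ rng j, P x := by
  rintro ⟨m, y⟩ ⟨b, hb⟩
  have e : (⟨m, y⟩ : Om Y) = ⟨m, j.app m b⟩ := congrArg (Sigma.mk m) (Eq.symm hb)
  rw [e]
  exact h m b

theorem pm_pb (j : B ⟶ Y) {X L : Set (Om Y)} {X' L' : Set (Om B)} {f : Cell Y K k}
    (hf : PM X L f) (hL : ∀ x ∈ L', (⟨x.1, j.app x.1 x.2⟩ : Om Y) ∈ L)
    (hX : ∀ x ∈ X', (⟨x.1, j.app x.1 x.2⟩ : Om Y) ∈ X) : PM X' L' (pb j f) := by
  refine ⟨fun x hx m φ t => ?_, fun x hx => hf.2 _ (hX x hx)⟩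
  have := hf.1 _ (hL x hx) m φ t
  simp only [pb]
  rw [NatTrans.naturality_apply j φ x.2]
  exact this

theorem edge_pb (j : B ⟶ Y) {X L : Set (Om Y)} {X' L' : Set (Om B)} {H : Cell Y K 1}
    {f g : Cell Y K 0} (h : Edge X L H f g) (hL : ∀ x ∈ L', (⟨x.1, j.app x.1 x.2⟩ : Om Y) ∈ L)
    (hX : ∀ x ∈ X', (⟨x.1, j.app x.1 x.2⟩ : Om Y) ∈ X) :
    Edge X' L' (pb j H) (pb j f) (pb j g) :=
  ⟨pm_pb j h.1 hL hX, fun x hx => h.2.1 _ (hL x hx), fun x hx => h.2.2 _ (hL x hx)⟩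

theorem pm_pf (j : B ⟶ Y) [Mono j] {X : Set (Om Y)} {X' : Set (Om B)} {f : Cell B K k}
    (hf : PM X' univ f) (hX : ∀ m b, (⟨m, j.app m b⟩ : Om Y) ∈ X → (⟨m, b⟩ : Om B) ∈ X') :
    PM X (rng j) (pf j f) := by
  refine ⟨rng_ind j fun m b m' φ t => ?_, fun x hx => ?_⟩
  · dsimp only
    rw [← NatTrans.naturality_apply j φ b, pf_apply, pf_apply]
    exact hf.1 ⟨m, b⟩ trivial m' φ t
  · by_cases h : x ∈ rng j
    · revert hx
      refine rng_ind j (P := fun x => x ∈ X → pf j f x = triv x) (fun m b hx => ?_) x h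
      rw [pf_apply]
      exact hf.2 _ (hX m b hx)
    · exact dif_neg h

theorem edge_pf (j : B ⟶ Y) [Mono j] {X : Set (Om Y)} {X' : Set (Om B)} {H : Cell B K 1}
    {f g : Cell Y K 0} (h : Edge X' univ H (pb j f) (pb j g))
    (hX : ∀ m b, (⟨m, j.app m b⟩ : Om Y) ∈ X → (⟨m, b⟩ : Om B) ∈ X') :
    Edge X (rng j) (pf j H) f g := by
  obtain ⟨h1, h2, h3⟩ := edge_iff.1 h
  refine edge_iff.2 ⟨pm_pf j h1 hX, rng_ind j fun m b => ?_, rng_ind j fun m b => ?_⟩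
  · rw [pf_apply]; exact h2 ⟨m, b⟩ trivial
  · rw [pf_apply]; exact h3 ⟨m, b⟩ trivial

theorem P0_sub_rng {A C : PKan} (i : A ⟶ C) : P0 C ⊆ rng i.1 :=
  fun x hx => ⟨bp A x.1, (app_bp i x.1).trans (show x.2 = _ from hx).symm⟩

theorem P0_back {A C : PKan} (i : A ⟶ C) [Mono i.1] (m : SimplexCategoryᵒᵖ) (b : A.X.obj m)
    (h : (⟨m, i.1.app m b⟩ : Om C.X) ∈ P0 C) : (⟨m, b⟩ : Om A.X) ∈ P0 A :=
  (mono_iff_injective (i.1.app m)).1 inferInstance (Eq.trans h (app_bp i m).symm)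

/-- `T` has the extension property for all acyclic pairs. -/
def ExtAll (E : OmegaSpectrum) (T : PKan) : Prop :=
  ∀ (Y : SSet.{0}) (A : Set (Om Y)), Cl A → (∀ n, Acy (E.E n) A univ) → Ext0 ∅ T A univ

theorem extAll_E (E : OmegaSpectrum) (n : ℤ) : ExtAll E (E.E n) := fun _ _ hA h =>
  ext_of_acy E cl_empty hA cl_univ (empty_subset _) (subset_univ _) h n

theorem bij_of_acy (E : OmegaSpectrum) {A C T : PKan} (i : A ⟶ C) [Mono i.1]
    (h : ∀ n, Acy (E.E n) (rng i.1) univ) (hT : ExtAll E T) :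
    Function.Bijective (fun f : toHo.obj C ⟶ toHo.obj T => toHo.map i ≫ f) := by
  constructor
  · intro f g hfg
    obtain ⟨f, rfl⟩ := toHo.map_surjective f
    obtain ⟨g, rfl⟩ := toHo.map_surjective g
    have h1 : Homotopic (i ≫ f) (i ≫ g) := (toHo_eq_iff _ _).1 (by
      rw [Functor.map_comp, Functor.map_comp]; exact hfg)
    obtain ⟨H, hH⟩ := (homotopic_iff _ _).1 h1
    have h2 : Edge (P0 C) (rng i.1) (pf i.1 H) (cell0 f.1) (cell0 g.1) :=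
      edge_pf i.1 hH (P0_back i)
    obtain ⟨H', h3, h4⟩ := edge_ext (cl_rng _) (hT _ _ (cl_prodSet (cl_rng _))
      (acy_prod E (cl_rng _) h)) (natl_cell0 _ _) (natl_cell0 _ _) (h2.weaken (empty_subset _))
    exact (toHo_eq_iff _ _).2 ((homotopic_iff _ _).2
      ⟨H', ⟨h3.1.1, (h4.mono (P0_sub_rng i)).trans h2.1.2⟩, h3.2⟩)
  · intro f
    obtain ⟨f, rfl⟩ := toHo.map_surjective f
    have h2 : PM (P0 C) (rng i.1) (pf i.1 (cell0 f.1)) := pm_pf i.1 (pm_cell0 f _) (P0_back i)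
    obtain ⟨f', h3, h4⟩ := hT _ _ (cl_rng _) h _ (h2.weaken (empty_subset _))
    refine ⟨toHo.map (phom f' ⟨h3.1, (h4.mono (P0_sub_rng i)).trans h2.2⟩), ?_⟩
    dsimp only
    rw [← Functor.map_comp]
    congr 1
    refine Subtype.ext (sext fun m a => ?_)
    exact congrFun ((h4 ⟨m, i.1.app m a⟩ ⟨a, rfl⟩).trans (pf_apply _ _ m a)) default

theorem acy_of_bij (E : OmegaSpectrum) {A C : PKan} (i : A ⟶ C) [Mono i.1]
    (h : ∀ n, Function.Bijective (fun f : toHo.obj C ⟶ toHo.obj (E.E n) => toHo.map i ≫ f))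
    (n : ℤ) : Acy (E.E n) (rng i.1) univ := by
  obtain ⟨m, rfl⟩ : ∃ m, n = m + 1 := ⟨n - 1, by ring⟩
  intro g hg
  have hg' := hg.weaken (P0_sub_rng i)
  have h1 : toHo.map (phom g hg') = toHo.map (phom triv (pm_triv _)) := (h _).1 (by
    dsimp only
    rw [← Functor.map_comp, ← Functor.map_comp]
    congr 1
    exact Subtype.ext (sext fun m a => congrFun (hg.2 ⟨m, i.1.app m a⟩ ⟨a, rfl⟩) default))
  obtain ⟨H, hH⟩ := (homotopic_iff _ _).1 ((toHo_eq_iff _ _).1 h1)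
  have hH' : Edge (P0 C) univ H g triv := hH.congr (fun x _ => congrFun (cell0_hom0 g hg'.1) x)
    (fun _ _ => rfl)
  have hext : Ext0 (P0 C) (E.E m) (rng i.1) univ := by
    intro f hf
    have hf' : PM (P0 A) univ (pb i.1 f) := pm_pb i.1 hf (fun x _ => ⟨x.2, rfl⟩) (fun x hx => by
      change i.1.app x.1 x.2 = bp C x.1
      rw [show x.2 = bp A x.1 from hx, app_bp])
    obtain ⟨u, hu⟩ := (h m).2 (toHo.map (phom _ hf'))
    obtain ⟨u, rfl⟩ := toHo.map_surjective u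
    obtain ⟨G, hG⟩ := (homotopic_iff _ _).1 ((toHo_eq_iff (i ≫ u) (phom _ hf')).1 (by
      rw [Functor.map_comp]; exact hu))
    have hG' : Edge (P0 C) (rng i.1) (pf i.1 G) (cell0 u.1) f :=
      edge_pf i.1 (hG.congr (fun _ _ => rfl) (fun x _ => congrFun (cell0_hom0 _ hf'.1) x))
        (P0_back i)
    obtain ⟨_, f', -, -, h2, h3⟩ := hep0 (cl_P0 C) (cl_rng _) cl_univ (subset_univ _)
      (pm_cell0 u _) hG'
    exact ⟨f', h2, h3⟩
  obtain ⟨H', h2, h3⟩ := lemC (cl_P0 C) (cl_rng _) cl_univ (subset_univ _)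
    (lext_of_ext E (cl_P0 C) (cl_rng _) cl_univ (subset_univ _) hext) hH'
    ((edge_triv _).congr hg.2.symm (Agree.refl _ _))
  exact ⟨H', ⟨h2.1.1, h3⟩, h2.2⟩

/-- The morphism on a subcomplex given by a natural cell. -/
noncomputable def toHom0 {L : Set (Om Y)} (hL : Cl L) (f : Cell Y K 0) (hf : Natl L f) :
    (toSub L hL : SSet.{0}) ⟶ K.X where
  app m := ↾fun y => f ⟨m, y.1⟩ default
  naturality m m' φ := by
    ext y
    exact natl_default hf (x := ⟨m, y.1⟩) y.2 φ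

theorem lift_iff {A : Set (Om Y)} (hA : Cl A) :
    HasLiftingProperty (toSub A hA).ι (Limits.terminal.from K.X) ↔ Ext0 ∅ K A univ := by
  constructor
  · intro h f hf
    have sq : CommSq (toHom0 hA f hf.1) (toSub A hA).ι (Limits.terminal.from K.X)
      (Limits.terminal.from Y) := ⟨by simp⟩
    refine ⟨cell0 sq.lift, ⟨natl_cell0 _ _, agree_empty _ _⟩, fun x hx => funext fun t => ?_⟩
    exact (sapp sq.fac_left x.1 ⟨x.2, hx⟩).trans (congrArg (f x) (Subsingleton.elim _ _))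
  · intro h
    refine ⟨fun {a b} sq => ?_⟩
    have hpm : PM ∅ (rng (toSub A hA).ι) (pf (toSub A hA).ι (cell0 (K := K) a)) :=
      pm_pf _ (X' := ∅) ⟨natl_cell0 _ _, agree_empty _ _⟩ fun _ _ h => h
    obtain ⟨f, h1, h2⟩ := h _ (hpm.mono fun x hx => ⟨⟨x.2, hx⟩, rfl⟩)
    exact ⟨⟨{ l := hom0 f h1.1
              fac_left := sext fun m y => congrFun ((h2 ⟨m, y.1⟩ y.2).trans
                (pf_apply (toSub A hA).ι (cell0 (K := K) a) m y)) default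
              fac_right := by subsingleton }⟩⟩

theorem iso_of_rlp {Z C : PKan} (q : Z ⟶ C)
    (hq : (MorphismProperty.monomorphisms SSet.{0}).rlp q.1) : IsIso (toHo.map q) := by
  have hm : Mono (SSet.const C.pt : Δ[0] ⟶ C.X) := SSet.stdSimplex.isTerminalObj₀.mono_from _
  have := hq _ hm
  have sq : CommSq (SSet.const Z.pt : Δ[0] ⟶ Z.X) (SSet.const C.pt) q.1 (𝟙 _) :=
    ⟨by rw [SSet.const_comp, q.2, Category.comp_id]⟩
  let s : C ⟶ Z := ⟨sq.lift, by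
    have h := sapp sq.fac_left (op ⦋0⦌) default
    exact (congrArg _ (bp_zero C).symm).trans (h.trans (bp_zero Z))⟩
  have hs : s ≫ q = 𝟙 _ := Subtype.ext sq.fac_right
  have h0 : Edge ∅ (P0 Z) triv (cell0 (q ≫ s).1) (cell0 (𝟙 Z : Z ⟶ Z).1) :=
    (edge_triv _).congr (pm_cell0 (q ≫ s) ∅).2.symm (pm_cell0 (𝟙 Z) ∅).2.symm
  obtain ⟨φ, h1, h2, h3, h4⟩ := exists_cyl (cl_P0 Z) (natl_cell0 _ _) (natl_cell0 _ _) h0
  have hcl := cl_prodSet (cl_P0 Z)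
  have := hq (toSub _ hcl).ι (inferInstanceAs (Mono _))
  have sq' : CommSq (toHom0 hcl φ h1.1) (toSub _ hcl).ι q.1
      (CartesianMonoidalCategory.snd _ _ ≫ q.1) := ⟨sext fun m y => by
    obtain ⟨⟨a, z⟩, hy | hy⟩ := y
    · exact congrArg (q.1.app m) ((h4 ⟨m, z⟩ hy a).trans (Eq.symm hy))
    · rcases (mem_bdry a).1 hy with rfl | rfl
      · exact (congrArg (q.1.app m) (h2 ⟨m, z⟩)).trans (sapp sq.fac_right m _)
      · exact congrArg (q.1.app m) (h3 ⟨m, z⟩)⟩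
  obtain ⟨H, h5, h6⟩ := edge_of_cyl (φ := φ) (ψ := cell0 (K := Z) sq'.lift) (natl_cell0 _ _)
    (fun x hx => funext fun t => (sapp sq'.fac_left x.1 ⟨x.2, hx⟩).trans
      (congrArg (φ x) (Subsingleton.elim default t))) h2 h3 h4
  refine ⟨toHo.map s, ?_, ?_⟩
  · rw [← Functor.map_comp, ← toHo.map_id, toHo_eq_iff, homotopic_iff]
    exact ⟨H, ⟨h5.1.1, h6⟩, h5.2⟩
  · rw [← Functor.map_comp, hs, toHo.map_id]

end Pool.Agent.MP_e99f36_lc.H71
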