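import Pool.Agent.MP_e99f36_lc.H71.Loc1

/-! The small object argument and the construction of the localization. -/

open CategoryTheory MonoidalCategory Simplicial Opposite Set Cardinal MorphismProperty

namespace Pool.Agent.MP_e99f36_lc.H71

theorem presentable_sset (X : SSet.{0}) : IsPresentable.{0} X := by
  have : Fact (ℵ₀ : Cardinal.{0}).IsRegular := ⟨isRegular_aleph0⟩
  have : IsLocallyPresentable.{0} (Type) := ⟨ℵ₀, inferInstance, inferInstance⟩
  have : IsLocallyPresentable.{0} SSet.{0} :=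
    inferInstanceAs (IsLocallyPresentable.{0} (SimplexCategoryᵒᵖ ⥤ Type))
  infer_instance

theorem hasSOA {T : Type} {A B : T → SSet.{0}} (f : ∀ p, A p ⟶ B p) :
    HasSmallObjectArgument.{0} (ofHoms f) := by
  have h : ∀ p, ∃ (κ : Cardinal.{0}) (_ : Fact κ.IsRegular), IsCardinalPresentable (A p) κ :=
    fun p => (presentable_sset (A p)).exists_cardinal
  choose κ hκ hp using h
  let μ : Cardinal.{0} := Order.succ (max ℵ₀ (Cardinal.sum κ))
  have hμ : Fact μ.IsRegular := ⟨isRegular_succ (le_max_left _ _)⟩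
  have hle : ∀ p, κ p ≤ μ := fun p =>
    ((Cardinal.le_sum κ p).trans (le_max_right _ _)).trans (Order.le_succ _)
  have hne : Nonempty μ.ord.ToType := by
    rw [Ordinal.nonempty_toType_iff]
    exact hμ.out.ord_pos.ne'
  let _ : OrderBot μ.ord.ToType := WellFoundedLT.toOrderBot _
  refine ⟨μ, hμ, inferInstance, { isSmall := isSmall_ofHoms .., preservesColimit := ?_ }⟩
  rintro _ _ X Y _ ⟨p⟩ g hg
  have := hκ p
  have := hp p
  have := isCardinalPresentable_of_le (A p) (hle p)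
  have := preservesColimitsOfShape_of_isCardinalPresentable (A p) μ μ.ord.ToType
  infer_instance

theorem llp_le_mono (I : MorphismProperty SSet.{0}) [HasSmallObjectArgument.{0} I]
    (h : I ≤ monomorphisms _) : I.rlp.llp ≤ monomorphisms _ := by
  rw [llp_rlp_of_hasSmallObjectArgument, retracts_le_iff, transfiniteCompositions_le_iff,
    pushouts_le_iff, coproducts_le_iff]
  exact h

theorem exists_fact (I : MorphismProperty SSet.{0}) [HasSmallObjectArgument.{0} I]
    {X Y : SSet.{0}} (f : X ⟶ Y) :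
    ∃ (Z : SSet.{0}) (i : X ⟶ Z) (p : Z ⟶ Y), i ≫ p = f ∧ I.rlp.llp i ∧ I.rlp p :=
  let d := factorizationData I.rlp.llp I.rlp f
  ⟨d.Z, d.i, d.p, d.fac, d.hi, d.hp⟩

/-- A simplicial set whose simplices are elements of `T`. -/
structure SOn (T : Type) : Type where
  obj : SimplexCategoryᵒᵖ → Set T
  map : ∀ {m m' : SimplexCategoryᵒᵖ}, (m ⟶ m') → obj m → obj m'
  map_id : ∀ m (x : obj m), map (𝟙 m) x = x
  map_comp : ∀ {m m' m'' : SimplexCategoryᵒᵖ} (φ : m ⟶ m') (ψ : m' ⟶ m'') (x : obj m),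
    map (φ ≫ ψ) x = map ψ (map φ x)

/-- The underlying simplicial set. -/
def SOn.toS {T : Type} (B : SOn T) : SSet.{0} where
  obj m := B.obj m
  map φ := ↾(B.map φ)
  map_id m := by
    ext x : 3
    exact B.map_id m x
  map_comp φ ψ := by
    ext x : 3
    exact B.map_comp φ ψ x

theorem exists_model {Y : SSet.{0}} {M : Set (Om Y)} (hM : Cl M) {T : Type} (h : #M ≤ #T) :
    ∃ (B : SOn T) (j : B.toS ⟶ Y), Mono j ∧ rng j = M := by
  obtain ⟨e⟩ := h
  let S : SSet.{0} := toSub M hM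
  let u : ∀ m, S.obj m → T := fun m y => e ⟨⟨m, y.1⟩, y.2⟩
  have hu : ∀ m, Function.Injective (u m) := fun m y y' h =>
    Subtype.ext (eq_of_heq (Sigma.mk.inj (congrArg Subtype.val (e.injective h))).2)
  have q : ∀ m, S.obj m ≃ range (u m) := fun m => Equiv.ofInjective _ (hu m)
  let B : SOn T := ⟨fun m => range (u m), fun φ t => q _ (S.map φ ((q _).symm t)),
    fun m x => by simp, fun φ ψ x => by simp⟩
  let j : B.toS ⟶ Y := ⟨fun m => ↾fun t => ((q m).symm t).1, fun m m' φ => by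
    ext t
    exact congrArg Subtype.val ((q m').symm_apply_apply (S.map φ ((q m).symm t)))⟩
  refine ⟨B, j, ?_, ?_⟩
  · have : ∀ m, Mono (j.app m) := fun m => (mono_iff_injective _).2 fun a b h =>
      (q m).symm.injective (Subtype.ext h)
    exact NatTrans.mono_of_mono_app j
  · ext x
    constructor
    · revert x
      exact rng_ind j fun m b => ((q m).symm b).2
    · intro hx
      exact ⟨q x.1 ⟨x.2, hx⟩, congrArg Subtype.val ((q x.1).symm_apply_apply ⟨x.2, hx⟩)⟩

variable (E : OmegaSpectrum)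

/-- `W` has the extension property for acyclic pairs with simplices in `T`. -/
def ExtOn (T : Type) (W : PKan) : Prop :=
  ∀ (B : SOn T) (A : Set (Om B.toS)), Cl A → (∀ n, Acy (E.E n) A univ) → Ext0 ∅ W A univ

theorem ext_small {T : Type} {W : PKan} (hW : ExtOn E T W) {Y : SSet.{0}} {L M : Set (Om Y)}
    (h1 : Cl L) (hM1 : Cl M) (hM3 : #M ≤ #T) (hac : ∀ n, Acy (E.E n) L (L ∪ M)) :
    Ext0 ∅ W L (L ∪ M) := by
  intro g h4
  obtain ⟨B, j, hj, rfl⟩ := exists_model hM1 hM3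
  let A' : Set (Om B.toS) := {x | (⟨x.1, j.app x.1 x.2⟩ : Om Y) ∈ L}
  have hA' : Cl A' := fun x hx m φ => by
    change (⟨m, j.app m (B.toS.map φ x.2)⟩ : Om Y) ∈ L
    rw [NatTrans.naturality_apply j φ x.2]
    exact h1 _ hx m φ
  obtain ⟨g', hg1, hg2⟩ := hW B A' hA' (fun n z hz => by
    have hz' : PM L (rng j) (pf j z) := pm_pf j hz fun _ _ h => h
    obtain ⟨H, hH⟩ := hac n (pf j z) ⟨(hz'.natl h1).mono (union_comm _ _).subset, hz'.2⟩
    exact ⟨pb j H, (edge_pb j hH (fun x _ => Or.inr ⟨x.2, rfl⟩) (fun x hx => hx)).congr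
      (fun x _ => pf_apply j z x.1 x.2) (fun _ _ => rfl)⟩) (pb j g)
    (pm_pb j h4 (fun x hx => hx) (fun _ h => h.elim))
  have hag : Agree (L ∩ rng j) g (pf j g') := by
    rintro x ⟨hx, hx'⟩
    revert hx
    refine rng_ind j (P := fun x => x ∈ L → g x = pf j g' x) (fun m b hx => ?_) x hx'
    rw [pf_apply]
    exact (hg2 ⟨m, b⟩ hx).symm
  exact ⟨glue L g (pf j g'), h4.glue h1 hM1 (pm_pf j hg1 fun _ _ h => h) hag, glue_left L _ _⟩

theorem extAll_of_small {lam : Cardinal.{0}} (h0 : ℵ₀ ≤ lam) (hb : Bounded E lam) {W : PKan}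
    (hW : ExtOn E lam.out W) : ExtAll E W := by
  intro Y A hA hac f hf
  obtain ⟨c, hc, hcA⟩ := hb Y A hA hac
  obtain ⟨L, g, ⟨h1, h2, h3, h4⟩, -, h5, hmax⟩ := zorn_pf (V := fun x : Om Y =>
    (Δ[0] : SSet.{0}).obj x.1 → W.X.obj x.1)
    (fun L g => Cl L ∧ A ⊆ L ∧ Cld A c L ∧ PM ∅ L g) A f
    ⟨hA, subset_rfl, fun y hy hy' => (hy' hy).elim, hf⟩ (fun ι _ L g hg _ f h1 h2 =>
      ⟨Cl.iUnion fun i => (hg i).1, (hg (Classical.arbitrary ι)).2.1.trans (subset_iUnion _ _),
        fun y hy hy' => by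
          obtain ⟨i, hi⟩ := mem_iUnion.1 hy
          exact ((hg i).2.2.1 y hi hy').trans (subset_iUnion _ _),
        pm_iUnion (fun i => (hg i).1) (fun i => (hg i).2.2.2) h1 h2⟩)
  suffices hL : L = Set.univ from ⟨g, hL ▸ h4, h5⟩
  refine eq_univ_of_forall fun y => ?_
  let F : List (Om Y) → Set (Om Y) := fun l => ⋃ x : {x // x ∈ l}, gen {x.1} ∪ c x.1
  have hF : ∀ l, #(F l) ≤ lam := by
    intro l
    refine mk_iUnion_le_sum_mk.trans ?_
    refine (sum_le_sum _ (fun _ => lam) (fun x => (mk_union_le _ _).trans (add_le_of_le h0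
      ((gen_countable (countable_singleton _)).le_aleph0.trans h0) (hc _)))).trans ?_
    have : #{x // x ∈ l} ≤ lam := (List.finite_toSet l).countable.le_aleph0.trans h0
    simpa using mul_le_of_le h0 this le_rfl
  obtain ⟨M, hyM, hM1, hM2, hM3⟩ : ∃ M : Set (Om Y), y ∈ M ∧ Cl M ∧ (∀ x ∈ M, c x ⊆ M) ∧
      #M ≤ lam := by
    have hcl : ∀ x ∈ clo F {y}, gen {x} ∪ c x ⊆ clo F {y} := fun x hx =>
      (subset_iUnion (fun z : {z // z ∈ [x]} => gen {z.1} ∪ c z.1)
        ⟨x, List.mem_singleton_self x⟩).trans (clo_closed F {y} [x] (by simpa using hx))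
    exact ⟨clo F {y}, subset_clo F _ rfl, fun x hx m φ => hcl x hx (Or.inl ⟨x, rfl, m, φ, rfl⟩),
      fun x hx => subset_union_right.trans (hcl x hx),
      mk_clo_le F _ h0 hF (by simpa using one_le_aleph0.trans h0)⟩
  have hcld : Cld A c (L ∪ M) := fun x hx hx' => hx.elim
    (fun h => (h3 x h hx').trans subset_union_left) (fun h => (hM2 x h).trans subset_union_right)
  obtain ⟨g', hg1, hg2⟩ := ext_small E hW h1 hM1 (by rwa [mk_out])
    (hcA L (L ∪ M) h1 (h1.union hM1) h2 subset_union_left h3 hcld) g h4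
  exact hmax (L ∪ M) g' ⟨h1.union hM1, h2.trans subset_union_left, hcld, hg1⟩
    subset_union_left hg2 (Or.inr hyM)

theorem toSub_prodSet {Y : SSet.{0}} {A : Set (Om Y)} (hA : Cl A) :
    toSub (prodSet A) (cl_prodSet hA) = (SSet.boundary 1).unionProd (toSub A hA) := by
  ext m x
  exact (SSet.Subcomplex.mem_unionProd_iff (SSet.boundary 1) (toSub A hA) x).symm

theorem lift_pre_iff {Y : SSet.{0}} {A : Set (Om Y)} (hA : Cl A) (K : PKan) :
    HasLiftingProperty (toSub A hA).ι ((MonoidalClosed.pre (SSet.boundary 1).ι).app K.X) ↔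
      Ext0 ∅ K (prodSet A) univ := by
  rw [← lift_iff (cl_prodSet hA), toSub_prodSet hA]
  exact (MonoidalClosed.internalHomAdjunction₂.hasLiftingProperty_iff
    (SSet.Subcomplex.unionProd.pushoutObjObj (SSet.boundary 1) (toSub A hA))
    (Functor.PullbackObjObj.ofIsTerminal MonoidalClosed.internalHom (SSet.boundary 1).ι
      (Limits.terminal.from K.X) Limits.terminalIsTerminal)).symm

theorem lift_rng {X Y Z W : SSet.{0}} (i : X ⟶ Y) [Mono i] (p : Z ⟶ W) [HasLiftingProperty i p] :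
    HasLiftingProperty (toSub (rng i) (cl_rng i)).ι p := by
  have e : toSub (rng i) (cl_rng i) = SSet.Subcomplex.range i := by
    ext m x
    rfl
  rw [e]
  exact HasLiftingProperty.of_arrow_iso_left (i := i)
    (Arrow.isoMk' _ _ (asIso (SSet.Subcomplex.toRange i)) (Iso.refl _)
      (Category.comp_id _).symm) p

open SSet.modelCategoryQuillen in
theorem exists_fibrant {T : Type} (hT : ∀ W, ExtOn E T W → ExtAll E W) (X : PKan) :
    ∃ (W : PKan) (i : X ⟶ W), Mono i.1 ∧ (∀ n, Acy (E.E n) (rng i.1) univ) ∧ ExtAll E W := by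
  let G : Type := Σ B : SOn T, {A : Set (Om B.toS) // Cl A ∧ ∀ n, Acy (E.E n) A univ}
  let H : Type := Σ n : ℕ, Fin (n + 2)
  let tg : G ⊕ H → SSet.{0} := fun p => match p with
    | .inl p => p.1.toS
    | .inr p => Δ[p.1 + 1]
  let sb : ∀ p, (tg p).Subcomplex := fun p => match p with
    | .inl p => toSub p.2.1 p.2.2.1
    | .inr p => SSet.horn (p.1 + 1) p.2
  let I : MorphismProperty SSet.{0} := ofHoms fun p => (sb p).ι
  have : HasSmallObjectArgument.{0} I := hasSOA _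
  obtain ⟨Z, i, p, -, hi, hp⟩ := exists_fact I (Limits.terminal.from X.X)
  obtain rfl : p = Limits.terminal.from Z := Subsingleton.elim _ _
  have hK : SSet.KanComplex Z := (fibration_iff _).2 fun _ _ _ h => by
    simp only [J, iSup_iff] at h
    obtain ⟨n, ⟨k⟩⟩ := h
    exact hp _ (ofHoms.mk (Sum.inr ⟨n, k⟩ : G ⊕ H))
  have hm : Mono i := llp_le_mono I (by
    rintro _ _ _ ⟨q⟩
    exact monomorphisms.infer_property _) _ hi
  refine ⟨⟨Z, i.app _ X.pt, hK⟩, ⟨i, rfl⟩, hm, fun n => ?_, hT _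
    fun B A hA hac => (lift_iff hA).1 (hp _ (ofHoms.mk (Sum.inl ⟨B, A, hA, hac⟩ : G ⊕ H)))⟩
  have hK' := (E.E n).kan
  have : HasLiftingProperty i ((MonoidalClosed.pre (SSet.boundary 1).ι).app (E.E n).X) :=
    hi _ (by
      rintro _ _ _ ⟨q | q⟩
      · exact (lift_pre_iff q.2.2.1 _).2 (extAll_E E n _ _ (cl_prodSet q.2.2.1)
          (acy_prod E q.2.2.1 q.2.2.2))
      · exact inferInstanceAs (HasLiftingProperty (SSet.horn (q.1 + 1) q.2).ι _))
  exact acy_of_ext (cl_rng i) ((lift_pre_iff (cl_rng i) _).1 (lift_rng i _))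

open SSet.modelCategoryQuillen in
theorem local_of_extAll {W : PKan} (hW : ExtAll E W) : IsCohLocal E (toHo.obj W) := by
  rintro ⟨Y⟩ ⟨Y'⟩ g hg
  obtain ⟨g, rfl⟩ := toHo.map_surjective (X := Y) (Y := Y') g
  have : HasSmallObjectArgument.{0} I.{0} := hasSOA _
  obtain ⟨Z, i, q, hf, hi, hq⟩ := exists_fact I.{0} g.1
  rw [← SSet.rlp_monomorphisms] at hq
  have hm : Mono i := llp_le_mono _ I_le_monomorphisms _ hi
  have hfib : HomotopicalAlgebra.Fibration q :=
    (fibration_iff _).2 (antitone_rlp J_le_monomorphisms _ hq)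
  have := Y'.kan
  let Z' : PKan := ⟨Z, i.app _ Y.pt, HomotopicalAlgebra.isFibrant_of_fibration q⟩
  let i' : Y ⟶ Z' := ⟨i, rfl⟩
  let q' : Z' ⟶ Y' := ⟨q, (sapp hf _ _).trans g.2⟩
  have hfac : toHo.map g = toHo.map i' ≫ toHo.map q' := by
    rw [← Functor.map_comp]
    exact congrArg _ (Subtype.ext hf.symm)
  have hiso : IsIso (toHo.map q') := iso_of_rlp q' hq
  have hm' : Mono i'.1 := hm
  have key : ∀ T : Ho, (fun f : toHo.obj Y' ⟶ T => toHo.map g ≫ f) =
      (fun f : toHo.obj Z' ⟶ T => toHo.map i' ≫ f) ∘ fun f => toHo.map q' ≫ f := fun T => by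
    funext f
    simp [hfac]
  have hq' : ∀ T : Ho, Function.Bijective (fun f : toHo.obj Y' ⟶ T => toHo.map q' ≫ f) :=
    fun T => ((asIso (toHo.map q')).homFromEquiv (Z := T)).symm.bijective
  have hac := acy_of_bij E i' fun n => (Function.Bijective.of_comp_iff _ (hq' _)).1
    (key _ ▸ hg n)
  exact key _ ▸ (bij_of_acy E i' hac hW).comp (hq' _)

theorem exists_localization {C : Type*} [Category C] (P : MorphismProperty C) (Q : C → Prop)
    (hQ : ∀ W, Q W → ∀ ⦃Y Y' : C⦄ (g : Y ⟶ Y'), P g →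
      Function.Bijective (fun f : Y' ⟶ W => g ≫ f))
    (h : ∀ X, ∃ (W : C) (i : X ⟶ W), P i ∧ Q W) :
    ∃ (L : C ⥤ C) (η : 𝟭 C ⟶ L), ∀ X, P (η.app X) ∧ Q (L.obj X) := by
  choose W i hi hW using h
  have hb : ∀ X Y, Function.Bijective (fun f : W X ⟶ W Y => i X ≫ f) :=
    fun X Y => hQ _ (hW Y) _ (hi X)
  have hs : ∀ X Y (f : X ⟶ Y), ∃ u : W X ⟶ W Y, i X ≫ u = f ≫ i Y :=
    fun X Y f => (hb X Y).2 (f ≫ i Y)
  choose m hm using hs
  exact ⟨{ obj := W
           map := fun f => m _ _ f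
           map_id := fun X => (hb X X).1 ((hm _ _ _).trans (by simp))
           map_comp := fun f g => (hb _ _).1 ((hm _ _ _).trans (by
             dsimp only
             rw [reassoc_of% (hm _ _ f), hm _ _ g, Category.assoc])) },
    { app := i, naturality := fun X Y f => (hm _ _ f).symm }, fun X => ⟨hi X, hW X⟩⟩

theorem cl_of_gen (h : ∀ E : OmegaSpectrum, ∃ T : Type, ∀ W, ExtOn E T W → ExtAll E W) : CL := by
  intro E
  obtain ⟨T, hT⟩ := h E
  refine exists_localization (fun _ _ g => IsCohEquiv E g) (IsCohLocal E) (fun _ h => h) ?_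
  rintro ⟨X⟩
  obtain ⟨W, i, hm, hac, hW⟩ := exists_fibrant E hT X
  exact ⟨toHo.obj W, toHo.map i, fun n => bij_of_acy E i hac (extAll_E E n),
    local_of_extAll E hW⟩

theorem cl_of_bounded (h : ∀ E : OmegaSpectrum, ∃ lam, ℵ₀ ≤ lam ∧ Bounded E lam) : CL :=
  cl_of_gen fun E => by
    obtain ⟨lam, h0, hb⟩ := h E
    exact ⟨lam.out, fun W hW => extAll_of_small E h0 hb hW⟩

end Pool.Agent.MP_e99f36_lc.H71
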