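import Pool.Agent.MP_e99f36_lc.H71.Loc2

/-! Cohomological localization from strongly compact cardinals. -/

open CategoryTheory MonoidalCategory Simplicial Opposite Set Cardinal

namespace Pool.Agent.MP_e99f36_lc.H71

variable {Y : SSet.{0}} {K : PKan} {k : ℕ}

/-- Every proper `κ`-complete filter extends to a `δ`-complete ultrafilter. -/
def UExt (κ δ : Cardinal.{0}) : Prop :=
  ∀ (I : Type) (F : Filter I), F.NeBot → CardinalInterFilter F κ →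
    ∃ U : Ultrafilter I, (U : Filter I) ≤ F ∧ CardinalInterFilter (U : Filter I) δ

theorem ext_ultra {κ δ : Cardinal.{0}} (hU : UExt κ δ) (hκ : ℵ₀ ≤ κ)
    (hK : ∀ m, #((Δ[k] : SSet.{0}).obj m → K.X.obj m) < δ)
    (Q : ∀ x : Om Y, ((Δ[k] : SSet.{0}).obj x.1 → K.X.obj x.1) → Prop) {L B : Set (Om Y)}
    {g : Cell Y K k} (h : ∀ Z : Set (Om Y), #Z ≤ κ →
      ∃ g', (PM L (gen Z) g' ∧ ∀ x ∈ gen Z, Q x (g' x)) ∧ Agree B g' g) :
    ∃ g', (PM L univ g' ∧ ∀ x, Q x (g' x)) ∧ Agree B g' g := by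
  let I := {Z : Set (Om Y) // #Z ≤ κ}
  let F : Filter I := ⟨{S | ∃ Z0 : I, ∀ Z : I, Z0.1 ⊆ Z.1 → Z ∈ S},
    ⟨⟨∅, by simp⟩, fun _ _ => trivial⟩, fun ⟨Z0, h0⟩ h1 => ⟨Z0, fun Z hZ => h1 (h0 Z hZ)⟩,
    fun ⟨Z0, h0⟩ ⟨Z1, h1⟩ => ⟨⟨Z0.1 ∪ Z1.1, (mk_union_le _ _).trans (add_le_of_le hκ Z0.2 Z1.2)⟩,
      fun Z hZ => ⟨h0 Z (subset_union_left.trans hZ), h1 Z (subset_union_right.trans hZ)⟩⟩⟩
  obtain ⟨U, hUF, hUc⟩ := hU I F ⟨fun h0 => by
    obtain ⟨Z0, h1⟩ : (∅ : Set I) ∈ F := h0 ▸ Filter.mem_bot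
    exact h1 Z0 subset_rfl⟩ ⟨fun S hS h0 => by
    choose Z0 hZ0 using fun s : S => h0 s.1 s.2
    refine ⟨⟨⋃ s, (Z0 s).1, mk_iUnion_le_sum_mk.trans ((sum_le_sum _ (fun _ => κ)
      fun s => (Z0 s).2).trans ?_)⟩, fun Z hZ s hs =>
      hZ0 ⟨s, hs⟩ Z ((subset_iUnion (fun s => (Z0 s).1) _).trans hZ)⟩
    simpa using mul_le_of_le hκ hS.le le_rfl⟩
  choose G hG hGB using fun Z : I => h Z.1 Z.2
  have hv : ∀ x : Om Y, ∃ v, {Z | G Z x = v} ∈ U := by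
    intro x
    by_contra hn
    push Not at hn
    have := (Filter.cardinal_iInter_mem (l := (U : Filter I)) (c := δ)
      (s := fun v => {Z | G Z x = v}ᶜ) (hK x.1)).2 fun v => Ultrafilter.compl_mem_iff_notMem.2 (hn v)
    obtain ⟨Z, hZ⟩ := Filter.nonempty_of_mem this
    exact mem_iInter.1 hZ (G Z x) rfl
  choose f hf using hv
  have hx : ∀ x : Om Y, Set.ofPred (fun Z : I => x ∈ gen Z.1) ∈ U := fun x =>
    hUF ⟨⟨{x}, by simpa using one_le_aleph0.trans hκ⟩, fun Z hZ => subset_gen _ (hZ rfl)⟩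
  refine ⟨f, ⟨⟨fun x _ m φ t => ?_, fun x hx => ?_⟩, fun x => ?_⟩, fun x hx => ?_⟩
  · obtain ⟨Z, ⟨h1, h2⟩, h3⟩ := Filter.nonempty_of_mem
      (Filter.inter_mem (Filter.inter_mem (hf x) (hf ⟨m, Y.map φ x.2⟩)) (hx x))
    rw [← show G Z x = f x from h1, ← show G Z ⟨m, Y.map φ x.2⟩ = f _ from h2]
    exact (hG Z).1.1 x h3 m φ t
  · obtain ⟨Z, h1⟩ := Filter.nonempty_of_mem (hf x)
    exact (Eq.symm h1).trans ((hG Z).1.2 x hx)
  · obtain ⟨Z, h1, h3⟩ := Filter.nonempty_of_mem (Filter.inter_mem (hf x) (hx x))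
    rw [← show G Z x = f x from h1]
    exact (hG Z).2 x h3
  · obtain ⟨Z, h1⟩ := Filter.nonempty_of_mem (hf x)
    exact (Eq.symm h1).trans (hGB Z x hx)

theorem pro_step {κ δ μ : Cardinal.{0}} (hU : UExt κ δ) (hκ : ℵ₀ ≤ κ) (hκμ : κ ≤ μ) (hδ : δ ≤ μ)
    (hK : ∀ m, #((Δ[k] : SSet.{0}).obj m → K.X.obj m) < δ)
    (Q : ∀ x : Om Y, ((Δ[k] : SSet.{0}).obj x.1 → K.X.obj x.1) → Prop) (L : Set (Om Y))
    {M : Set (Om Y)} (hM : #M ≤ μ) : ∃ Z : Set (Om Y), #Z ≤ 2 ^ μ ∧ ∀ g : Cell Y K k,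
      (PM L (gen Z) g ∧ ∀ x ∈ gen Z, Q x (g x)) →
        ∃ g', (PM L univ g' ∧ ∀ x, Q x (g' x)) ∧ Agree M g' g := by
  have hμ := hκ.trans hκμ
  let R := ∀ x : M, (Δ[k] : SSet.{0}).obj x.1.1 → K.X.obj x.1.1
  have h1 : ∀ r : R, ∃ Z : Set (Om Y), #Z ≤ κ ∧ ∀ g : Cell Y K k, (∀ x : M, g x.1 = r x) →
      (PM L (gen Z) g ∧ ∀ x ∈ gen Z, Q x (g x)) →
        ∃ g', (PM L univ g' ∧ ∀ x, Q x (g' x)) ∧ Agree M g' g := by
    intro r
    by_contra hn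
    push Not at hn
    obtain ⟨g0, hg0, -, hg0'⟩ := hn ∅ (by simp)
    obtain ⟨g', h2, h3⟩ := ext_ultra hU hκ hK Q (L := L) (B := M) (g := g0) fun Z hZ => by
      obtain ⟨g, hg, hg', -⟩ := hn Z hZ
      exact ⟨g, hg', fun x hx => (hg ⟨x, hx⟩).trans (hg0 ⟨x, hx⟩).symm⟩
    exact hg0' g' h2 h3
  choose Z hZ hZ' using h1
  have hR : #R ≤ 2 ^ μ := by
    rw [mk_pi]
    refine (prod_le_prod _ (fun _ => μ) fun x => (hK _).le.trans hδ).trans ?_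
    rw [prod_const', ← power_self_eq hμ]
    exact power_le_power_left (aleph0_pos.trans_le hμ).ne' hM
  refine ⟨⋃ r, Z r, mk_iUnion_le_sum_mk.trans ((sum_le_sum _ (fun _ => κ) hZ).trans ?_),
    fun g hg => hZ' (fun x => g x.1) g (fun _ => rfl) ⟨hg.1.mono (gen_mono (subset_iUnion _ _)),
      fun x hx => hg.2 x (gen_mono (subset_iUnion _ _) hx)⟩⟩
  simpa using mul_le_of_le (hμ.trans (cantor μ).le) hR (hκμ.trans (cantor μ).le)

theorem mk_gen_le {μ : Cardinal.{0}} (hμ : ℵ₀ ≤ μ) {Z : Set (Om Y)} (hZ : #Z ≤ μ) :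
    #(gen Z) ≤ μ := by
  have h : gen Z ⊆ ⋃ x : Z, gen {x.1} := by
    rintro _ ⟨x, hx, m, φ, rfl⟩
    exact mem_iUnion.2 ⟨⟨x, hx⟩, x, rfl, m, φ, rfl⟩
  refine (mk_le_mk_of_subset h).trans (mk_iUnion_le_sum_mk.trans ((sum_le_sum _ (fun _ => μ)
    fun x => (gen_countable (countable_singleton _)).le_aleph0.trans hμ).trans ?_))
  simpa using mul_le_of_le hμ hZ le_rfl

theorem lemC3 {X0 : Set (Om Y)} (hX : Cl X0) {L0 L1 L2 : Set (Om Y)} (h0 : Cl L0) (h1 : Cl L1)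
    (h2 : Cl L2) (h01 : L0 ⊆ L1) (h12 : L1 ⊆ L2)
    (h : ∀ e : Cell Y K 1, Edge X0 L1 e triv triv → ∃ e', Edge X0 L2 e' triv triv ∧ Agree L0 e' e)
    {f : Cell Y K 0} {H H'' : Cell Y K 1} (hH : Edge X0 L2 H f triv)
    (hH'' : Edge X0 L1 H'' f triv) : ∃ H', Edge X0 L2 H' f triv ∧ Agree L0 H' H'' := by
  obtain ⟨τ, e, hτ, he, -⟩ := tri0 hX cl_empty h1 (empty_subset _) (hH.mono h12) hH''
    (tri_empty _ triv _)
  obtain ⟨e', he', ha⟩ := h e he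
  obtain ⟨τ', c, -, hc, hc'⟩ := tri1 hX h0 h2 (h01.trans h12) hH he'
    (show Tri X0 L0 τ H e' H'' from ⟨hτ.1.mono h01, hτ.2.1.mono h01,
      (hτ.2.2.1.mono h01).trans ha.symm, hτ.2.2.2.mono h01⟩)
  exact ⟨c, hc, hc'⟩

variable (E : OmegaSpectrum)

/-- Maps and loops on `M'` extend from `M` to everything. -/
def ProZ (L M M' : Set (Om Y)) : Prop := ∀ n,
  (∀ g : Cell Y (E.E n) 0, PM L M' g → ∃ g', PM L univ g' ∧ Agree M g' g) ∧
  ∀ e : Cell Y (E.E n) 1, Edge L M' e triv triv → ∃ e', Edge L univ e' triv triv ∧ Agree M e' e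

theorem proZ_step {κ δ μ : Cardinal.{0}} (hU : UExt κ δ) (hκ : ℵ₀ ≤ κ) (hκμ : κ ≤ μ)
    (hδ : δ ≤ μ) (hK : ∀ k n m, #((Δ[k] : SSet.{0}).obj m → (E.E n).X.obj m) < δ)
    (L : Set (Om Y)) {M : Set (Om Y)} (hc : Cl M) (hM : #M ≤ μ) :
    ∃ M', (Cl M' ∧ #M' ≤ 2 ^ μ) ∧ M ⊆ M' ∧ ProZ E L M M' := by
  have hμ := (hκ.trans hκμ).trans (cantor μ).le
  choose Z0 h0 h0' using fun n => pro_step hU hκ hκμ hδ (hK 0 n) (fun _ _ => True) L hM
  choose Z1 h1 h1' using fun n => pro_step hU hκ hκμ hδ (hK 1 n) (fun x v =>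
    v (SSet.stdSimplex.const 1 0 x.1) = bp _ x.1 ∧ v (SSet.stdSimplex.const 1 1 x.1) = bp _ x.1)
    L hM
  have s0 : ∀ n, gen (Z0 n) ⊆ M ∪ gen (⋃ n, Z0 n ∪ Z1 n) := fun n => (gen_mono
    (subset_union_left.trans (subset_iUnion (fun n => Z0 n ∪ Z1 n) n))).trans subset_union_right
  have s1 : ∀ n, gen (Z1 n) ⊆ M ∪ gen (⋃ n, Z0 n ∪ Z1 n) := fun n => (gen_mono
    (subset_union_right.trans (subset_iUnion (fun n => Z0 n ∪ Z1 n) n))).trans subset_union_right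
  refine ⟨M ∪ gen (⋃ n, Z0 n ∪ Z1 n), ⟨hc.union (cl_gen _), (mk_union_le _ _).trans
    (add_le_of_le hμ (hM.trans (cantor μ).le) (mk_gen_le hμ (mk_iUnion_le_sum_mk.trans
      ((sum_le_sum _ (fun _ => 2 ^ μ) fun n => (mk_union_le _ _).trans
        (add_le_of_le hμ (h0 n) (h1 n))).trans ?_))))⟩, subset_union_left,
    fun n => ⟨fun g hg => ?_, fun e he => ?_⟩⟩
  · simpa using mul_le_of_le hμ hμ le_rfl
  · obtain ⟨g', h2, h3⟩ := h0' n g ⟨hg.mono (s0 n), fun _ _ => trivial⟩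
    exact ⟨g', h2.1, h3⟩
  · obtain ⟨h2, h3, h4⟩ := edge_iff.1 he
    obtain ⟨e', h5, h6⟩ := h1' n e ⟨h2.mono (s1 n), fun x hx => ⟨h3 x (s1 n hx), h4 x (s1 n hx)⟩⟩
    exact ⟨e', edge_iff.2 ⟨h5.1, fun x _ => (h5.2 x).1, fun x _ => (h5.2 x).2⟩, h6⟩

theorem acy_of_proZ {L : Set (Om Y)} (hL : Cl L) (hac : ∀ n, Acy (E.E n) L univ)
    (M : ℕ → Set (Om Y)) (hM : ∀ i, Cl (M i)) (hm : Monotone M)
    (hp : ∀ i, ProZ E L (M i) (M (i + 1))) (n : ℤ) : Acy (E.E n) L (L ∪ ⋃ i, M i) := by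
  intro g hg
  have hn : ∀ i, ∃ H, Edge L (M i) H g triv := by
    intro i
    obtain ⟨g', h1, h2⟩ := (hp i n).1 g (hg.mono ((subset_iUnion M _).trans subset_union_right))
    obtain ⟨H, hH⟩ := hac n g' h1
    exact ⟨H, (hH.mono (subset_univ _)).congr h2 (Agree.refl _ _)⟩
  have hst : ∀ i (p : {H // Edge L (M (i + 1)) H g triv}),
      ∃ q : {H // Edge L (M (i + 1 + 1)) H g triv}, Agree (M i) q.1 p.1 := by
    intro i p
    obtain ⟨H, hH⟩ := hn (i + 1 + 1)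
    obtain ⟨H', h1, h2⟩ := lemC3 hL (hM i) (hM _) (hM _) (hm (Nat.le_succ i)) (hm (Nat.le_succ _))
      (fun e he => by
        obtain ⟨e', h1, h2⟩ := (hp i n).2 e he
        exact ⟨e', h1.mono (subset_univ _), h2⟩) hH p.2
    exact ⟨⟨H', h1⟩, h2⟩
  choose st hst using hst
  let u : ∀ i, {H // Edge L (M (i + 1)) H g triv} := fun i =>
    Nat.rec ⟨_, (hn 1).choose_spec⟩ st i
  obtain ⟨H, h1, h2⟩ := glue_seq M hm (fun i => (u i).1) (fun i => hst i (u i))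
  have h3 := edge_iUnion hM (fun i => (u i).2.mono (hm (Nat.le_succ i))) h1 h2
  exact ⟨H, ⟨(h3.1.natl hL).mono (union_comm _ _).subset, h3.1.2⟩,
    ((h3.1.2.pull _).trans hg.2.symm).union h3.2.1, (h3.1.2.pull _).union h3.2.2⟩

theorem small_acy {κ δ : Cardinal.{0}} (hU : UExt κ δ) (hκ : ℵ₀ ≤ κ)
    (hK : ∀ k n m, #((Δ[k] : SSet.{0}).obj m → (E.E n).X.obj m) < δ) :
    ∃ ν : Cardinal.{0}, ∀ (Y : SSet.{0}) (L : Set (Om Y)), Cl L → (∀ n, Acy (E.E n) L univ) →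
      ∀ y, ∃ M, Cl M ∧ y ∈ M ∧ #M ≤ ν ∧ ∀ n, Acy (E.E n) L (L ∪ M) := by
  let b : ℕ → Cardinal.{0} := fun i => Nat.rec (max κ δ) (fun _ c => 2 ^ c) i
  have hb : ∀ i, max κ δ ≤ b i := fun i =>
    Nat.rec le_rfl (fun i ih => le_trans ih (cantor (b i)).le) i
  refine ⟨Cardinal.sum b, fun Y L hL hac y => ?_⟩
  have hst : ∀ i (p : {M : Set (Om Y) // Cl M ∧ #M ≤ b i}),
      ∃ q : {M : Set (Om Y) // Cl M ∧ #M ≤ b (i + 1)}, p.1 ⊆ q.1 ∧ ProZ E L p.1 q.1 := by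
    intro i p
    obtain ⟨M', h1, h2⟩ := proZ_step E hU hκ ((le_max_left _ _).trans (hb i))
      ((le_max_right _ _).trans (hb i)) hK L p.2.1 p.2.2
    exact ⟨⟨M', h1⟩, h2⟩
  choose st hst hst' using hst
  let u : ∀ i, {M : Set (Om Y) // Cl M ∧ #M ≤ b i} := fun i =>
    Nat.rec ⟨gen {y}, cl_gen _, (gen_countable (countable_singleton _)).le_aleph0.trans
      (hκ.trans (le_max_left _ _))⟩ st i
  exact ⟨⋃ i, (u i).1, Cl.iUnion fun i => (u i).2.1, mem_iUnion.2 ⟨0, subset_gen _ rfl⟩,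
    mk_iUnion_le_sum_mk.trans (sum_le_sum _ _ fun i => (u i).2.2),
    acy_of_proZ E hL hac _ (fun i => (u i).2.1) (monotone_nat_of_le_succ fun i => hst i (u i))
      fun i => hst' i (u i)⟩

theorem chain_pf {Ω : Type} {V : Ω → Type} (Good : Set Ω → (∀ x, V x) → Prop)
    (hch : ∀ (ι : Type) [Nonempty ι] (L : ι → Set Ω) (g : ι → ∀ x, V x),
      (∀ i, Good (L i) (g i)) → ∀ f : ∀ x, V x, (∀ i, ∀ x ∈ L i, f x = g i x) →
        (∀ x, ∃ i, f x = g i x) → Good (⋃ i, L i) f)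
    {J : Type} [LinearOrder J] [WellFoundedLT J] (B : Set Ω) (A : J → Set Ω) {D : Set J}
    (hD : IsLowerSet D) (step : ∀ j ∈ D, ∀ f, Good (B ∪ ⋃ i ∈ Iio j, A i) f →
      ∃ f', Good ((B ∪ ⋃ i ∈ Iio j, A i) ∪ A j) f' ∧ ∀ x ∈ B ∪ ⋃ i ∈ Iio j, A i, f' x = f x)
    (f0 : ∀ x, V x) (h0 : Good B f0) :
    ∃ f, Good (B ∪ ⋃ i ∈ D, A i) f ∧ ∀ x ∈ B, f x = f0 x := by
  obtain ⟨L, f, ⟨⟨D', hD', hDD, hLD⟩, hG⟩, -, hf, hmax⟩ := zorn_pf
    (fun L f => (∃ D' : Set J, IsLowerSet D' ∧ D' ⊆ D ∧ L = B ∪ ⋃ i ∈ D', A i) ∧ Good L f) B f0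
    ⟨⟨∅, isLowerSet_empty, empty_subset _, by simp⟩, h0⟩ (by
      intro T _ L G hG _ f hf1 hf2
      choose D' hD' using fun p => (hG p).1
      refine ⟨⟨⋃ p, D' p, isLowerSet_iUnion fun p => (hD' p).1,
        iUnion_subset fun p => (hD' p).2.1, ?_⟩, hch T L G (fun p => (hG p).2) f hf1 hf2⟩
      rw [← union_lower]
      exact iUnion_congr fun p => (hD' p).2.2)
  suffices hL : L = B ∪ ⋃ i ∈ D, A i from ⟨f, hL ▸ hG, hf⟩
  refine Subset.antisymm (hLD ▸ union_subset_union_right _ (biUnion_subset_biUnion_left hDD))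
    (union_subset (hLD ▸ subset_union_left) (iUnion₂_subset fun j => ?_))
  induction j using WellFoundedLT.induction with
  | ind j ih =>
    intro hjD
    by_contra hj
    have hLU : L = B ∪ ⋃ i ∈ Iio j, A i := by
      apply Subset.antisymm
      · rw [hLD]
        refine union_subset_union_right _ (biUnion_subset_biUnion_left fun i hi => ?_)
        by_contra hij
        refine hj ?_
        rw [hLD]
        exact (subset_biUnion_of_mem (u := A) (hD' (not_lt.1 hij) hi)).trans subset_union_right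
      · exact union_subset (hLD ▸ subset_union_left)
          (iUnion₂_subset fun i hi => ih i hi (hD (le_of_lt hi) hjD))
    obtain ⟨f', h1, h2⟩ := step j hjD f (hLU ▸ hG)
    refine hj (subset_union_right.trans (hmax _ f' ⟨⟨Iic j, isLowerSet_Iic j,
      fun i hi => hD hi hjD, ?_⟩, h1⟩ (hLU ▸ subset_union_left) (hLU ▸ h2)))
    rw [← Iio_insert, biUnion_insert, union_comm (A j), ← union_assoc]

theorem acy_two {B U : Set (Om Y)} (hB : Cl B) (hU : Cl U) (hBU : B ⊆ U)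
    (h1 : ∀ n, Acy (E.E n) B univ) (h2 : ∀ n, Acy (E.E n) B U) (n : ℤ) :
    Acy (E.E n) U univ := by
  obtain ⟨m, rfl⟩ : ∃ m, n = m + 1 := ⟨n - 1, by ring⟩
  intro g hg
  obtain ⟨H, hH⟩ := h1 _ g (hg.weaken hBU)
  obtain ⟨H', h3, h4⟩ := lemC hB hU cl_univ (subset_univ _)
    (lext_of_ext E hB hU cl_univ (subset_univ _) (n := m) fun f hf => by
      obtain ⟨G, hG⟩ := h2 m f hf
      obtain ⟨_, f', -, -, h3, h4⟩ := hep1 hB hU cl_univ (subset_univ _) (pm_triv _) hG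
      exact ⟨f', h3, h4⟩) hH ((edge_triv _).congr hg.2.symm (Agree.refl _ _))
  exact ⟨H', ⟨h3.1.1, h4⟩, h3.2⟩

theorem extAll_of_step {ν : Cardinal.{0}} (h : ∀ (Y : SSet.{0}) (L : Set (Om Y)), Cl L →
      (∀ n, Acy (E.E n) L univ) → ∀ y, ∃ M, Cl M ∧ y ∈ M ∧ #M ≤ ν ∧ ∀ n, Acy (E.E n) L (L ∪ M))
    {W : PKan} (hW : ExtOn E ν.out W) : ExtAll E W := by
  classical
  intro Y B hB hac
  obtain ⟨_, _⟩ := exists_wellFoundedLT (α := Om Y)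
  obtain ⟨N, hN⟩ := exists_chain (O := Om Y) B fun y S =>
    if hS : Cl S ∧ ∀ n, Acy (E.E n) S univ then (h Y S hS.1 hS.2 y).choose else ∅
  have hN' : ∀ j, (Cl (B ∪ ⋃ i ∈ Iio j, N i) ∧ ∀ n, Acy (E.E n) (B ∪ ⋃ i ∈ Iio j, N i) univ) →
      Cl (N j) ∧ j ∈ N j ∧ #(N j) ≤ ν ∧ ∀ n, Acy (E.E n) (B ∪ ⋃ i ∈ Iio j, N i)
        ((B ∪ ⋃ i ∈ Iio j, N i) ∪ N j) := by
    intro j hj
    rw [hN j, dif_pos hj]
    exact (h Y _ hj.1 hj.2 j).choose_spec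
  have key : ∀ j, Cl (B ∪ ⋃ i ∈ Iio j, N i) ∧
      ∀ n, Acy (E.E n) (B ∪ ⋃ i ∈ Iio j, N i) univ := by
    intro j
    induction j using WellFoundedLT.induction with
    | ind j ih =>
      have hcl : Cl (B ∪ ⋃ i ∈ Iio j, N i) :=
        hB.union (Cl.iUnion fun i => Cl.iUnion fun hi => (hN' i (ih i hi)).1)
      refine ⟨hcl, acy_two E hB hcl subset_union_left hac fun n g hg => ?_⟩
      obtain ⟨H, hH, -⟩ := chain_pf (fun S (H : Cell Y (E.E n) 1) => Cl S ∧ Edge B S H g triv)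
        (fun _ _ L G hG f h1 h2 => ⟨Cl.iUnion fun i => (hG i).1,
          edge_iUnion (fun i => (hG i).1) (fun i => (hG i).2) h1 h2⟩) B N (isLowerSet_Iio j)
        (fun i hi H hH => by
          have h1 := hN' i (ih i hi)
          have h2 := (ih i hi).1.union h1.1
          obtain ⟨c, hc, hc'⟩ := ext_null hB hH.1 h2 subset_union_left (hg.mono (union_subset
            (union_subset_union_right _ (biUnion_subset_biUnion_left (Iio_subset_Iio (le_of_lt hi))))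
            ((sub_Iio N hi).trans subset_union_right))) hH.2 fun G g' _ hg' hg0 => by
              obtain ⟨H', h3⟩ := h1.2.2.2 n g' ⟨hg'.1, hg0⟩
              exact ⟨H', h3.weaken subset_union_left, h3.1.2⟩
          exact ⟨c, ⟨h2, hc⟩, hc'⟩) triv
        ⟨hB, (edge_triv B).congr hg.2.symm (Agree.refl _ _)⟩
      exact ⟨H, hH.2⟩
  intro f hf
  obtain ⟨f', h1, h2⟩ := chain_pf (fun S (f : Cell Y W 0) => Cl S ∧ PM ∅ S f)
    (fun _ _ L G hG f h1 h2 => ⟨Cl.iUnion fun i => (hG i).1,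
      pm_iUnion (fun i => (hG i).1) (fun i => (hG i).2) h1 h2⟩) B N isLowerSet_univ
    (fun j _ g hg => by
      have h1 := hN' j (key j)
      obtain ⟨g', h2, h3⟩ := ext_small E hW hg.1 h1.1 (by rw [mk_out]; exact h1.2.2.1)
        h1.2.2.2 g hg.2
      exact ⟨g', ⟨hg.1.union h1.1, h2⟩, h3⟩) f ⟨hB, hf⟩
  exact ⟨f', h1.2.mono fun y _ => Or.inr (mem_biUnion (mem_univ y) (hN' y (key y)).2.1), h2⟩

theorem cl_of_uext (h : ∀ δ, ∃ κ, UExt κ δ) : CL := cl_of_gen fun E => by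
  let c : ℕ × ℤ × SimplexCategoryᵒᵖ → Cardinal.{0} := fun p =>
    #((Δ[p.1] : SSet.{0}).obj p.2.2 → (E.E p.2.1).X.obj p.2.2)
  obtain ⟨κ, hκ⟩ := h (Order.succ (Cardinal.sum c))
  obtain ⟨ν, hν⟩ := small_acy E (κ := max κ ℵ₀) (δ := Order.succ (Cardinal.sum c))
    (fun I F h1 h2 => hκ I F h1
      (CardinalInterFilter.of_cardinalInterFilter_of_le F (le_max_left κ ℵ₀))) (le_max_right _ _)
    fun k n m => Order.lt_succ_of_le (Cardinal.le_sum c (k, n, m))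
  exact ⟨ν.out, fun W hW => extAll_of_step E hν hW⟩

end Pool.Agent.MP_e99f36_lc.H71
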