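import Pool.Agent.MP_e99f36_lc.H71.Defs

/-! Set-theoretic utilities: bounded sets, closure points, guessing, closures, Zorn. -/

open Cardinal Set

namespace Pool.Agent.MP_e99f36_lc.H71

theorem cof_O {κ : Cardinal.{0}} (hκ : κ.IsRegular) : Order.cof κ.ord.ToType = κ := by
  rw [Ordinal.cof_toType, hκ.cof_ord]

theorem mk_O (κ : Cardinal.{0}) : #κ.ord.ToType = κ := by simp

theorem bnd {κ : Cardinal.{0}} (hκ : κ.IsRegular) (s : Set κ.ord.ToType) (hs : #s < κ) :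
    ∃ j, ∀ i ∈ s, i < j := by
  have : ¬ IsCofinal s := fun h => by
    have := Order.cof_le h
    rw [cof_O hκ] at this
    exact absurd hs (not_lt.2 this)
  exact not_isCofinal_iff.1 this

theorem mk_Iio_O {κ : Cardinal.{0}} (j : κ.ord.ToType) : #(Iio j) < κ :=
  by simpa using Cardinal.mk_Iio_lt j (by simp)

theorem cof_ne {κ : Cardinal.{0}} (hκ : κ.IsRegular) (h0 : ℵ₀ < κ) :
    Order.cof κ.ord.ToType ≠ ℵ₀ := by
  rw [cof_O hκ]; exact h0.ne'

theorem isClub_closure {κ : Cardinal.{0}} (hκ : κ.IsRegular) (h0 : ℵ₀ < κ)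
    (F : κ.ord.ToType → κ.ord.ToType) : IsClub {j | ∀ i < j, F i < j} := by
  refine ⟨?_, ?_⟩
  · intro d hd hne _ a ha i hi
    obtain ⟨j, hj, hij⟩ := (lt_isLUB_iff ha).1 hi
    exact (hd hj i hij).trans_le (ha.1 hj)
  · intro a
    have hstep : ∀ b : κ.ord.ToType, ∃ c, b < c ∧ ∀ i < b, F i < c := by
      intro b
      obtain ⟨c, hc⟩ := bnd hκ (insert b (F '' Iio b)) (by
        refine (mk_insert_le).trans_lt ?_
        refine add_lt_of_lt hκ.aleph0_le (mk_image_le.trans_lt (mk_Iio_O b)) ?_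
        exact one_lt_aleph0.trans h0)
      exact ⟨c, hc _ (mem_insert _ _), fun i hi => hc _ (mem_insert_of_mem _ ⟨i, hi, rfl⟩)⟩
    choose g hg1 hg2 using hstep
    let u : ℕ → κ.ord.ToType := fun n => g^[n] a
    have hu : ∀ n, u (n + 1) = g (u n) := fun n => Function.iterate_succ_apply' g n a
    obtain ⟨b, hb⟩ := bnd hκ (range u) (by
      refine lt_of_le_of_lt ?_ h0
      simpa using mk_range_le (f := u))
    have hne : (upperBounds (range u)).Nonempty := ⟨b, fun x hx => (hb x hx).le⟩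
    let m := WellFounded.min wellFounded_lt _ hne
    have hm : m ∈ upperBounds (range u) := WellFounded.min_mem wellFounded_lt _ hne
    have hmin : ∀ x ∈ upperBounds (range u), m ≤ x := fun x hx =>
      not_lt.1 (WellFounded.not_lt_min wellFounded_lt _ hx)
    refine ⟨m, ?_, hm ⟨0, rfl⟩⟩
    intro i hi
    have : ∃ n, i < u n := by
      by_contra hcon
      push Not at hcon
      exact absurd hi (not_lt.2 (hmin i (by rintro _ ⟨n, rfl⟩; exact hcon n)))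
    obtain ⟨n, hn⟩ := this
    have h1 := hg2 (u n) i hn
    rw [← hu] at h1
    exact h1.trans_le (hm ⟨n + 1, rfl⟩)

theorem guess_set {κ : Cardinal.{0}} (hκ : κ.IsRegular) (h0 : ℵ₀ < κ) {S : Set κ.ord.ToType}
    (hD : Diamond κ S) {Z : Type} (W : κ.ord.ToType → Set Z) (hW : ∀ i, #(W i) < κ) :
    ∃ D' : κ.ord.ToType → Set Z, ∀ X : Set Z,
      IsStationary {α | α ∈ S ∧ X ∩ (⋃ i ∈ Iio α, W i) = D' α} := by
  classical
  obtain ⟨D, hD⟩ := hD
  have hcard : #(⋃ i, W i) ≤ #κ.ord.ToType := by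
    refine (mk_iUnion_le_sum_mk).trans ?_
    refine (sum_le_sum _ (fun _ => κ) (fun i => (hW i).le)).trans ?_
    simp [mul_eq_self hκ.aleph0_le]
  obtain ⟨e⟩ := (Cardinal.le_def _ _).1 hcard
  have h1 : ∀ i, ∃ j, ∀ z : (⋃ i, W i), z.1 ∈ W i → e z < j := by
    intro i
    obtain ⟨j, hj⟩ := bnd hκ (e '' {z | z.1 ∈ W i}) (by
      refine mk_image_le.trans_lt (lt_of_le_of_lt ?_ (hW i))
      exact mk_le_of_injective (f := fun z : {z : (⋃ i, W i) | z.1 ∈ W i} => (⟨z.1.1, z.2⟩ : W i))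
        (fun a b h => Subtype.ext (Subtype.ext (congrArg (fun w : W i => w.1) h))))
    exact ⟨j, fun z hz => hj _ ⟨z, hz, rfl⟩⟩
  have h2 : ∀ i, ∃ j, ∀ z : (⋃ i, W i), e z = i → z.1 ∈ W j := by
    intro i
    by_cases h : ∃ z, e z = i
    · obtain ⟨z, hz⟩ := h
      obtain ⟨j, hj⟩ := mem_iUnion.1 z.2
      refine ⟨j, fun z' hz' => ?_⟩
      rw [e.injective (hz'.trans hz.symm)]; exact hj
    · exact ⟨i, fun z hz => absurd ⟨z, hz⟩ h⟩
  choose F1 hF1 using h1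
  choose F2 hF2 using h2
  refine ⟨fun α => {z | ∃ hz : z ∈ ⋃ i, W i, e ⟨z, hz⟩ ∈ D α}, fun X C hC => ?_⟩
  have hC' := (hC.inter (cof_ne hκ h0) (isClub_closure hκ h0 F1)).inter (cof_ne hκ h0)
    (isClub_closure hκ h0 F2)
  obtain ⟨α, ⟨hαS, hα⟩, ⟨hαC, hα1⟩, hα2⟩ := hD (e '' {z | z.1 ∈ X}) hC'
  refine ⟨α, ⟨hαS, ?_⟩, hαC⟩
  ext z
  simp only [mem_inter_iff, mem_iUnion, mem_Iio, exists_prop, mem_ofPred_eq, ← hα]
  constructor
  · rintro ⟨hX, i, hi, hz⟩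
    refine ⟨⟨i, hz⟩, ⟨_, hX, rfl⟩, ?_⟩
    exact (hF1 i ⟨z, mem_iUnion.2 ⟨i, hz⟩⟩ hz).trans (hα1 i hi)
  · rintro ⟨hz, ⟨z', hz', he⟩, hlt⟩
    have := e.injective he
    subst this
    exact ⟨hz', F2 _, hα2 _ hlt, hF2 _ _ rfl⟩

theorem guess_fun {κ : Cardinal.{0}} (hκ : κ.IsRegular) (h0 : ℵ₀ < κ) {S : Set κ.ord.ToType}
    (hD : Diamond κ S) {Ω : Type} (V : Ω → Type) {lam : Cardinal.{0}} (hl : lam < κ)
    (hV : ∀ x, #(V x) ≤ lam) (d : ∀ x, V x)
    (W : κ.ord.ToType → Set Ω) (hW : ∀ i, #(W i) < κ) :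
    ∃ h : κ.ord.ToType → ∀ x, V x, ∀ H : ∀ x, V x,
      IsStationary {α | α ∈ S ∧ ∀ x ∈ ⋃ i ∈ Iio α, W i, h α x = H x} := by
  classical
  obtain ⟨D', hD'⟩ := guess_set hκ h0 hD (Z := Σ x, V x) (fun i => {z | z.1 ∈ W i}) (by
    intro i
    have : #{z : Σ x, V x | z.1 ∈ W i} ≤ #(Σ x : W i, V x.1) :=
      mk_le_of_injective (f := fun z => ⟨⟨z.1.1, z.2⟩, z.1.2⟩) (by
        rintro ⟨⟨a, v⟩, ha⟩ ⟨⟨b, w⟩, hb⟩ h
        simp only [Sigma.mk.injEq, Subtype.mk.injEq] at h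
        obtain ⟨rfl, h⟩ := h
        obtain rfl := eq_of_heq h
        rfl)
    refine this.trans_lt ?_
    rw [mk_sigma]
    refine (sum_le_sum _ (fun _ => lam) (fun x => hV _)).trans_lt ?_
    simpa using mul_lt_of_lt hκ.aleph0_le (hW i) hl)
  refine ⟨fun α x => if h : ∃ v, (⟨x, v⟩ : Σ x, V x) ∈ D' α then h.choose else d x, fun H => ?_⟩
  refine (hD' {z | z.2 = H z.1}).mono ?_
  rintro α ⟨hαS, hα⟩
  refine ⟨hαS, fun x hx => ?_⟩
  have hex : ∃ v, (⟨x, v⟩ : Σ x, V x) ∈ D' α := ⟨H x, by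
    rw [← hα]
    refine ⟨rfl, ?_⟩
    simpa using hx⟩
  simp only [dif_pos hex]
  exact (hα.symm.subset hex.choose_spec).1

/-- Stages of the closure of `Z` under a function of finite lists. -/
def cloN {Ω : Type} (F : List Ω → Set Ω) (Z : Set Ω) : ℕ → Set Ω
  | 0 => Z
  | n + 1 => cloN F Z n ∪ ⋃ l : {l : List Ω // ∀ x ∈ l, x ∈ cloN F Z n}, F l.1

/-- The closure of `Z` under a function of finite lists. -/
def clo {Ω : Type} (F : List Ω → Set Ω) (Z : Set Ω) : Set Ω := ⋃ n, cloN F Z n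

theorem cloN_mono {Ω : Type} (F : List Ω → Set Ω) (Z : Set Ω) : Monotone (cloN F Z) :=
  monotone_nat_of_le_succ fun _ => subset_union_left

theorem subset_clo {Ω : Type} (F : List Ω → Set Ω) (Z : Set Ω) : Z ⊆ clo F Z :=
  subset_iUnion (cloN F Z) 0

theorem clo_closed {Ω : Type} (F : List Ω → Set Ω) (Z : Set Ω) (l : List Ω)
    (hl : ∀ x ∈ l, x ∈ clo F Z) : F l ⊆ clo F Z := by
  have : ∃ n, ∀ x ∈ l, x ∈ cloN F Z n := by
    induction l with
    | nil => exact ⟨0, by simp⟩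
    | cons a l ih =>
      obtain ⟨n, hn⟩ := ih (fun x hx => hl x (List.mem_cons_of_mem _ hx))
      obtain ⟨m, hm⟩ := mem_iUnion.1 (hl a List.mem_cons_self)
      refine ⟨max n m, fun x hx => ?_⟩
      rcases List.mem_cons.1 hx with rfl | hx
      · exact cloN_mono F Z (le_max_right _ _) hm
      · exact cloN_mono F Z (le_max_left _ _) (hn x hx)
  obtain ⟨n, hn⟩ := this
  intro y hy
  exact mem_iUnion.2 ⟨n + 1, Or.inr (mem_iUnion.2 ⟨⟨l, hn⟩, hy⟩)⟩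

theorem clo_subset {Ω : Type} (F : List Ω → Set Ω) (Z T : Set Ω) (hZ : Z ⊆ T)
    (hT : ∀ l : List Ω, (∀ x ∈ l, x ∈ T) → F l ⊆ T) : clo F Z ⊆ T := by
  refine iUnion_subset fun n => ?_
  induction n with
  | zero => exact hZ
  | succ n ih =>
    exact union_subset ih (iUnion_subset fun l => hT _ fun x hx => ih (l.2 x hx))

theorem mk_clo_le {Ω : Type} (F : List Ω → Set Ω) (Z : Set Ω) {μ : Cardinal.{0}} (hμ : ℵ₀ ≤ μ)
    (hF : ∀ l, #(F l) ≤ μ) (hZ : #Z ≤ μ) : #(clo F Z) ≤ μ := by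
  have h : ∀ n, #(cloN F Z n) ≤ μ := by
    intro n
    induction n with
    | zero => exact hZ
    | succ n ih =>
      refine (mk_union_le _ _).trans (add_le_of_le hμ ih ?_)
      refine mk_iUnion_le_sum_mk.trans ?_
      refine (sum_le_sum _ (fun _ => μ) (fun l => hF _)).trans ?_
      have : #{l : List Ω // ∀ x ∈ l, x ∈ cloN F Z n} ≤ μ := by
        have h1 : #{l : List Ω // ∀ x ∈ l, x ∈ cloN F Z n} ≤ #(List (cloN F Z n)) := by
          refine mk_le_of_injective (f := fun l => l.1.attachWith _ l.2) ?_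
          intro a b h
          apply Subtype.ext
          have := congrArg (List.map Subtype.val) h
          simpa using this
        exact h1.trans ((mk_list_le_max _).trans (max_le hμ ih))
      simpa using mul_le_of_le hμ this le_rfl
  refine mk_iUnion_le_sum_mk.trans ?_
  refine (sum_le_sum _ (fun _ => μ) h).trans ?_
  simpa using mul_le_of_le hμ hμ le_rfl

/-- Zorn's lemma for functions considered on a subset of their domain. -/
theorem zorn_pf {Ω : Type} {V : Ω → Type} (Good : Set Ω → (∀ x, V x) → Prop)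
    (L0 : Set Ω) (f0 : ∀ x, V x) (h0 : Good L0 f0)
    (hch : ∀ (ι : Type) [Nonempty ι] (L : ι → Set Ω) (g : ι → ∀ x, V x),
      (∀ i, Good (L i) (g i)) → Directed (· ⊆ ·) L →
      ∀ f : ∀ x, V x, (∀ i, ∀ x ∈ L i, f x = g i x) → (∀ x, ∃ i, f x = g i x) →
        Good (⋃ i, L i) f) :
    ∃ L f, Good L f ∧ L0 ⊆ L ∧ (∀ x ∈ L0, f x = f0 x) ∧
      ∀ L' f', Good L' f' → L ⊆ L' → (∀ x ∈ L, f' x = f x) → L' ⊆ L := by
  classical
  let T := {p : Set Ω × (∀ x, V x) // Good p.1 p.2 ∧ L0 ⊆ p.1 ∧ ∀ x ∈ L0, p.2 x = f0 x}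
  let r : T → T → Prop := fun p q => p.1.1 ⊆ q.1.1 ∧ ∀ x ∈ p.1.1, q.1.2 x = p.1.2 x
  have htr : ∀ {a b c : T}, r a b → r b c → r a c := fun hab hbc =>
    ⟨hab.1.trans hbc.1, fun x hx => (hbc.2 x (hab.1 hx)).trans (hab.2 x hx)⟩
  have hb : ∀ c : Set T, IsChain r c → ∃ ub, ∀ a ∈ c, r a ub := by
    intro c hc
    rcases c.eq_empty_or_nonempty with rfl | ⟨p0, hp0⟩
    · exact ⟨⟨(L0, f0), h0, subset_rfl, fun _ _ => rfl⟩, by simp⟩
    have : Nonempty c := ⟨⟨p0, hp0⟩⟩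
    have hcmp : ∀ p q : c, r p.1 q.1 ∨ r q.1 p.1 := by
      intro p q
      by_cases h : p.1 = q.1
      · rw [h]; exact Or.inl ⟨subset_rfl, fun _ _ => rfl⟩
      · exact hc p.2 q.2 h
    let f : ∀ x, V x := fun x =>
      if h : ∃ p : c, x ∈ p.1.1.1 then h.choose.1.1.2 x else p0.1.2 x
    have hf : ∀ p : c, ∀ x ∈ p.1.1.1, f x = p.1.1.2 x := by
      intro p x hx
      have hex : ∃ p : c, x ∈ p.1.1.1 := ⟨p, hx⟩
      simp only [f, dif_pos hex]
      rcases hcmp p hex.choose with h | h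
      · exact h.2 x hx
      · exact (h.2 x hex.choose_spec).symm
    have hG := hch c (fun p => p.1.1.1) (fun p => p.1.1.2) (fun p => p.1.2.1) (by
      intro p q
      rcases hcmp p q with h | h
      · exact ⟨q, h.1, subset_rfl⟩
      · exact ⟨p, subset_rfl, h.1⟩) f hf (by
      intro x
      by_cases hex : ∃ p : c, x ∈ p.1.1.1
      · exact ⟨hex.choose, by simp only [f, dif_pos hex]⟩
      · exact ⟨⟨p0, hp0⟩, by simp only [f, dif_neg hex]⟩)
    refine ⟨⟨(⋃ p : c, p.1.1.1, f), hG, ?_, ?_⟩, ?_⟩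
    · exact p0.2.2.1.trans (subset_iUnion (fun p : c => p.1.1.1) ⟨p0, hp0⟩)
    · intro x hx
      exact (hf ⟨p0, hp0⟩ x (p0.2.2.1 hx)).trans (p0.2.2.2 x hx)
    · intro a ha
      exact ⟨subset_iUnion (fun p : c => p.1.1.1) ⟨a, ha⟩, fun x hx => hf ⟨a, ha⟩ x hx⟩
  obtain ⟨m, hm⟩ := exists_maximal_of_chains_bounded hb htr
  refine ⟨m.1.1, m.1.2, m.2.1, m.2.2.1, m.2.2.2, fun L' f' hG hL hf => ?_⟩
  exact (hm ⟨(L', f'), hG, m.2.2.1.trans hL, fun x hx =>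
    (hf x (m.2.2.1 hx)).trans (m.2.2.2 x hx)⟩ ⟨hL, hf⟩).1

end Pool.Agent.MP_e99f36_lc.H71
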